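import Pool.Agent.H83.MC.Red

/-!
# Components of a real curve which are contained in an affine chart
-/

open MvPolynomial Pool.Agent.H83.MC

namespace Pool.Agent.H83.MS

noncomputable section

/-- The point `(x : y : 1)`. -/
def aff (x y : ℝ) : RP2 := mkP ⟨![x, y, 1], by
  intro h
  have := congrFun h 2
  simp at this⟩

theorem continuous_aff : Continuous fun v : ℝ × ℝ => aff v.1 v.2 := by
  refine continuous_mkP.comp (Continuous.subtype_mk ?_ _)
  refine continuous_pi fun i => ?_
  fin_cases i
  · exact continuous_fst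
  · exact continuous_snd
  · exact continuous_const

theorem aff_mem {F : MvPolynomial (Fin 3) ℝ} {d : ℕ} (hF : F.IsHomogeneous d) (x y : ℝ) :
    aff x y ∈ realPart F ↔ eval ![x, y, 1] F = 0 := mem_realPart hF _

theorem ph_aff (x y : ℝ) : ph (aff x y) = 1 / (x ^ 2 + y ^ 2 + 1) := by
  change (1 : ℝ) ^ 2 / (x ^ 2 + y ^ 2 + 1 ^ 2) = _
  rw [one_pow]

theorem exists_aff {p : RP2} (h : ph p ≠ 0) : ∃ x y, p = aff x y := by
  induction p using Quotient.inductionOn with
  | _ v =>
    have h2 : v.1 2 ≠ 0 := by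
      intro h2
      apply h
      change v.1 2 ^ 2 / (v.1 0 ^ 2 + v.1 1 ^ 2 + v.1 2 ^ 2) = 0
      rw [h2]
      simp
    refine ⟨v.1 0 / v.1 2, v.1 1 / v.1 2, (mkP_eq.2 ⟨v.1 2, ?_⟩).symm⟩
    ext i
    fin_cases i
    · simp [mul_div_cancel₀ _ h2]
    · simp [mul_div_cancel₀ _ h2]
    · simp

theorem exists_inf {p : RP2} (h : ph p = 0) : ∃ v : NZ, v.1 2 = 0 ∧ p = mkP v := by
  induction p using Quotient.inductionOn with
  | _ v =>
    refine ⟨v, ?_, rfl⟩
    change v.1 2 ^ 2 / (v.1 0 ^ 2 + v.1 1 ^ 2 + v.1 2 ^ 2) = 0 at h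
    rcases div_eq_zero_iff.1 h with h | h
    · exact pow_eq_zero_iff (by norm_num) |>.1 h
    · exact absurd h (sq_sum_pos v).ne'

theorem ph_nonneg (p : RP2) : 0 ≤ ph p := by
  induction p using Quotient.inductionOn with
  | _ v =>
    change 0 ≤ v.1 2 ^ 2 / (v.1 0 ^ 2 + v.1 1 ^ 2 + v.1 2 ^ 2)
    have := sq_sum_pos v
    positivity

theorem _root_.Pool.Agent.H83.MC.InC.path {F : MvPolynomial (Fin 3) ℝ}
    {κ : ConnectedComponents (realPart F)} {α : Type*} [TopologicalSpace α]
    {I : Set α} (hI : IsPreconnected I) {c : α → RP2} (hc : ContinuousOn c I)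
    (h0 : ∀ x ∈ I, c x ∈ realPart F) {x y : α} (hx : x ∈ I) (hy : y ∈ I)
    (h : InC κ (c x)) : InC κ (c y) := by
  refine ⟨h0 y hy, ?_⟩
  rw [h.2, ConnectedComponents.coe_eq_coe']
  set f : I → realPart F := fun z => ⟨c z, h0 z z.2⟩ with hf
  have hfc : Continuous f := (continuousOn_iff_continuous_domRestrict.1 hc).subtype_mk _
  have : PreconnectedSpace I := isPreconnected_iff_preconnectedSpace.1 hI
  have hr : IsPreconnected (Set.range f) := isPreconnected_range hfc
  exact hr.subset_connectedComponent (Set.mem_range_self (⟨y, hy⟩ : I))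
    (Set.mem_range_self (⟨x, hx⟩ : I))

/-- The affine part of a component. -/
def SK {F : MvPolynomial (Fin 3) ℝ} (κ : ConnectedComponents (realPart F)) : Set (ℝ × ℝ) :=
  {v | InC κ (aff v.1 v.2)}

/-- The component meets the line `z = 0`. -/
def Unb {F : MvPolynomial (Fin 3) ℝ} (κ : ConnectedComponents (realPart F)) : Prop :=
  ∃ p, InC κ p ∧ ph p = 0

theorem isClosed_SK {F : MvPolynomial (Fin 3) ℝ} {d : ℕ} (hF : F.IsHomogeneous d)
    (κ : ConnectedComponents (realPart F)) : IsClosed (SK κ) := by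
  set A : Set (ℝ × ℝ) := {v | eval ![v.1, v.2, 1] F = 0} with hA
  have hAc : IsClosed A := by
    refine isClosed_eq ((MvPolynomial.continuous_eval F).comp ?_) continuous_const
    refine continuous_pi fun i => ?_
    fin_cases i
    · exact continuous_fst
    · exact continuous_snd
    · exact continuous_const
  set f : A → realPart F := fun v => ⟨aff v.1.1 v.1.2, (aff_mem hF _ _).2 v.2⟩ with hf
  have hfc : Continuous f := (continuous_aff.comp continuous_subtype_val).subtype_mk _
  obtain ⟨x, hx⟩ := ConnectedComponents.surjective_coe κ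
  have hfib : IsClosed {y : realPart F | (y : ConnectedComponents (realPart F)) = κ} := by
    rw [← hx]
    have : {y : realPart F | (y : ConnectedComponents (realPart F)) = (x : _)} =
        connectedComponent x := connectedComponents_preimage_singleton
    rw [this]
    exact isClosed_connectedComponent
  have h1 : IsClosed (f ⁻¹' {y : realPart F | (y : ConnectedComponents (realPart F)) = κ}) :=
    hfib.preimage hfc
  have h2 : SK κ = Subtype.val ''
      (f ⁻¹' {y : realPart F | (y : ConnectedComponents (realPart F)) = κ}) := by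
    ext v
    constructor
    · rintro ⟨h3, h4⟩
      exact ⟨⟨v, (aff_mem hF _ _).1 h3⟩, h4.symm, rfl⟩
    · rintro ⟨w, hw, rfl⟩
      exact ⟨(aff_mem hF _ _).2 w.2, hw.symm⟩
  rw [h2]
  exact hAc.isClosedMap_subtype_val _ h1

/-- The affine part of a component which does not meet the line `z = 0` is compact. -/
theorem isCompact_SK {F : MvPolynomial (Fin 3) ℝ} {d : ℕ} (hF : F.IsHomogeneous d)
    {κ : ConnectedComponents (realPart F)} (hκ : ¬ Unb κ) : IsCompact (SK κ) := by
  have hne : {x : realPart F | (x : ConnectedComponents (realPart F)) = κ}.Nonempty :=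
    ConnectedComponents.surjective_coe κ
  obtain ⟨x, hx, hmin⟩ := (isCompact_fiber hF κ).exists_isMinOn hne
    (f := fun x : realPart F => ph x.1) (continuous_ph.comp continuous_subtype_val).continuousOn
  have hx0 : 0 < ph x.1 :=
    lt_of_le_of_ne (ph_nonneg _) fun h => hκ ⟨x.1, ⟨x.2, by rw [← hx]⟩, h.symm⟩
  set m := ph x.1 with hm
  refine Metric.isCompact_of_isClosed_isBounded (isClosed_SK hF κ) ?_
  rw [isBounded_iff_forall_norm_le]
  refine ⟨1 / m + 1, fun v hv => ?_⟩
  have h1 : m ≤ ph (aff v.1 v.2) := hmin (a := ⟨_, hv.1⟩) hv.2.symm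
  rw [ph_aff, le_div_iff₀ (by positivity)] at h1
  have h2 : v.1 ^ 2 + v.2 ^ 2 + 1 ≤ 1 / m := by
    rw [le_div_iff₀ hx0]
    linarith
  have h3 : 0 < 1 / m := by positivity
  rw [Prod.norm_def, Real.norm_eq_abs, Real.norm_eq_abs]
  refine max_le ?_ ?_
  · refine abs_le_of_sq_le_sq ?_ (by positivity)
    nlinarith [sq_nonneg v.2]
  · refine abs_le_of_sq_le_sq ?_ (by positivity)
    nlinarith [sq_nonneg v.1]

theorem SK_nonempty {F : MvPolynomial (Fin 3) ℝ}
    {κ : ConnectedComponents (realPart F)} (hκ : ¬ Unb κ) : (SK κ).Nonempty := by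
  obtain ⟨x, hx⟩ := ConnectedComponents.surjective_coe κ
  have hC : InC κ x.1 := ⟨x.2, hx.symm⟩
  obtain ⟨a, b, hab⟩ := exists_aff (p := x.1) fun h => hκ ⟨x.1, hC, h⟩
  rw [hab] at hC
  exact ⟨(a, b), hC⟩

/-- The polynomial `F (t, 1, 0)`. -/
def PI (F : MvPolynomial (Fin 3) ℝ) : Polynomial ℝ :=
  aeval ![Polynomial.X, Polynomial.C 1, Polynomial.C 0] F

theorem eval_PI (F : MvPolynomial (Fin 3) ℝ) (t : ℝ) : (PI F).eval t = eval ![t, 1, 0] F := by
  rw [PI, ← Polynomial.coe_evalRingHom, MvPolynomial.aeval_def, ← MvPolynomial.coe_eval₂Hom,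
    ← MvPolynomial.eval₂_id, ← MvPolynomial.coe_eval₂Hom]
  rw [← RingHom.comp_apply]
  congr 1
  apply MvPolynomial.ringHom_ext
  · intro r; simp
  · intro i; fin_cases i <;> simp

theorem natDegree_PI {F : MvPolynomial (Fin 3) ℝ} {d : ℕ} (hF : F.IsHomogeneous d) :
    (PI F).natDegree ≤ d := by
  have h : PI F = ∑ m ∈ F.support, Polynomial.C (coeff m F * 0 ^ m 2) * Polynomial.X ^ m 0 := by
    apply Polynomial.funext
    intro s
    rw [eval_PI, eval_eq_sum, Polynomial.eval_finsetSum]
    refine Finset.sum_congr rfl fun m _ => ?_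
    simp only [Polynomial.eval_mul, Polynomial.eval_C, Polynomial.eval_pow, Polynomial.eval_X]
    ring
  rw [h]
  refine Polynomial.natDegree_sum_le_of_forall_le _ _ fun m hm => ?_
  have h1 := deg_le hF hm
  refine (Polynomial.natDegree_C_mul_X_pow_le _ _).trans ?_
  omega

/-- The point `(t : 1 : 0)`. -/
def inf1 (t : ℝ) : RP2 := mkP ⟨![t, 1, 0], by
  intro h
  have := congrFun h 1
  simp at this⟩

/-- The point `(1 : 0 : 0)`. -/
def inf2 : RP2 := mkP ⟨![1, 0, 0], by
  intro h
  have := congrFun h 0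
  simp at this⟩

theorem continuous_inf1 : Continuous inf1 := by
  refine continuous_mkP.comp (Continuous.subtype_mk ?_ _)
  refine continuous_pi fun i => ?_
  fin_cases i
  · exact continuous_id
  · exact continuous_const
  · exact continuous_const

theorem inf1_mem {F : MvPolynomial (Fin 3) ℝ} {d : ℕ} (hF : F.IsHomogeneous d) (t : ℝ) :
    inf1 t ∈ realPart F ↔ (PI F).eval t = 0 := by
  rw [eval_PI]
  exact mem_realPart hF _

theorem exists_inf12 {p : RP2} (h : ph p = 0) : (∃ t, p = inf1 t) ∨ p = inf2 := by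
  obtain ⟨v, h2, rfl⟩ := exists_inf h
  by_cases h1 : v.1 1 = 0
  · right
    refine (mkP_eq.2 ⟨v.1 0, ?_⟩).symm
    ext i
    fin_cases i
    · simp
    · simpa using h1
    · simpa using h2
  · left
    refine ⟨v.1 0 / v.1 1, (mkP_eq.2 ⟨v.1 1, ?_⟩).symm⟩
    ext i
    fin_cases i
    · simp [mul_div_cancel₀ _ h1]
    · simp
    · simpa using h2

open scoped Classical in
/-- If the points at infinity of the form `(t : 1 : 0)` are in a finite set `T`, or if all of them are
on the curve, the number of the components which meet the line `z = 0` is bounded. -/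
theorem card_unb {F : MvPolynomial (Fin 3) ℝ} {d : ℕ} (hF : F.IsHomogeneous d)
    [Fintype (ConnectedComponents (realPart F))] (T : Finset ℝ) (e : ℕ)
    (hT : PI F ≠ 0 → ∀ t, (PI F).eval t = 0 → t ∈ T) (he : PI F ≠ 0 → inf2 ∈ realPart F →
      T.card + 1 ≤ e) (he' : PI F ≠ 0 → T.card ≤ e) (he2 : 2 ≤ e) :
    (Finset.univ.filter fun κ : ConnectedComponents (realPart F) => Unb κ).card ≤ e := by
  by_cases h0 : PI F = 0
  · have hmem : ∀ t, inf1 t ∈ realPart F := fun t => (inf1_mem hF t).2 (by rw [h0]; simp)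
    set κ₀ : ConnectedComponents (realPart F) :=
      ((⟨inf1 0, hmem 0⟩ : realPart F) : ConnectedComponents (realPart F)) with hκ₀
    have h1 : InC κ₀ (inf1 0) := ⟨hmem 0, rfl⟩
    have h2 : ∀ t, InC κ₀ (inf1 t) := fun t =>
      InC.path isPreconnected_univ continuous_inf1.continuousOn (fun x _ => hmem x)
        (Set.mem_univ 0) (Set.mem_univ t) h1
    have hsub : (Finset.univ.filter fun κ : ConnectedComponents (realPart F) => Unb κ) ⊆
        insert κ₀ (Finset.univ.filter fun κ : ConnectedComponents (realPart F) =>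
          InC κ inf2) := by
      intro κ hκ
      obtain ⟨p, hp, hp0⟩ := (Finset.mem_filter.1 hκ).2
      rw [Finset.mem_insert, Finset.mem_filter]
      rcases exists_inf12 hp0 with ⟨t, rfl⟩ | rfl
      · exact Or.inl (hp.unique (h2 t))
      · exact Or.inr ⟨Finset.mem_univ _, hp⟩
    have h3 : (Finset.univ.filter fun κ : ConnectedComponents (realPart F) =>
        InC κ inf2).card ≤ 1 := by
      rw [Finset.card_le_one]
      intro a ha b hb
      exact (Finset.mem_filter.1 ha).2.unique (Finset.mem_filter.1 hb).2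
    have := (Finset.card_le_card hsub).trans (Finset.card_insert_le _ _)
    omega
  · have hcT : (Finset.univ.filter fun κ : ConnectedComponents (realPart F) =>
        ∃ t ∈ T, InC κ (inf1 t)).card ≤ T.card := by
      have hch : ∀ κ : (Finset.univ.filter fun κ : ConnectedComponents (realPart F) =>
        ∃ t ∈ T, InC κ (inf1 t)), ∃ t ∈ T, InC κ.1 (inf1 t) := fun κ =>
          (Finset.mem_filter.1 κ.2).2
      choose f hf hfC using hch
      rw [← Fintype.card_coe, ← Fintype.card_coe T]
      refine Fintype.card_le_of_injective (fun κ => (⟨f κ, hf κ⟩ : T)) ?_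
      intro a b hab
      have h1 : f a = f b := congrArg Subtype.val hab
      apply Subtype.ext
      have h2 := hfC b
      rw [← h1] at h2
      exact (hfC a).unique h2
    by_cases h2 : inf2 ∈ realPart F
    · set κ₀ : ConnectedComponents (realPart F) :=
        ((⟨inf2, h2⟩ : realPart F) : ConnectedComponents (realPart F)) with hκ₀
      have h1 : InC κ₀ inf2 := ⟨h2, rfl⟩
      have hsub : (Finset.univ.filter fun κ : ConnectedComponents (realPart F) => Unb κ) ⊆
          insert κ₀ (Finset.univ.filter fun κ : ConnectedComponents (realPart F) =>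
            ∃ t ∈ T, InC κ (inf1 t)) := by
        intro κ hκ
        obtain ⟨p, hp, hp0⟩ := (Finset.mem_filter.1 hκ).2
        rw [Finset.mem_insert, Finset.mem_filter]
        rcases exists_inf12 hp0 with ⟨t, rfl⟩ | rfl
        · exact Or.inr ⟨Finset.mem_univ _, t, hT h0 t ((inf1_mem hF t).1 hp.1), hp⟩
        · exact Or.inl (hp.unique h1)
      have := (Finset.card_le_card hsub).trans (Finset.card_insert_le _ _)
      have := he h0 h2
      omega
    · have hsub : (Finset.univ.filter fun κ : ConnectedComponents (realPart F) => Unb κ) ⊆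
          (Finset.univ.filter fun κ : ConnectedComponents (realPart F) =>
            ∃ t ∈ T, InC κ (inf1 t)) := by
        intro κ hκ
        obtain ⟨p, hp, hp0⟩ := (Finset.mem_filter.1 hκ).2
        rw [Finset.mem_filter]
        rcases exists_inf12 hp0 with ⟨t, rfl⟩ | rfl
        · exact ⟨Finset.mem_univ _, t, hT h0 t ((inf1_mem hF t).1 hp.1), hp⟩
        · exact absurd hp.1 h2
      have := Finset.card_le_card hsub
      have := he' h0
      omega

end

end Pool.Agent.H83.MS
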