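import Pool.Agent.H83.MS.Sep

/-!
# Curves whose affine equation is the real part of a complex polynomial
-/

open MvPolynomial Pool.Agent.H83.MC

namespace Pool.Agent.H83.MS

noncomputable section

/-- The affine equation of the curve is `Re p (x + i y) = 0`. -/
structure Har (F : MvPolynomial (Fin 3) ℝ) (d : ℕ) (p : Polynomial ℂ) : Prop where
  hF : F.IsHomogeneous d
  hns : ∀ v : Fin 3 → ℝ, v ≠ 0 → eval v F = 0 → ∃ i, eval v (pderiv i F) ≠ 0
  heq : ∀ x y : ℝ, eval ![x, y, 1] F = (p.eval (x + y * Complex.I)).re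

variable {F : MvPolynomial (Fin 3) ℝ} {d : ℕ} {p : Polynomial ℂ}

theorem Har.mem (S : Har F d p) (z : ℂ) :
    aff z.re z.im ∈ realPart F ↔ (p.eval z).re = 0 := by
  rw [aff_mem S.hF, S.heq, Complex.re_add_im]

theorem Har.ns (S : Har F d p) {z : ℂ} (h : (p.eval z).re = 0) :
    (Polynomial.derivative p).eval z ≠ 0 := by
  intro h0
  have hz : eval ![z.re, z.im, 1] F = 0 := by rw [S.heq, Complex.re_add_im, h]
  have e0 : eval ![z.re, z.im, 1] (pderiv 0 F) = 0 := by
    have h1 := hasDerivAt_x F z.re z.im
    have : (fun s : ℝ => eval ![s, z.im, 1] F) =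
        fun s : ℝ => (p.eval ((s : ℂ) + z.im * Complex.I)).re := by
      funext s
      exact S.heq s z.im
    rw [this] at h1
    have h2 : HasDerivAt (fun s : ℂ => p.eval (s + z.im * Complex.I))
        ((Polynomial.derivative p).eval ((z.re : ℂ) + z.im * Complex.I) * 1) (z.re : ℂ) :=
      (p.hasDerivAt _).comp (z.re : ℂ) ((hasDerivAt_id (z.re : ℂ)).add_const _)
    rw [Complex.re_add_im, h0, zero_mul] at h2
    have h3 := h1.unique h2.real_of_complex
    rw [h3, Complex.zero_re]
  have e1 : eval ![z.re, z.im, 1] (pderiv 1 F) = 0 := by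
    have h1 := hasDerivAt_y F z.re z.im
    have : (fun s : ℝ => eval ![z.re, s, 1] F) =
        fun s : ℝ => (p.eval ((z.re : ℂ) + s * Complex.I)).re := by
      funext s
      exact S.heq z.re s
    rw [this] at h1
    have h2 : HasDerivAt (fun s : ℂ => p.eval ((z.re : ℂ) + s * Complex.I))
        ((Polynomial.derivative p).eval ((z.re : ℂ) + z.im * Complex.I) * (1 * Complex.I))
        (z.im : ℂ) :=
      (p.hasDerivAt _).comp (z.im : ℂ)
        (((hasDerivAt_id (z.im : ℂ)).mul_const Complex.I).const_add _)
    rw [Complex.re_add_im, h0, zero_mul] at h2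
    have h3 := h1.unique h2.real_of_complex
    rw [h3, Complex.zero_re]
  exact ns_aff S.hF S.hns hz e0 e1

/-- No component is contained in the affine chart. -/
theorem Har.unb (S : Har F d p) (κ : ConnectedComponents (realPart F)) : Unb κ := by
  by_contra hκ
  have hK := isCompact_SK S.hF hκ
  have hne := SK_nonempty hκ
  have hcont : Continuous fun v : ℝ × ℝ => (p.eval ((v.1 : ℂ) + v.2 * Complex.I)).im := by
    refine Complex.continuous_im.comp (p.continuous.comp ?_)
    fun_prop
  obtain ⟨w, hw, hmax⟩ := hK.exists_isMaxOn hne hcont.continuousOn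
  set z : ℂ := (w.1 : ℂ) + w.2 * Complex.I with hz
  have hre : z.re = w.1 := by simp [hz]
  have him : z.im = w.2 := by simp [hz]
  have hC : InC κ (aff z.re z.im) := by rw [hre, him]; exact hw
  have h0 : (p.eval z).re = 0 := (S.mem z).1 hC.1
  have hd := S.ns h0
  have hs : HasStrictDerivAt (fun s : ℂ => p.eval s) ((Polynomial.derivative p).eval z) z :=
    p.hasStrictDerivAt z
  set φ := (hs.hasStrictFDerivAt_equiv hd).toOpenPartialHomeomorph (fun s : ℂ => p.eval s) with hφ
  have hφe : ∀ s, φ s = p.eval s := fun s => rfl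
  have hsrc : z ∈ φ.source := HasStrictFDerivAt.mem_toOpenPartialHomeomorph_source _
  have htgt : p.eval z ∈ φ.target := φ.map_source hsrc
  have hopen : IsOpen φ.target := φ.open_target
  have hpath : Continuous fun t : ℝ => p.eval z + (t : ℂ) * Complex.I := by fun_prop
  have hpre : (fun t : ℝ => p.eval z + (t : ℂ) * Complex.I) ⁻¹' φ.target ∈ nhds (0 : ℝ) := by
    refine (hopen.preimage hpath).mem_nhds ?_
    simpa using htgt
  obtain ⟨δ, hδ, hball⟩ := Metric.mem_nhds_iff.1 hpre
  rw [Real.ball_eq_Ioo] at hball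
  set c : ℝ → ℂ := fun t => φ.symm (p.eval z + (t : ℂ) * Complex.I) with hc
  have hcc : ContinuousOn c (Set.Ioo (0 - δ) (0 + δ)) :=
    φ.continuousOn_symm.comp hpath.continuousOn fun t ht => hball ht
  have hpc : ∀ t ∈ Set.Ioo (0 - δ) (0 + δ), p.eval (c t) = p.eval z + (t : ℂ) * Complex.I :=
    fun t ht => φ.right_inv (hball ht)
  have hc0 : c 0 = z := by
    simp only [hc, Complex.ofReal_zero, zero_mul, add_zero]
    exact φ.left_inv hsrc
  have hmem : ∀ t ∈ Set.Ioo (0 - δ) (0 + δ), aff (c t).re (c t).im ∈ realPart F := by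
    intro t ht
    rw [S.mem, hpc t ht]
    simp [h0]
  have hac : ContinuousOn (fun t => aff (c t).re (c t).im) (Set.Ioo (0 - δ) (0 + δ)) :=
    continuous_aff.comp_continuousOn
      ((Complex.continuous_re.comp_continuousOn hcc).prodMk
        (Complex.continuous_im.comp_continuousOn hcc))
  have h1 : InC κ (aff (c (δ / 2)).re (c (δ / 2)).im) := by
    refine InC.path isPreconnected_Ioo hac hmem (x := 0) ⟨by linarith, by linarith⟩
      ⟨by linarith, by linarith⟩ ?_
    rw [hc0]
    exact hC
  have h2 := hmax (a := ((c (δ / 2)).re, (c (δ / 2)).im)) h1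
  simp only [Set.mem_setOf_eq, Complex.re_add_im] at h2
  rw [hpc (δ / 2) ⟨by linarith, by linarith⟩] at h2
  simp only [Complex.add_im, Complex.mul_im, Complex.ofReal_re, Complex.ofReal_im, Complex.I_im,
    Complex.I_re, mul_one, mul_zero, add_zero] at h2
  rw [← hz] at h2
  linarith

/-- The bound for the real part of a complex polynomial. -/
theorem Har.main (S : Har F d p) (hd : 1 ≤ d)
    [Fintype (ConnectedComponents (realPart F))] :
    Fintype.card (ConnectedComponents (realPart F)) ≤ d + 1 := by
  classical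
  have h1 := MS.card_unb S.hF (PI F).roots.toFinset (d + 1)
    (by
      intro h1 t ht
      rw [Multiset.mem_toFinset, Polynomial.mem_roots h1]
      exact ht)
    (by
      intro h1 _
      have := (Multiset.toFinset_card_le _).trans (Polynomial.card_roots' (PI F))
      have := natDegree_PI S.hF
      omega)
    (by
      intro h1
      have := (Multiset.toFinset_card_le _).trans (Polynomial.card_roots' (PI F))
      have := natDegree_PI S.hF
      omega) (by omega)
  have h2 : (Finset.univ.filter fun κ : ConnectedComponents (realPart F) => Unb κ) =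
      Finset.univ := Finset.filter_true_of_mem fun κ _ => S.unb κ
  rw [h2, Finset.card_univ] at h1
  exact h1

end

end Pool.Agent.H83.MS
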