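import Pool.Agent.H83.MS.SepCount
import Pool.Agent.H83.MS.Har

/-!
# Forms annihilated by a degenerate operator of order two
-/

open MvPolynomial Pool.Agent.H83.MC

namespace Pool.Agent.H83.MS

noncomputable section

section Alg

variable {K : Type*} [Field K]

/-- The substitution `F ↦ F ∘ b`. -/
def sub (b : Matrix (Fin 3) (Fin 3) K) : MvPolynomial (Fin 3) K →ₐ[K] MvPolynomial (Fin 3) K :=
  aeval fun i => ∑ j, C (b i j) * X j

/-- The operator of order two with the matrix `M`. -/
def DD (M : Matrix (Fin 3) (Fin 3) K) (P : MvPolynomial (Fin 3) K) : MvPolynomial (Fin 3) K :=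
  ∑ i, ∑ j, C (M i j) * pderiv i (pderiv j P)

theorem pderiv_sub (b : Matrix (Fin 3) (Fin 3) K) (P : MvPolynomial (Fin 3) K) (k : Fin 3) :
    pderiv k (sub b P) = ∑ i, C (b i k) * sub b (pderiv i P) := by
  induction P using MvPolynomial.induction_on with
  | C a => simp [sub]
  | add p q hp hq => simp only [map_add, hp, hq, mul_add, Finset.sum_add_distrib]
  | mul_X p j h =>
    have e1 : pderiv k (sub b (X j)) = C (b j k) := by
      simp only [sub, aeval_X, map_sum]
      rw [Finset.sum_eq_single k]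
      · rw [pderiv_C_mul, pderiv_X_self, mul_one]
      · intro l _ hl
        rw [pderiv_C_mul, pderiv_X_of_ne hl, mul_zero]
      · intro hk
        exact absurd (Finset.mem_univ k) hk
    rw [map_mul, pderiv_mul, h, e1]
    have e2 : ∀ i : Fin 3, C (b i k) * sub b (pderiv i (p * X j)) =
        C (b i k) * sub b (pderiv i p) * sub b (X j) +
          C (b i k) * (sub b p * sub b (pderiv i (X j))) := by
      intro i
      rw [pderiv_mul, map_add, map_mul, map_mul]
      ring
    rw [Finset.sum_congr rfl fun i _ => e2 i, Finset.sum_add_distrib, ← Finset.sum_mul]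
    congr 1
    rw [Finset.sum_eq_single j]
    · rw [pderiv_X_self, map_one, mul_one, mul_comm]
    · intro i _ hi
      rw [pderiv_X_of_ne hi.symm, map_zero, mul_zero, mul_zero]
    · intro hk
      exact absurd (Finset.mem_univ j) hk

theorem sum_rev {R : Type*} [AddCommMonoid R] (f : Fin 3 → Fin 3 → Fin 3 → Fin 3 → R) :
    ∑ k, ∑ l, ∑ j, ∑ i, f k l j i = ∑ i, ∑ j, ∑ l, ∑ k, f k l j i := by
  have h1 : ∀ k, ∑ l, ∑ j, ∑ i, f k l j i = ∑ i, ∑ j, ∑ l, f k l j i := by
    intro k
    have h2 : ∀ l, ∑ j, ∑ i, f k l j i = ∑ i, ∑ j, f k l j i := fun l => Finset.sum_comm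
    rw [Finset.sum_congr rfl fun l _ => h2 l, Finset.sum_comm]
    exact Finset.sum_congr rfl fun i _ => Finset.sum_comm
  rw [Finset.sum_congr rfl fun k _ => h1 k, Finset.sum_comm]
  refine Finset.sum_congr rfl fun i _ => ?_
  rw [Finset.sum_comm]
  refine Finset.sum_congr rfl fun j _ => ?_
  rw [Finset.sum_comm]

theorem DD_sub (M b : Matrix (Fin 3) (Fin 3) K) (P : MvPolynomial (Fin 3) K) :
    DD M (sub b P) = sub b (DD (b * M * b.transpose) P) := by
  have h1 : DD M (sub b P) = ∑ k, ∑ l, ∑ j, ∑ i,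
      C (M k l * b j l * b i k) * sub b (pderiv i (pderiv j P)) := by
    rw [DD]
    refine Finset.sum_congr rfl fun k _ => Finset.sum_congr rfl fun l _ => ?_
    rw [pderiv_sub, map_sum, Finset.mul_sum]
    refine Finset.sum_congr rfl fun j _ => ?_
    rw [pderiv_C_mul, pderiv_sub, Finset.mul_sum, Finset.mul_sum]
    refine Finset.sum_congr rfl fun i _ => ?_
    rw [map_mul, map_mul]
    ring
  have h2 : sub b (DD (b * M * b.transpose) P) = ∑ i, ∑ j, ∑ l, ∑ k,
      C (M k l * b j l * b i k) * sub b (pderiv i (pderiv j P)) := by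
    rw [DD, map_sum]
    refine Finset.sum_congr rfl fun i _ => ?_
    rw [map_sum]
    refine Finset.sum_congr rfl fun j _ => ?_
    rw [map_mul, sub, aeval_C]
    change C _ * _ = _
    rw [Matrix.mul_apply, map_sum, Finset.sum_mul]
    refine Finset.sum_congr rfl fun l _ => ?_
    rw [Matrix.mul_apply, Finset.sum_mul, map_sum, Finset.sum_mul]
    refine Finset.sum_congr rfl fun k _ => ?_
    congr 2
    rw [Matrix.transpose_apply]
    ring
  rw [h1, h2]
  exact sum_rev _

theorem eval_sub (b : Matrix (Fin 3) (Fin 3) K) (P : MvPolynomial (Fin 3) K) (v : Fin 3 → K) :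
    eval v (sub b P) = eval (b.mulVec v) P := by
  have h : (eval v).comp (sub b).toRingHom = eval (b.mulVec v) := by
    apply MvPolynomial.ringHom_ext
    · intro r
      simp [sub]
    · intro i
      simp [sub, Matrix.mulVec, dotProduct]
  exact congrArg (fun φ => φ P) h

/-- Two variables are separated in a solution of `∂₀ ∂₁ G = 0`. -/
theorem split_of_pde [CharZero K] {G : MvPolynomial (Fin 3) K} (h : pderiv 0 (pderiv 1 G) = 0) :
    ∃ f g : Polynomial K, ∀ x y, eval ![x, y, 1] G = f.eval x + g.eval y := by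
  classical
  have key : ∀ m ∈ G.support, m 0 = 0 ∨ m 1 = 0 := by
    intro m hm
    by_contra hcon
    push Not at hcon
    obtain ⟨h0, h1⟩ := hcon
    set n : Fin 3 →₀ ℕ := m - Finsupp.single 0 1 - Finsupp.single 1 1 with hn
    have hm' : n + Finsupp.single 0 1 + Finsupp.single 1 1 = m := by
      ext i
      simp only [hn, Finsupp.coe_add, Finsupp.coe_tsub, Pi.add_apply, Pi.sub_apply,
        Finsupp.single_apply]
      fin_cases i
      · simp
        omega
      · simp
        omega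
      · simp
    have h2 := congrArg (coeff n) h
    rw [coeff_pderiv, coeff_pderiv, hm', coeff_zero] at h2
    have h3 : (((n + Finsupp.single 0 1 : Fin 3 →₀ ℕ) 1 : K) + 1) ≠ 0 :=
      Nat.cast_add_one_ne_zero _
    have h4 : ((n 0 : K) + 1) ≠ 0 := Nat.cast_add_one_ne_zero _
    have h5 : coeff m G = 0 := by
      rcases mul_eq_zero.1 h2 with h6 | h6
      · rcases mul_eq_zero.1 h6 with h7 | h7
        · exact h7
        · exact absurd h7 h3
      · exact absurd h6 h4
    exact (mem_support_iff.1 hm) h5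
  refine ⟨∑ m ∈ G.support.filter (fun m => m 1 = 0), Polynomial.C (coeff m G) *
    Polynomial.X ^ m 0, ∑ m ∈ G.support.filter (fun m => ¬ m 1 = 0), Polynomial.C (coeff m G) *
    Polynomial.X ^ m 1, fun x y => ?_⟩
  rw [eval_eq', ← Finset.sum_filter_add_sum_filter_not G.support fun m => m 1 = 0,
    Polynomial.eval_finsetSum, Polynomial.eval_finsetSum]
  congr 1
  · refine Finset.sum_congr rfl fun m hm => ?_
    have h1 := (Finset.mem_filter.1 hm).2
    rw [Fin.prod_univ_three]
    simp [h1]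
  · refine Finset.sum_congr rfl fun m hm => ?_
    obtain ⟨h1, h2⟩ := Finset.mem_filter.1 hm
    have h3 : m 0 = 0 := (key m h1).resolve_right h2
    rw [Fin.prod_univ_three]
    simp [h3]

theorem pderiv_comm (P : MvPolynomial (Fin 3) K) (i j : Fin 3) :
    pderiv i (pderiv j P) = pderiv j (pderiv i P) := by
  ext m
  rw [coeff_pderiv, coeff_pderiv, coeff_pderiv, coeff_pderiv]
  by_cases h : i = j
  · subst h
    rfl
  · rw [add_right_comm]
    have h1 : (m + Finsupp.single i 1 : Fin 3 →₀ ℕ) j = m j := by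
      simp [h]
    have h2 : (m + Finsupp.single j 1 : Fin 3 →₀ ℕ) i = m i := by
      simp [Ne.symm h]
    rw [h1, h2]
    ring

/-- Euler's identity at the point `e_i`. -/
theorem euler_at {P : MvPolynomial (Fin 3) K} {n : ℕ} (hP : P.IsHomogeneous n) (i : Fin 3) :
    eval (Pi.single i 1) (pderiv i P) = n * eval (Pi.single i 1) P := by
  have h := congrArg (eval (Pi.single i (1 : K))) hP.sum_X_mul_pderiv
  simp only [map_sum, map_mul, eval_X, nsmul_eq_mul, map_natCast] at h
  rw [← h, Finset.sum_eq_single i]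
  · simp
  · intro j _ hj
    simp [hj]
  · intro hk
    exact absurd (Finset.mem_univ i) hk

/-- A solution of `∂_i ∂_i P = 0` is singular at `e_i`. -/
theorem sing_of_pde [CharZero K] {P : MvPolynomial (Fin 3) K} {d : ℕ} (hP : P.IsHomogeneous d)
    (hd : 3 ≤ d) {i : Fin 3} (h : pderiv i (pderiv i P) = 0) :
    eval (Pi.single i 1) P = 0 ∧ ∀ j, eval (Pi.single i 1) (pderiv j P) = 0 := by
  have key : ∀ j, eval (Pi.single i 1) (pderiv j P) = 0 := by
    intro j
    have h1 := euler_at (hP.pderiv (i := j)) i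
    have h2 := euler_at ((hP.pderiv (i := j)).pderiv (i := i)) i
    rw [pderiv_comm P i j, pderiv_comm (pderiv i P) i j, h, map_zero, map_zero] at h2
    have h3 : ((d - 1 - 1 : ℕ) : K) ≠ 0 := by
      have : d - 1 - 1 ≠ 0 := by omega
      exact_mod_cast this
    have h4 : ((d - 1 : ℕ) : K) ≠ 0 := by
      have : d - 1 ≠ 0 := by omega
      exact_mod_cast this
    have h5 := (mul_eq_zero.1 h2.symm).resolve_left h3
    rw [pderiv_comm P i j, h5] at h1
    exact (mul_eq_zero.1 h1.symm).resolve_left h4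
  refine ⟨?_, key⟩
  have h1 := euler_at hP i
  rw [key i] at h1
  have h4 : (d : K) ≠ 0 := by
    have : d ≠ 0 := by omega
    exact_mod_cast this
  exact (mul_eq_zero.1 h1.symm).resolve_left h4

end Alg

/-- Diagonalisation of a degenerate symmetric matrix. -/
theorem exists_diag {A : Matrix (Fin 3) (Fin 3) ℝ} (hs : A.IsSymm) (hdet : A.det = 0) :
    ∃ (U : Matrix (Fin 3) (Fin 3) ℝ) (a b : ℝ), U.det ≠ 0 ∧
      A = U * Matrix.diagonal ![a, b, 0] * U.transpose := by
  have hA : A.IsHermitian := by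
    rw [Matrix.IsHermitian, Matrix.conjTranspose_eq_transpose_of_trivial]
    exact hs
  set V : Matrix (Fin 3) (Fin 3) ℝ := hA.eigenvectorUnitary.1 with hV
  set l := hA.eigenvalues with hl
  have hVs : V * star V = 1 := (Matrix.mem_unitaryGroup_iff).1 hA.eigenvectorUnitary.2
  have hVt : star V = V.transpose := by
    rw [Matrix.star_eq_conjTranspose, Matrix.conjTranspose_eq_transpose_of_trivial]
  have hdV : V.det ≠ 0 := by
    intro h0
    have := congrArg Matrix.det hVs
    rw [Matrix.det_mul, h0, zero_mul, Matrix.det_one] at this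
    exact zero_ne_one this
  have hsp : A = V * Matrix.diagonal l * V.transpose := by
    have h := hA.spectral_theorem
    rw [Unitary.conjStarAlgAut_apply] at h
    rw [← hVt]
    exact h
  have hex : ∃ k, l k = 0 := by
    have h := congrArg Matrix.det hsp
    rw [hdet, Matrix.det_mul, Matrix.det_mul, Matrix.det_transpose, Matrix.det_diagonal] at h
    have h1 : ∏ i, l i = 0 := by
      by_contra hne
      exact (mul_ne_zero (mul_ne_zero hdV hne) hdV) h.symm
    obtain ⟨k, _, hk⟩ := Finset.prod_eq_zero_iff.1 h1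
    exact ⟨k, hk⟩
  obtain ⟨k, hk⟩ := hex
  set σ : Equiv.Perm (Fin 3) := Equiv.swap k 2 with hσ
  refine ⟨V.submatrix id σ, l (σ 0), l (σ 1), ?_, ?_⟩
  · rw [Matrix.det_permute']
    exact mul_ne_zero (by
      rcases Int.units_eq_one_or (Equiv.Perm.sign σ) with h | h <;> rw [h] <;> simp) hdV
  · have hd : Matrix.diagonal ![l (σ 0), l (σ 1), 0] = Matrix.diagonal fun i => l (σ i) := by
      congr 1
      funext i
      fin_cases i
      · rfl
      · rfl
      · simp [hσ, hk]
    rw [hd]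
    ext i j
    rw [hsp, Matrix.mul_apply, Matrix.mul_apply]
    simp only [Matrix.mul_diagonal, Matrix.transpose_apply, Matrix.submatrix_apply, id_eq]
    exact (Equiv.sum_comp σ fun k => V i k * l k * V j k).symm

/-- The linear equivalence of an invertible matrix. -/
def leq (S : Matrix (Fin 3) (Fin 3) ℝ) (hS : S.det ≠ 0) : (Fin 3 → ℝ) ≃ₗ[ℝ] (Fin 3 → ℝ) :=
  S.toLinearEquiv' (Matrix.invertibleOfIsUnitDet S (isUnit_iff_ne_zero.2 hS))

theorem leq_apply (S : Matrix (Fin 3) (Fin 3) ℝ) (hS : S.det ≠ 0) (v : Fin 3 → ℝ) :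
    leq S hS v = S.mulVec v := rfl

theorem pull_leq (S : Matrix (Fin 3) (Fin 3) ℝ) (hS : S.det ≠ 0) (F : MvPolynomial (Fin 3) ℝ) :
    pull F (leq S hS) = sub S F := by
  have h : (fun i : Fin 3 => ∑ j, C (leq S hS (Pi.single j 1) i) * X j) =
      fun i : Fin 3 => ∑ j, (C (S i j) * X j : MvPolynomial (Fin 3) ℝ) := by
    funext i
    refine Finset.sum_congr rfl fun j _ => ?_
    rw [leq_apply, Matrix.mulVec_single_one, Matrix.col_apply]
  rw [pull, h, sub]

theorem sub_map {F : MvPolynomial (Fin 3) ℝ} (x y : ℝ) :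
    eval ![(x : ℂ), (y : ℂ), 1] (map Complex.ofRealHom F) = ((eval ![x, y, 1] F : ℝ) : ℂ) := by
  have h : (eval ![(x : ℂ), (y : ℂ), 1]).comp (map Complex.ofRealHom) =
      Complex.ofRealHom.comp (eval ![x, y, 1]) := by
    apply MvPolynomial.ringHom_ext
    · intro r
      simp
    · intro i
      fin_cases i <;> simp
  exact congrArg (fun φ => φ F) h

/-- A real solution of `∂₀² F + ∂₁² F = 0` is the real part of a polynomial. -/
theorem har_of_pde {F : MvPolynomial (Fin 3) ℝ}
    (h : pderiv 0 (pderiv 0 F) + pderiv 1 (pderiv 1 F) = 0) :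
    ∃ p : Polynomial ℂ, ∀ x y : ℝ, eval ![x, y, 1] F = (p.eval (x + y * Complex.I)).re := by
  set G := map Complex.ofRealHom F with hG
  set c : Matrix (Fin 3) (Fin 3) ℂ := !![1, 1, 0; -Complex.I, Complex.I, 0; 0, 0, 1] with hc
  set M : Matrix (Fin 3) (Fin 3) ℂ := !![0, 1/2, 0; 1/2, 0, 0; 0, 0, 0] with hM
  have hcM : c * M * c.transpose = !![1, 0, 0; 0, 1, 0; 0, 0, 0] := by
    ext i j
    fin_cases i <;> fin_cases j <;>
      simp [hc, hM, Matrix.mul_apply, Fin.sum_univ_three, Matrix.transpose_apply] <;>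
      ring_nf <;> simp
  have h1 : DD M (sub c G) = 0 := by
    rw [DD_sub, hcM]
    have h2 : DD !![1, 0, 0; 0, 1, 0; 0, 0, 0] G =
        map Complex.ofRealHom (pderiv 0 (pderiv 0 F) + pderiv 1 (pderiv 1 F)) := by
      simp [DD, Fin.sum_univ_three, hG, pderiv_map]
    rw [h2, h, map_zero, map_zero]
  have h2 : pderiv 0 (pderiv 1 (sub c G)) = 0 := by
    have h3 : DD M (sub c G) = pderiv 0 (pderiv 1 (sub c G)) := by
      have h4 : (C (1 / 2) + C (1 / 2) : MvPolynomial (Fin 3) ℂ) = 1 := by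
        rw [← C_add]
        norm_num
      have h5 : DD M (sub c G) = (C (1 / 2) + C (1 / 2)) * pderiv 0 (pderiv 1 (sub c G)) := by
        simp only [DD, Fin.sum_univ_three, hM, pderiv_comm (sub c G) 1 0]
        simp only [Matrix.of_apply, Matrix.cons_val, map_zero, zero_mul, add_zero, zero_add]
        ring
      rw [h5, h4, one_mul]
    rw [← h3, h1]
  obtain ⟨f, g, hfg⟩ := split_of_pde h2
  refine ⟨(f + g.map (starRingEnd ℂ)).comp (Polynomial.C (1 / 2) * Polynomial.X),
    fun x y => ?_⟩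
  have h3 : ((eval ![x, y, 1] F : ℝ) : ℂ) =
      f.eval (1 / 2 * (x + y * Complex.I)) + g.eval (1 / 2 * (x - y * Complex.I)) := by
    rw [← hfg, eval_sub, ← sub_map]
    congr 2
    ext i
    fin_cases i
    · simp [hc, Matrix.mulVec, dotProduct, Fin.sum_univ_three]
      ring
    · simp [hc, Matrix.mulVec, dotProduct, Fin.sum_univ_three]
      ring_nf
      rw [Complex.I_sq]
      ring
    · simp [hc, Matrix.mulVec, dotProduct, Fin.sum_univ_three]
  have h4 : (g.map (starRingEnd ℂ)).eval (1 / 2 * (x + y * Complex.I)) =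
      (starRingEnd ℂ) (g.eval (1 / 2 * (x - y * Complex.I))) := by
    have h5 : (1 / 2 * (x + y * Complex.I) : ℂ) =
        (starRingEnd ℂ) (1 / 2 * (x - y * Complex.I)) := by
      apply Complex.ext <;> simp
    rw [h5, Polynomial.eval_map, Polynomial.eval₂_hom]
  have h6 := congrArg Complex.re h3
  rw [Complex.ofReal_re] at h6
  rw [h6, Polynomial.eval_comp, Polynomial.eval_mul, Polynomial.eval_C, Polynomial.eval_X,
    Polynomial.eval_add, h4, Complex.add_re, Complex.add_re, Complex.conj_re]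

/-- A real solution of `∂₀² F = ∂₁² F` has separated variables after a rotation. -/
theorem sep_of_pde {F : MvPolynomial (Fin 3) ℝ}
    (h : pderiv 0 (pderiv 0 F) - pderiv 1 (pderiv 1 F) = 0) :
    ∃ (S : Matrix (Fin 3) (Fin 3) ℝ) (f g : Polynomial ℝ), S.det ≠ 0 ∧
      ∀ x y : ℝ, eval ![x, y, 1] (sub S F) = f.eval x + g.eval y := by
  set c : Matrix (Fin 3) (Fin 3) ℝ := !![1, 1, 0; 1, -1, 0; 0, 0, 1] with hc
  set M : Matrix (Fin 3) (Fin 3) ℝ := !![0, 1/2, 0; 1/2, 0, 0; 0, 0, 0] with hM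
  have hcM : c * M * c.transpose = !![1, 0, 0; 0, -1, 0; 0, 0, 0] := by
    ext i j
    fin_cases i <;> fin_cases j <;>
      simp [hc, hM, Matrix.mul_apply, Fin.sum_univ_three, Matrix.transpose_apply] <;> norm_num
  have h1 : DD M (sub c F) = 0 := by
    rw [DD_sub, hcM]
    have h2 : DD !![1, 0, 0; 0, -1, 0; 0, 0, 0] F =
        pderiv 0 (pderiv 0 F) - pderiv 1 (pderiv 1 F) := by
      simp [DD, Fin.sum_univ_three]
      ring
    rw [h2, h, map_zero]
  have h2 : pderiv 0 (pderiv 1 (sub c F)) = 0 := by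
    have h3 : DD M (sub c F) = pderiv 0 (pderiv 1 (sub c F)) := by
      have h4 : (C (1 / 2) + C (1 / 2) : MvPolynomial (Fin 3) ℝ) = 1 := by
        rw [← C_add]
        norm_num
      have h5 : DD M (sub c F) = (C (1 / 2) + C (1 / 2)) * pderiv 0 (pderiv 1 (sub c F)) := by
        simp only [DD, Fin.sum_univ_three, hM, pderiv_comm (sub c F) 1 0]
        simp only [Matrix.of_apply, Matrix.cons_val, map_zero, zero_mul, add_zero, zero_add]
        ring
      rw [h5, h4, one_mul]
    rw [← h3, h1]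
  obtain ⟨f, g, hfg⟩ := split_of_pde h2
  refine ⟨c, f, g, ?_, hfg⟩
  rw [hc, Matrix.det_fin_three]
  simp
  norm_num

theorem card_sub {F : MvPolynomial (Fin 3) ℝ} (S : Matrix (Fin 3) (Fin 3) ℝ) (hS : S.det ≠ 0) :
    Nat.card (ConnectedComponents (realPart (sub S F))) =
      Nat.card (ConnectedComponents (realPart F)) := by
  rw [← pull_leq S hS]
  exact card_components (homeoOf (leq S hS) fun v => by rw [eval_pull])

theorem sub_hom {F : MvPolynomial (Fin 3) ℝ} {d : ℕ} (hF : F.IsHomogeneous d)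
    (S : Matrix (Fin 3) (Fin 3) ℝ) (hS : S.det ≠ 0) : (sub S F).IsHomogeneous d := by
  rw [← pull_leq S hS]
  exact pull_homog hF _

theorem sub_ns {F : MvPolynomial (Fin 3) ℝ}
    (hns : ∀ v : Fin 3 → ℝ, v ≠ 0 → eval v F = 0 → ∃ i, eval v (pderiv i F) ≠ 0)
    (S : Matrix (Fin 3) (Fin 3) ℝ) (hS : S.det ≠ 0) (v : Fin 3 → ℝ) (hv : v ≠ 0)
    (h : eval v (sub S F) = 0) : ∃ i, eval v (pderiv i (sub S F)) ≠ 0 := by
  rw [← pull_leq S hS] at h ⊢
  exact pull_ns hns _ v hv h

theorem sep_bound {F : MvPolynomial (Fin 3) ℝ} {d : ℕ} (hF : F.IsHomogeneous d)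
    (hns : ∀ v : Fin 3 → ℝ, v ≠ 0 → eval v F = 0 → ∃ i, eval v (pderiv i F) ≠ 0)
    (hd : Even d) (hd0 : d ≠ 0) {f g : Polynomial ℝ}
    (h : ∀ x y : ℝ, eval ![x, y, 1] F = f.eval x + g.eval y) :
    4 * Nat.card (ConnectedComponents (realPart F)) ≤ d ^ 2 + 8 := by
  rcases Nat.eq_zero_or_pos (Nat.card (ConnectedComponents (realPart F))) with h0 | h0
  · rw [h0]
    omega
  · have hfin : Finite (ConnectedComponents (realPart F)) := Nat.finite_of_card_ne_zero h0.ne'
    have : Fintype (ConnectedComponents (realPart F)) := Fintype.ofFinite _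
    rw [Nat.card_eq_fintype_card]
    exact Sep.main ⟨hF, hns, h⟩ hd hd0

theorem har_bound {F : MvPolynomial (Fin 3) ℝ} {d : ℕ} (hF : F.IsHomogeneous d)
    (hns : ∀ v : Fin 3 → ℝ, v ≠ 0 → eval v F = 0 → ∃ i, eval v (pderiv i F) ≠ 0)
    (hd : 1 ≤ d) {p : Polynomial ℂ}
    (h : ∀ x y : ℝ, eval ![x, y, 1] F = (p.eval (x + y * Complex.I)).re) :
    Nat.card (ConnectedComponents (realPart F)) ≤ d + 1 := by
  rcases Nat.eq_zero_or_pos (Nat.card (ConnectedComponents (realPart F))) with h0 | h0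
  · rw [h0]
    omega
  · have hfin : Finite (ConnectedComponents (realPart F)) := Nat.finite_of_card_ne_zero h0.ne'
    have : Fintype (ConnectedComponents (realPart F)) := Fintype.ofFinite _
    rw [Nat.card_eq_fintype_card]
    exact Har.main ⟨hF, hns, h⟩ hd

theorem DD_diag {K : Type*} [Field K] (a b : K) (P : MvPolynomial (Fin 3) K) :
    DD (Matrix.diagonal ![a, b, 0]) P =
      C a * pderiv 0 (pderiv 0 P) + C b * pderiv 1 (pderiv 1 P) := by
  simp [DD, Fin.sum_univ_three, Matrix.diagonal]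

/-- The main theorem. -/
theorem degenerate_bound {F : MvPolynomial (Fin 3) ℝ} {d : ℕ} (hF : F.IsHomogeneous d)
    (hns : ∀ v : Fin 3 → ℝ, v ≠ 0 → eval v F = 0 → ∃ i, eval v (pderiv i F) ≠ 0)
    (hd : Even d) (hd4 : 4 ≤ d) {A : Matrix (Fin 3) (Fin 3) ℝ} (hA : A ≠ 0) (hs : A.IsSymm)
    (hdet : A.det = 0) (h : DD A F = 0) :
    4 * Nat.card (ConnectedComponents (realPart F)) ≤ d ^ 2 + 8 := by
  obtain ⟨U, a, b, hU, hAU⟩ := exists_diag hs hdet
  have hdg : DD (Matrix.diagonal ![a, b, 0]) (sub U F) = 0 := by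
    rw [DD_sub, ← hAU, h, map_zero]
  rw [DD_diag] at hdg
  have hsing : ∀ i : Fin 3, pderiv i (pderiv i (sub U F)) ≠ 0 := by
    intro i hi
    obtain ⟨h1, h2⟩ := sing_of_pde (sub_hom hF U hU) (by omega) hi
    obtain ⟨j, hj⟩ := sub_ns hns U hU (Pi.single i 1) (by
      intro h0
      have := congrFun h0 i
      simp at this) h1
    exact hj (h2 j)
  have ha : a ≠ 0 := by
    rintro rfl
    by_cases hb : b = 0
    · subst hb
      apply hA
      have : Matrix.diagonal ![(0 : ℝ), 0, 0] = 0 := by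
        ext i j
        fin_cases i <;> fin_cases j <;> simp
      rw [hAU, this, Matrix.mul_zero, Matrix.zero_mul]
    · rw [C_0, zero_mul, zero_add] at hdg
      have hC : (C b : MvPolynomial (Fin 3) ℝ) ≠ 0 := by rwa [Ne, C_eq_zero]
      exact hsing 1 ((mul_eq_zero.1 hdg).resolve_left hC)
  have hb : b ≠ 0 := by
    rintro rfl
    rw [C_0, zero_mul, add_zero] at hdg
    have hC : (C a : MvPolynomial (Fin 3) ℝ) ≠ 0 := by rwa [Ne, C_eq_zero]
    exact hsing 0 ((mul_eq_zero.1 hdg).resolve_left hC)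
  set D : Matrix (Fin 3) (Fin 3) ℝ :=
    Matrix.diagonal ![Real.sqrt |a|, Real.sqrt |b|, 1] with hD
  have hDdet : (U * D).det ≠ 0 := by
    rw [Matrix.det_mul, hD, Matrix.det_diagonal, Fin.prod_univ_three]
    exact mul_ne_zero hU (by simpa using ⟨ha, hb⟩)
  have hkey : ∀ s t : ℝ, s * |a| = a → t * |b| = b →
      C s * pderiv 0 (pderiv 0 (sub (U * D) F)) + C t * pderiv 1 (pderiv 1 (sub (U * D) F)) =
        0 := by
    intro s t h1 h2
    rw [← DD_diag, DD_sub]
    have h3 : U * D * Matrix.diagonal ![s, t, 0] * (U * D).transpose = A := by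
      have h4 : D * Matrix.diagonal ![s, t, 0] * D = Matrix.diagonal ![a, b, 0] := by
        rw [hD, Matrix.diagonal_mul_diagonal, Matrix.diagonal_mul_diagonal]
        congr 1
        funext i
        fin_cases i
        · simp only [Fin.zero_eta, Matrix.cons_val_zero]
          rw [mul_comm (Real.sqrt |a|) s, mul_assoc, Real.mul_self_sqrt (abs_nonneg a), h1]
        · simp only [Fin.mk_one, Matrix.cons_val_one]
          simp only [Matrix.cons_val_zero]
          rw [mul_comm (Real.sqrt |b|) t, mul_assoc, Real.mul_self_sqrt (abs_nonneg b), h2]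
        · simp
      have h5 : D.transpose = D := by rw [hD, Matrix.diagonal_transpose]
      rw [Matrix.transpose_mul, h5, hAU, ← h4]
      simp only [Matrix.mul_assoc]
    rw [h3, h, map_zero]
  have hbound : 4 * (d + 1) ≤ d ^ 2 + 8 := by nlinarith [sq_nonneg ((d : ℤ) - 2)]
  have hhar : pderiv 0 (pderiv 0 (sub (U * D) F)) + pderiv 1 (pderiv 1 (sub (U * D) F)) = 0 →
      4 * Nat.card (ConnectedComponents (realPart F)) ≤ d ^ 2 + 8 := by
    intro h1
    obtain ⟨p, hp⟩ := har_of_pde h1
    have h2 := har_bound (sub_hom hF _ hDdet) (sub_ns hns _ hDdet) (by omega) hp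
    rw [card_sub _ hDdet] at h2
    omega
  have hsep : pderiv 0 (pderiv 0 (sub (U * D) F)) - pderiv 1 (pderiv 1 (sub (U * D) F)) = 0 →
      4 * Nat.card (ConnectedComponents (realPart F)) ≤ d ^ 2 + 8 := by
    intro h1
    obtain ⟨S, f, g, hS, hfg⟩ := sep_of_pde h1
    have h2 := sep_bound (sub_hom (sub_hom hF _ hDdet) S hS)
      (sub_ns (sub_ns hns _ hDdet) S hS) hd (by omega) hfg
    rwa [card_sub _ hS, card_sub _ hDdet] at h2
  rcases lt_or_gt_of_ne ha with ha' | ha' <;> rcases lt_or_gt_of_ne hb with hb' | hb'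
  · have h1 := hkey (-1) (-1) (by rw [abs_of_neg ha']; ring) (by rw [abs_of_neg hb']; ring)
    apply hhar
    rw [C_neg, C_1] at h1
    linear_combination -h1
  · have h1 := hkey (-1) 1 (by rw [abs_of_neg ha']; ring) (by rw [abs_of_pos hb']; ring)
    apply hsep
    rw [C_neg, C_1] at h1
    linear_combination -h1
  · have h1 := hkey 1 (-1) (by rw [abs_of_pos ha']; ring) (by rw [abs_of_neg hb']; ring)
    apply hsep
    rw [C_neg, C_1] at h1
    linear_combination h1
  · have h1 := hkey 1 1 (by rw [abs_of_pos ha']; ring) (by rw [abs_of_pos hb']; ring)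
    apply hhar
    rw [C_1] at h1
    linear_combination h1

end

end Pool.Agent.H83.MS
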