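import Pool.Agent.H83.MS.Inf
import Pool.Agent.H83.MS.Pde

/-!
# Curves with separated variables: the Chebyshev curves
-/

open MvPolynomial Pool.Agent.H83.MC Pool.Agent.H25.SO

namespace Pool.Agent.H83.MS

noncomputable section

/-- The form `z ^ d * p (x_i / z)`. -/
def hm (d : ℕ) (p : Polynomial ℝ) (i : Fin 3) : MvPolynomial (Fin 3) ℝ :=
  ∑ k ∈ Finset.range (d + 1), C (p.coeff k) * X i ^ k * X 2 ^ (d - k)

variable {d : ℕ} {p : Polynomial ℝ}

theorem hm_hom (d : ℕ) (p : Polynomial ℝ) (i : Fin 3) : (hm d p i).IsHomogeneous d := by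
  refine IsHomogeneous.sum _ _ _ fun k hk => ?_
  have hk' : k ≤ d := Nat.lt_succ_iff.1 (Finset.mem_range.1 hk)
  have h := ((isHomogeneous_C (Fin 3) (p.coeff k)).mul ((isHomogeneous_X ℝ i).pow k)).mul
    ((isHomogeneous_X ℝ (2 : Fin 3)).pow (d - k))
  have e : 0 + 1 * k + 1 * (d - k) = d := by omega
  rwa [e] at h

theorem eval_hm_one (hp : p.natDegree ≤ d) (i : Fin 3) {v : Fin 3 → ℝ} (h : v 2 = 1) :
    eval v (hm d p i) = p.eval (v i) := by
  rw [hm, map_sum, Polynomial.eval_eq_sum_range' (Nat.lt_succ_of_le hp)]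
  refine Finset.sum_congr rfl fun k _ => ?_
  simp [h]

theorem eval_hm_zero (d : ℕ) (p : Polynomial ℝ) (i : Fin 3) {v : Fin 3 → ℝ} (h : v 2 = 0) :
    eval v (hm d p i) = p.coeff d * v i ^ d := by
  rw [hm, map_sum, ← homog_zero p (v i)]
  refine Finset.sum_congr rfl fun k _ => ?_
  simp [h]

theorem pderiv_hm (d : ℕ) (p : Polynomial ℝ) {i j : Fin 3} (hij : i ≠ j) (hj : 2 ≠ j) :
    pderiv j (hm d p i) = 0 := by
  rw [hm, map_sum]
  refine Finset.sum_eq_zero fun k _ => ?_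
  rw [pderiv_mul, pderiv_mul, pderiv_C, pderiv_pow, pderiv_pow, pderiv_X_of_ne hij,
    pderiv_X_of_ne hj]
  simp

/-- The Chebyshev polynomial of degree `d`. -/
def Tc (d : ℕ) : Polynomial ℝ := Polynomial.Chebyshev.T ℝ (d : ℤ)

/-- The form with the affine equation `T_d (x) + T_d (y) + 1 = 0`. -/
def Ch (d : ℕ) : MvPolynomial (Fin 3) ℝ := hm d (Tc d) 0 + hm d (Tc d) 1 + X 2 ^ d

theorem natDegree_Tc (d : ℕ) : (Tc d).natDegree = d := by
  rw [Tc, Polynomial.Chebyshev.natDegree_T, Int.natAbs_natCast]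

theorem coeff_Tc (d : ℕ) : 0 < (Tc d).coeff d := by
  have h : (Tc d).coeff d = (Tc d).leadingCoeff := by
    rw [Polynomial.leadingCoeff, natDegree_Tc]
  rw [h, Tc, Polynomial.Chebyshev.leadingCoeff_T]
  positivity

theorem Ch_hom (d : ℕ) : (Ch d).IsHomogeneous d := by
  refine ((hm_hom d _ 0).add (hm_hom d _ 1)).add ?_
  have h := (isHomogeneous_X ℝ (2 : Fin 3)).pow d
  rwa [one_mul] at h

theorem eval_Ch (d : ℕ) (x y : ℝ) :
    eval ![x, y, 1] (Ch d) = (Tc d).eval x + (Tc d).eval y + 1 := by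
  rw [Ch, map_add, map_add, eval_hm_one (natDegree_Tc d).le 0 (v := ![x, y, 1]) rfl,
    eval_hm_one (natDegree_Tc d).le 1 (v := ![x, y, 1]) rfl]
  simp

theorem Ch_inf (hd : Even d) (hd0 : 0 < d) {v : Fin 3 → ℝ} (hv : v ≠ 0) (h2 : v 2 = 0) :
    0 < eval v (Ch d) := by
  have e : eval v (Ch d) = (Tc d).coeff d * (v 0 ^ d + v 1 ^ d) := by
    rw [Ch, map_add, map_add, eval_hm_zero _ _ _ h2, eval_hm_zero _ _ _ h2]
    simp only [map_pow, eval_X, h2]
    rw [zero_pow hd0.ne']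
    ring
  rw [e]
  refine mul_pos (coeff_Tc d) ?_
  by_cases h0 : v 0 = 0
  · have h1 : v 1 ≠ 0 := by
      intro h1
      apply hv
      ext i
      fin_cases i
      · exact h0
      · exact h1
      · exact h2
    have := hd.pow_nonneg (v 0)
    have := hd.pow_pos h1
    linarith
  · have := hd.pow_pos h0
    have := hd.pow_nonneg (v 1)
    linarith

theorem Tc_ge (hd : Even d) (y : ℝ) : -1 ≤ (Tc d).eval y := by
  rw [Tc]
  rcases le_total |y| 1 with h | h
  · exact (abs_le.1 (Polynomial.Chebyshev.abs_eval_T_real_le_one (d : ℤ) h)).1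
  · rcases le_total 0 y with h0 | h0
    · rw [abs_of_nonneg h0] at h
      linarith [Polynomial.Chebyshev.one_le_eval_T_real (d : ℤ) h]
    · rw [abs_of_nonpos h0] at h
      have h1 := Polynomial.Chebyshev.one_le_negOnePow_mul_eval_T_real (d : ℤ)
        (x := y) (by linarith)
      have h2 : Int.negOnePow (d : ℤ) = 1 := Int.negOnePow_even _ (by exact_mod_cast hd)
      rw [h2] at h1
      push_cast at h1
      linarith

theorem Tc_crit (hd0 : 0 < d) {x : ℝ} (h : (Polynomial.derivative (Tc d)).eval x = 0) :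
    (Tc d).eval x = 1 ∨ (Tc d).eval x = -1 := by
  obtain ⟨m, rfl⟩ : ∃ m, d = m + 1 := ⟨d - 1, by omega⟩
  rw [Tc, Polynomial.Chebyshev.T_derivative_eq_U] at h
  have e : ((m + 1 : ℕ) : ℤ) - 1 = (m : ℤ) := by push_cast; ring
  rw [e, Polynomial.eval_mul, Polynomial.eval_intCast] at h
  have h1 : (Polynomial.Chebyshev.U ℝ (m : ℤ)).eval x = 0 := by
    rcases mul_eq_zero.1 h with h2 | h2
    · exfalso
      have : ((m + 1 : ℕ) : ℝ) = 0 := by exact_mod_cast h2
      have h3 : (0 : ℝ) ≤ m := Nat.cast_nonneg m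
      push_cast at this
      linarith
    · exact h2
  have h2 : x ∈ (Polynomial.Chebyshev.U ℝ (m : ℤ)).roots := by
    rw [Polynomial.mem_roots (Polynomial.Chebyshev.U_ne_zero ℝ (m : ℤ) (by omega))]
    exact h1
  rw [Polynomial.Chebyshev.roots_U_real, Finset.mem_val] at h2
  obtain ⟨k, -, hk⟩ := Finset.mem_image.1 h2
  rw [← hk, Tc, Polynomial.Chebyshev.T_real_cos]
  have h3 : (((m + 1 : ℕ) : ℤ) : ℝ) * ((k + 1) * Real.pi / (m + 1)) =
      ((k + 1 : ℕ) : ℝ) * Real.pi := by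
    have : (m : ℝ) + 1 ≠ 0 := by positivity
    push_cast
    field_simp
  rw [h3, Real.cos_nat_mul_pi]
  exact neg_one_pow_eq_or ℝ (k + 1)

theorem Ch_ns (hd : Even d) (hd0 : 0 < d) (v : Fin 3 → ℝ) (hv : v ≠ 0)
    (h : eval v (Ch d) = 0) : ∃ i, eval v (pderiv i (Ch d)) ≠ 0 := by
  have h2 : v 2 ≠ 0 := fun h2 => (Ch_inf hd hd0 hv h2).ne' h
  by_contra hcon
  push Not at hcon
  obtain ⟨z, x, y, hz, rfl⟩ : ∃ z x y : ℝ, z ≠ 0 ∧ v = z • ![x, y, 1] := by
    refine ⟨v 2, v 0 / v 2, v 1 / v 2, h2, ?_⟩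
    ext i
    fin_cases i
    · simp [mul_div_cancel₀ _ h2]
    · simp [mul_div_cancel₀ _ h2]
    · simp
  rw [eval_smul' (Ch_hom d)] at h
  have h0 := (mul_eq_zero.1 h).resolve_left (pow_ne_zero _ hz)
  have hder : ∀ i, eval ![x, y, 1] (pderiv i (Ch d)) = 0 := by
    intro i
    have h3 := hcon i
    rw [eval_smul' (Ch_hom d).pderiv] at h3
    exact (mul_eq_zero.1 h3).resolve_left (pow_ne_zero _ hz)
  have e0 : (Polynomial.derivative (Tc d)).eval x = 0 := by
    have h1 := hasDerivAt_x (Ch d) x y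
    have : (fun s => eval ![s, y, 1] (Ch d)) =
        fun s => (Tc d).eval s + (Tc d).eval y + 1 := by
      funext s
      exact eval_Ch d s y
    rw [this, hder 0] at h1
    exact ((((Tc d).hasDerivAt x).add_const _).add_const _).unique h1
  have e1 : (Polynomial.derivative (Tc d)).eval y = 0 := by
    have h1 := hasDerivAt_y (Ch d) x y
    have : (fun s => eval ![x, s, 1] (Ch d)) =
        fun s => (Tc d).eval x + (Tc d).eval s + 1 := by
      funext s
      exact eval_Ch d x s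
    rw [this, hder 1] at h1
    exact ((((Tc d).hasDerivAt y).const_add _).add_const _).unique h1
  rw [eval_Ch] at h0
  rcases Tc_crit hd0 e0 with h3 | h3 <;> rcases Tc_crit hd0 e1 with h4 | h4 <;>
    rw [h3, h4] at h0 <;> norm_num at h0

theorem Ch_sep (hd : Even d) (hd0 : 0 < d) : Sep (Ch d) d (Tc d + 1) (Tc d) :=
  ⟨Ch_hom d, Ch_ns hd hd0, fun x y => by
    rw [eval_Ch, Polynomial.eval_add, Polynomial.eval_one]
    ring⟩

/-- The function `(v i - c z) z / (x ^ 2 + y ^ 2 + z ^ 2)`. -/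
def ps (i : Fin 3) (c : ℝ) : RP2 → ℝ := Quotient.lift
  (fun v : NZ => (v.1 i - c * v.1 2) * v.1 2 / (v.1 0 ^ 2 + v.1 1 ^ 2 + v.1 2 ^ 2)) (by
    rintro v w ⟨a, ha⟩
    have ha0 := smul_ne ha
    simp only [ha, Pi.smul_apply, smul_eq_mul]
    rw [show (a * v.1 0) ^ 2 + (a * v.1 1) ^ 2 + (a * v.1 2) ^ 2 =
      a ^ 2 * (v.1 0 ^ 2 + v.1 1 ^ 2 + v.1 2 ^ 2) by ring,
      show (a * v.1 i - c * (a * v.1 2)) * (a * v.1 2) =
        a ^ 2 * ((v.1 i - c * v.1 2) * v.1 2) by ring,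
      mul_div_mul_left _ _ (pow_ne_zero 2 ha0)])

theorem continuous_ps (i : Fin 3) (c : ℝ) : Continuous (ps i c) := by
  refine Continuous.quotient_lift ?_ _
  have h : ∀ i : Fin 3, Continuous fun v : NZ => v.1 i := fun i =>
    (continuous_apply i).comp continuous_subtype_val
  exact Continuous.div ((((h i).sub (continuous_const.mul (h 2))).mul (h 2)))
    ((((h 0).pow 2).add ((h 1).pow 2)).add ((h 2).pow 2)) fun v => (sq_sum_pos v).ne'

theorem ps_aff (i : Fin 3) (c x y : ℝ) :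
    ps i c (aff x y) = ((![x, y, 1] : Fin 3 → ℝ) i - c) / (x ^ 2 + y ^ 2 + 1) := by
  change ((![x, y, 1] : Fin 3 → ℝ) i - c * 1) * 1 / (x ^ 2 + y ^ 2 + 1 ^ 2) = _
  rw [mul_one, mul_one, one_pow]

/-- A function without zeros on the curve has a constant sign on the components. -/
theorem same_sign {F : MvPolynomial (Fin 3) ℝ} {κ : ConnectedComponents (realPart F)}
    {φ : RP2 → ℝ} (hφ : Continuous φ) (hne : ∀ p ∈ realPart F, φ p ≠ 0) {p q : RP2}
    (hp : InC κ p) (hq : InC κ q) (h1 : 0 < φ p) : 0 < φ q := by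
  by_contra hcon
  have h2 : φ q < 0 := lt_of_le_of_ne (not_lt.1 hcon) (hne q hq.1)
  obtain ⟨hp', hpκ⟩ := hp
  obtain ⟨hq', hqκ⟩ := hq
  subst hpκ
  rw [ConnectedComponents.coe_eq_coe'] at hqκ
  have hfc : Continuous fun x : realPart F => φ x.1 := hφ.comp continuous_subtype_val
  obtain ⟨x, -, hx0⟩ := isPreconnected_connectedComponent.intermediate_value
    (a := (⟨q, hq'⟩ : realPart F)) (b := ⟨p, hp'⟩) mem_connectedComponent hqκ
    hfc.continuousOn (show (0 : ℝ) ∈ _ from ⟨h2.le, h1.le⟩)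
  exact hne x.1 x.2 hx0

theorem ps_ne (hd : Even d) (hd0 : 0 < d) {i : Fin 3} (hi : i ≠ 2) {c : ℝ}
    (hc : (Tc d).eval c = 1) : ∀ p ∈ realPart (Ch d), ps i c p ≠ 0 := by
  intro p hp
  have h0 : ph p ≠ 0 := by
    intro h0
    obtain ⟨v, hv2, rfl⟩ := exists_inf h0
    exact (Ch_inf hd hd0 v.2 hv2).ne' ((mem_realPart (Ch_hom d) v).1 hp)
  obtain ⟨x, y, rfl⟩ := exists_aff h0
  have h1 : (Tc d).eval x + (Tc d).eval y + 1 = 0 := by
    rw [← eval_Ch]
    exact (aff_mem (Ch_hom d) x y).1 hp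
  rw [ps_aff]
  have h2 : 0 < x ^ 2 + y ^ 2 + 1 := by positivity
  refine div_ne_zero ?_ h2.ne'
  have hx := Tc_ge hd x
  have hy := Tc_ge hd y
  intro h3
  fin_cases i
  · have h4 : x = c := by simpa [sub_eq_zero] using h3
    rw [← h4] at hc
    linarith
  · have h4 : y = c := by simpa [sub_eq_zero] using h3
    rw [← h4] at hc
    linarith
  · exact hi rfl

theorem sep_of (hd : Even d) (hd0 : 0 < d) {κ : ConnectedComponents (realPart (Ch d))}
    {i : Fin 3} (hi : i ≠ 2) {c : ℝ} (hc : (Tc d).eval c = 1) {x y x' y' : ℝ}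
    (h : InC κ (aff x y)) (h' : InC κ (aff x' y')) (h1 : c < (![x, y, 1] : Fin 3 → ℝ) i) :
    c < (![x', y', 1] : Fin 3 → ℝ) i := by
  have h2 := same_sign (continuous_ps i c) (ps_ne hd hd0 hi hc) h h' (by
    rw [ps_aff]
    exact div_pos (by linarith) (by positivity))
  rw [ps_aff] at h2
  have h3 : 0 < x' ^ 2 + y' ^ 2 + 1 := by positivity
  have h4 := (div_pos_iff_of_pos_right h3).1 h2
  linarith

/-- The points `cos (s π / d)`. -/
def nd (d : ℕ) (s : ℝ) : ℝ := Real.cos (s * Real.pi / d)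

theorem eval_nd (hd0 : 0 < d) (s : ℝ) : (Tc d).eval (nd d s) = Real.cos (s * Real.pi) := by
  rw [Tc, nd, Polynomial.Chebyshev.T_real_cos]
  congr 1
  have : (d : ℝ) ≠ 0 := by exact_mod_cast hd0.ne'
  push_cast
  field_simp

theorem nd_lt (hd0 : 0 < d) {s t : ℝ} (hs : 0 ≤ s) (hst : s < t) (ht : t ≤ d) :
    nd d t < nd d s := by
  have hd' : (0 : ℝ) < d := by exact_mod_cast hd0
  have hπ := Real.pi_pos
  refine Real.cos_lt_cos_of_nonneg_of_le_pi (by positivity) ?_ ?_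
  · rw [div_le_iff₀ hd']
    nlinarith
  · exact div_lt_div_of_pos_right (mul_lt_mul_of_pos_right hst hπ) hd'

/-- The points on the different components. -/
theorem pt_mem (hd0 : 0 < d) (i j : ℕ) :
    aff (nd d (2 * i + 1)) (nd d (2 * j + 1 / 2)) ∈ realPart (Ch d) := by
  rw [aff_mem (Ch_hom d), eval_Ch, eval_nd hd0, eval_nd hd0]
  have e1 : Real.cos ((2 * (i : ℝ) + 1) * Real.pi) = -1 := by
    have := Real.cos_nat_mul_two_pi_add_pi i
    rw [← this]
    congr 1
    ring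
  have e2 : Real.cos ((2 * (j : ℝ) + 1 / 2) * Real.pi) = 0 := by
    have e : (2 * (j : ℝ) + 1 / 2) * Real.pi = Real.pi / 2 + j * (2 * Real.pi) := by ring
    rw [e, Real.cos_add_nat_mul_two_pi, Real.cos_pi_div_two]
  rw [e1, e2]
  norm_num

theorem eval_even (hd0 : 0 < d) (i : ℕ) : (Tc d).eval (nd d (2 * i + 2)) = 1 := by
  rw [eval_nd hd0]
  have e : (2 * (i : ℝ) + 2) * Real.pi = ((i + 1 : ℕ) : ℝ) * (2 * Real.pi) := by
    push_cast
    ring
  rw [e, Real.cos_nat_mul_two_pi]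

theorem pt_inj (hd : Even d) (hd0 : 0 < d) {κ : ConnectedComponents (realPart (Ch d))}
    {i j i' j' : ℕ} (hi' : 2 * i' + 2 ≤ d) (hj' : 2 * j' + 2 ≤ d)
    (h : InC κ (aff (nd d (2 * i + 1)) (nd d (2 * j + 1 / 2))))
    (h' : InC κ (aff (nd d (2 * i' + 1)) (nd d (2 * j' + 1 / 2)))) : i' ≤ i ∧ j' ≤ j := by
  have hi'' : 2 * (i' : ℝ) + 2 ≤ d := by exact_mod_cast hi'
  have hj'' : 2 * (j' : ℝ) + 2 ≤ d := by exact_mod_cast hj'
  have hi0 : (0 : ℝ) ≤ i := Nat.cast_nonneg i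
  have hj0 : (0 : ℝ) ≤ j := Nat.cast_nonneg j
  constructor
  · by_contra hcon
    have h1 : (i : ℝ) + 1 ≤ i' := by exact_mod_cast not_le.1 hcon
    have h2 := sep_of hd hd0 (i := 0) (by decide) (eval_even hd0 i) h h'
      (nd_lt hd0 (by positivity) (by linarith) (by linarith))
    have h3 : nd d (2 * i' + 1) < nd d (2 * i + 2) :=
      nd_lt hd0 (by positivity) (by linarith) (by linarith)
    exact lt_asymm h2 h3
  · by_contra hcon
    have h1 : (j : ℝ) + 1 ≤ j' := by exact_mod_cast not_le.1 hcon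
    have h2 := sep_of hd hd0 (i := 1) (by decide) (eval_even hd0 j) h h'
      (nd_lt hd0 (by positivity) (by linarith) (by linarith))
    have h3 : nd d (2 * j' + 1 / 2) < nd d (2 * j + 2) :=
      nd_lt hd0 (by positivity) (by linarith) (by linarith)
    exact lt_asymm h2 h3

/-- The Chebyshev curve of degree `2 k` has at least `k ^ 2` components. -/
theorem Ch_card (k : ℕ) (hk : 0 < k) :
    k ^ 2 ≤ Nat.card (ConnectedComponents (realPart (Ch (2 * k)))) := by
  have hd : Even (2 * k) := even_two_mul k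
  have hd0 : 0 < 2 * k := by omega
  have C : Curve (Ch (2 * k)) (2 * k) := ⟨Ch_hom _, hd, hd0, Ch_ns hd hd0⟩
  have hfin := finite_comp C
  set f : Fin k × Fin k → ConnectedComponents (realPart (Ch (2 * k))) := fun v =>
    ((⟨_, pt_mem hd0 v.1.1 v.2.1⟩ : realPart (Ch (2 * k))) : ConnectedComponents _) with hf
  have hinj : Function.Injective f := by
    intro v w hvw
    have h1 : InC (f v) (aff (nd (2 * k) (2 * (v.1.1 : ℕ) + 1))
      (nd (2 * k) (2 * (v.2.1 : ℕ) + 1 / 2))) := ⟨pt_mem hd0 v.1.1 v.2.1, rfl⟩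
    have h2 : InC (f v) (aff (nd (2 * k) (2 * (w.1.1 : ℕ) + 1))
      (nd (2 * k) (2 * (w.2.1 : ℕ) + 1 / 2))) := by
      rw [hvw]
      exact ⟨pt_mem hd0 w.1.1 w.2.1, rfl⟩
    have a1 := v.1.2
    have a2 := v.2.2
    have a3 := w.1.2
    have a4 := w.2.2
    have h3 := pt_inj hd hd0 (by omega) (by omega) h1 h2
    have h4 := pt_inj hd hd0 (by omega) (by omega) h2 h1
    exact Prod.ext (Fin.ext (le_antisymm h4.1 h3.1)) (Fin.ext (le_antisymm h4.2 h3.2))
  have h := Nat.card_le_card_of_injective f hinj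
  rw [Nat.card_prod, Nat.card_eq_fintype_card, Fintype.card_fin] at h
  rw [pow_two]
  exact h

theorem Ch_pde (d : ℕ) : pderiv 0 (pderiv 1 (Ch d)) = 0 ∧ pderiv 1 (pderiv 0 (Ch d)) = 0 := by
  have h1 : pderiv 1 (Ch d) = pderiv 1 (hm d (Tc d) 1) := by
    rw [Ch, map_add, map_add, pderiv_hm d _ (i := 0) (j := 1) (by decide) (by decide),
      pderiv_pow, pderiv_X_of_ne (by decide)]
    simp
  have h0 : pderiv 0 (Ch d) = pderiv 0 (hm d (Tc d) 0) := by
    rw [Ch, map_add, map_add, pderiv_hm d _ (i := 1) (j := 0) (by decide) (by decide),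
      pderiv_pow, pderiv_X_of_ne (by decide)]
    simp
  constructor
  · rw [h1, pderiv_comm, pderiv_hm d _ (i := 1) (j := 0) (by decide) (by decide), map_zero]
  · rw [h0, pderiv_comm, pderiv_hm d _ (i := 0) (j := 1) (by decide) (by decide), map_zero]

end

end Pool.Agent.H83.MS
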