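import Pool.Agent.H83.MS.HarInf

/-!
# Curves with separated variables: the sharp bound
-/

open MvPolynomial Pool.Agent.H83.MC Pool.Agent.H25.SO

namespace Pool.Agent.H83.MS

noncomputable section

variable {F : MvPolynomial (Fin 3) ℝ} {d : ℕ} {f g : Polynomial ℝ}

/-- At most one component meets the line at infinity. -/
theorem Sep.unb_eq (S : Sep F d f g) (hd : Even d) (hd0 : 0 < d)
    {κ κ' : ConnectedComponents (realPart F)} (hκ : Unb κ) (hκ' : Unb κ') : κ = κ' := by
  by_cases ha : f.coeff d = 0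
  · have hb : g.coeff d ≠ 0 := by
      intro hb
      apply PI_ne (⟨S.hF, hd, hd0, S.hns⟩ : Curve F d)
      apply Polynomial.funext
      intro t
      rw [eval_PI, S.inf, ha, hb, zero_mul, zero_mul, add_zero, Polynomial.eval_zero]
    have key : ∀ κ : ConnectedComponents (realPart F), Unb κ → InC κ inf2 := by
      rintro κ ⟨p, hp, h0⟩
      rcases exists_inf12 h0 with ⟨t, rfl⟩ | rfl
      · exfalso
        have h1 := (inf1_mem S.hF t).1 hp.1
        rw [eval_PI, S.inf, ha, one_pow, mul_one, zero_mul, zero_add] at h1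
        exact hb h1
      · exact hp
    exact (key κ hκ).unique (key κ' hκ')
  by_cases hb : g.coeff d = 0
  · have key : ∀ κ : ConnectedComponents (realPart F), Unb κ → InC κ (inf1 0) := by
      rintro κ ⟨p, hp, h0⟩
      obtain ⟨t, rfl, e⟩ := S.inf_form hd0 ha hp.1 h0
      rw [hb, add_zero] at e
      have : t = 0 := eq_zero_of_pow_eq_zero ((mul_eq_zero.1 e).resolve_left ha)
      rwa [this] at hp
    exact (key κ hκ).unique (key κ' hκ')
  exact S.unb_unique hd hd0 ha hb hκ hκ'

open scoped Classical in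
/-- The sharp bound for separated variables. -/
theorem Sep.sharp (S : Sep F d f g) (hd : Even d) (hd4 : 4 ≤ d)
    [Fintype (ConnectedComponents (realPart F))] :
    4 * Fintype.card (ConnectedComponents (realPart F)) ≤ d ^ 2 := by
  have hsum := Finset.card_filter_add_card_filter_not
    (s := (Finset.univ : Finset (ConnectedComponents (realPart F)))) (fun κ => Unb κ)
  rw [Finset.card_univ] at hsum
  set Ub := Finset.univ.filter fun κ : ConnectedComponents (realPart F) => Unb κ with hUb
  set Bd := Finset.univ.filter fun κ : ConnectedComponents (realPart F) => ¬ Unb κ with hBd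
  have hone : Ub.card ≤ 1 := by
    rw [Finset.card_le_one]
    intro a ha' b hb'
    exact S.unb_eq hd (by omega) (Finset.mem_filter.1 ha').2 (Finset.mem_filter.1 hb').2
  obtain ⟨k, hk⟩ := hd
  have hk2 : 2 ≤ k := by omega
  rcases Bd.eq_empty_or_nonempty with h0 | ⟨κ₀, h0⟩
  · rw [h0, Finset.card_empty] at hsum
    nlinarith
  · have hκ₀ := (Finset.mem_filter.1 h0).2
    have hf : Polynomial.derivative f ≠ 0 := by
      obtain ⟨x₀, y₀, x₁, y₁, h0, h1, hg0, hg1, hext⟩ := S.ext_x hκ₀
      intro hcon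
      exact S.symm_ns ((S.mem _ _).1 h0.1) (by rw [hcon]; simp) hg0
    have hg : Polynomial.derivative g ≠ 0 := by
      obtain ⟨x₂, y₂, h2, hf2⟩ := S.ext_y hκ₀
      intro hcon
      exact S.symm_ns ((S.mem _ _).1 h2.1) hf2 (by rw [hcon]; simp)
    have h4 : ∀ κ ∈ Bd, 4 ≤ (II f g d κ).card := fun κ hκ =>
      S.four_le (by omega) S.natDegree_f S.natDegree_g hf hg (Finset.mem_filter.1 hκ).2
    have h5 : 4 * Bd.card ≤ ∑ κ ∈ Bd, (II f g d κ).card := by
      calc 4 * Bd.card = ∑ κ ∈ Bd, 4 := by rw [Finset.sum_const, smul_eq_mul, mul_comm]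
        _ ≤ ∑ κ ∈ Bd, (II f g d κ).card := Finset.sum_le_sum h4
    have h8 : d * d = 4 * k ^ 2 := by rw [hk]; ring
    have h9 : d ^ 2 = 4 * k ^ 2 := by rw [hk]; ring
    have fin1 : ∑ κ ∈ Bd, (II f g d κ).card ≤ (d - 1) * d →
        4 * Fintype.card (ConnectedComponents (realPart F)) ≤ d ^ 2 := by
      intro h6
      have h7 : (d - 1) * d + d = d ^ 2 := by
        obtain ⟨e, rfl⟩ : ∃ e, d = e + 1 := ⟨d - 1, by omega⟩
        rw [Nat.add_sub_cancel]
        ring
      omega
    by_cases ha : f.coeff d = 0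
    · exact fin1 (S.cells hf hg (by omega) (by omega)
        (le_pred_of S.natDegree_f ha (by omega)) S.natDegree_g Bd)
    by_cases hb : g.coeff d = 0
    · have := S.cells hf hg (m := d) (n := d - 1) (by omega) (by omega)
        S.natDegree_f (le_pred_of S.natDegree_g hb (by omega)) Bd
      exact fin1 (by rwa [mul_comm (d - 1) d])
    rcases Ub.eq_empty_or_nonempty with h6 | ⟨κ₁, h6⟩
    · have := S.cells hf hg (m := d) (n := d) (by omega) (by omega)
        S.natDegree_f S.natDegree_g Bd
      rw [h6, Finset.card_empty] at hsum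
      omega
    · have hκ₁ := (Finset.mem_filter.1 h6).2
      obtain ⟨-, x, y, hxy⟩ := S.two_inf ⟨k, hk⟩ (by omega) ha hb hκ₁
      obtain ⟨i, j, hij⟩ := S.has_of_aff hf hg hxy
      have hpos : 1 ≤ (II f g d κ₁).card :=
        Finset.card_pos.2 ⟨(i, j), mem_II (by omega) S.natDegree_f S.natDegree_g hij⟩
      have hnot : κ₁ ∉ Bd := fun h => (Finset.mem_filter.1 h).2 hκ₁
      have := S.cells hf hg (m := d) (n := d) (by omega) (by omega)
        S.natDegree_f S.natDegree_g (insert κ₁ Bd)
      rw [Finset.sum_insert hnot] at this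
      omega

end

end Pool.Agent.H83.MS
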