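import Pool.Agent.H83.MS.HarEx
import Pool.Agent.H83.MS.SepSharp

/-!
# Curves which are apolar to a degenerate conic: the maximal numbers of components
-/

open MvPolynomial Pool.Agent.H83.MC Pool.Agent.H25.SO Matrix

namespace Pool.Agent.H83.MS

noncomputable section

variable {d : ℕ} {A : Matrix (Fin 3) (Fin 3) ℝ} {F : MvPolynomial (Fin 3) ℝ}

/-- The quadratic form in the coordinates in which it is diagonal. -/
theorem quad {U : Matrix (Fin 3) (Fin 3) ℝ} {a b : ℝ}
    (h : A = U * Matrix.diagonal ![a, b, 0] * U.transpose) (v : Fin 3 → ℝ) :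
    v ⬝ᵥ A *ᵥ v = a * (U.transpose *ᵥ v) 0 ^ 2 + b * (U.transpose *ᵥ v) 1 ^ 2 := by
  set x := U.transpose *ᵥ v with hx
  have h1 : A *ᵥ v = U *ᵥ (Matrix.diagonal ![a, b, 0] *ᵥ x) := by
    rw [h, hx, Matrix.mulVec_mulVec, Matrix.mulVec_mulVec, Matrix.mul_assoc]
  have h2 : v ⬝ᵥ A *ᵥ v = x ⬝ᵥ (Matrix.diagonal ![a, b, 0] *ᵥ x) := by
    rw [h1, Matrix.dotProduct_mulVec, hx, Matrix.mulVec_transpose]
  rw [h2]
  simp only [dotProduct, Fin.sum_univ_three, Matrix.mulVec_diagonal]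
  simp
  ring

theorem exists_pre {U : Matrix (Fin 3) (Fin 3) ℝ} (hU : U.det ≠ 0) (x : Fin 3 → ℝ) :
    ∃ v, U.transpose *ᵥ v = x := by
  have hU' : IsUnit U.transpose.det := by
    rw [Matrix.det_transpose]
    exact isUnit_iff_ne_zero.2 hU
  exact ⟨U.transpose⁻¹ *ᵥ x, by
    rw [Matrix.mulVec_mulVec, Matrix.mul_nonsing_inv _ hU', Matrix.one_mulVec]⟩

theorem rank_eq {U : Matrix (Fin 3) (Fin 3) ℝ} (hU : U.det ≠ 0) {a b : ℝ}
    (h : A = U * Matrix.diagonal ![a, b, 0] * U.transpose) :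
    A.rank = (if a ≠ 0 then 1 else 0) + (if b ≠ 0 then 1 else 0) := by
  have hU1 : IsUnit U.det := isUnit_iff_ne_zero.2 hU
  have hU' : IsUnit U.transpose.det := by
    rw [Matrix.det_transpose]
    exact hU1
  rw [h, Matrix.rank_mul_eq_left_of_isUnit_det _ _ hU',
    Matrix.rank_mul_eq_right_of_isUnit_det _ _ hU1, Matrix.rank_diagonal]
  rw [Fintype.card_subtype]
  by_cases ha : a = 0 <;> by_cases hb : b = 0
  · have : (Finset.univ.filter fun i : Fin 3 => (![a, b, 0] : Fin 3 → ℝ) i ≠ 0) = ∅ := by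
      ext i
      fin_cases i <;> simp [ha, hb]
    rw [this]
    simp [ha, hb]
  · have : (Finset.univ.filter fun i : Fin 3 => (![a, b, 0] : Fin 3 → ℝ) i ≠ 0) = {1} := by
      ext i
      fin_cases i <;> simp [ha, hb]
    rw [this]
    simp [ha, hb]
  · have : (Finset.univ.filter fun i : Fin 3 => (![a, b, 0] : Fin 3 → ℝ) i ≠ 0) = {0} := by
      ext i
      fin_cases i <;> simp [ha, hb]
    rw [this]
    simp [ha, hb]
  · have : (Finset.univ.filter fun i : Fin 3 => (![a, b, 0] : Fin 3 → ℝ) i ≠ 0) = {0, 1} := by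
      ext i
      fin_cases i <;> simp [ha, hb]
    rw [this]
    simp [ha, hb]

/-- The normal form of a matrix of rank two. -/
theorem normal {U : Matrix (Fin 3) (Fin 3) ℝ} (hU : U.det ≠ 0) {a b : ℝ}
    (h : A = U * Matrix.diagonal ![a, b, 0] * U.transpose) (ha : a ≠ 0) (hb : b ≠ 0) :
    ∃ (V : Matrix (Fin 3) (Fin 3) ℝ) (e : ℝ), V.det ≠ 0 ∧ e ≠ 0 ∧
      ((0 < a * b ∧ A = e • (V * Matrix.diagonal ![1, 1, 0] * V.transpose)) ∨
        (a * b < 0 ∧ A = e • (V * Matrix.diagonal ![1, -1, 0] * V.transpose))) := by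
  set D : Matrix (Fin 3) (Fin 3) ℝ :=
    Matrix.diagonal ![Real.sqrt |a|, Real.sqrt |b|, 1] with hD
  have hDdet : (U * D).det ≠ 0 := by
    rw [Matrix.det_mul, hD, Matrix.det_diagonal, Fin.prod_univ_three]
    exact mul_ne_zero hU (by simpa using ⟨ha, hb⟩)
  have hkey : ∀ e s : ℝ, e * |a| = a → e * s * |b| = b →
      A = e • (U * D * Matrix.diagonal ![1, s, 0] * (U * D).transpose) := by
    intro e s h1 h2
    have h4 : D * Matrix.diagonal ![e, e * s, 0] * D = Matrix.diagonal ![a, b, 0] := by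
      rw [hD, Matrix.diagonal_mul_diagonal, Matrix.diagonal_mul_diagonal]
      congr 1
      funext i
      fin_cases i
      · simp only [Fin.zero_eta, Matrix.cons_val_zero]
        rw [mul_comm (Real.sqrt |a|) e, mul_assoc, Real.mul_self_sqrt (abs_nonneg a), h1]
      · simp only [Fin.mk_one, Matrix.cons_val_one]
        simp only [Matrix.cons_val_zero]
        rw [mul_comm (Real.sqrt |b|) (e * s), mul_assoc, Real.mul_self_sqrt (abs_nonneg b), h2]
      · simp
    have h5 : D.transpose = D := by rw [hD, Matrix.diagonal_transpose]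
    have h6 : Matrix.diagonal ![e, e * s, 0] = e • Matrix.diagonal ![1, s, 0] := by
      rw [← Matrix.diagonal_smul]
      congr 1
      funext i
      fin_cases i <;> simp
    rw [h, ← h4, h6, Matrix.transpose_mul, h5]
    simp only [Matrix.mul_assoc, Matrix.smul_mul, Matrix.mul_smul]
  rcases lt_or_gt_of_ne ha with ha' | ha' <;> rcases lt_or_gt_of_ne hb with hb' | hb'
  · refine ⟨U * D, -1, hDdet, by norm_num, Or.inl ⟨mul_pos_of_neg_of_neg ha' hb', ?_⟩⟩
    exact hkey (-1) 1 (by rw [abs_of_neg ha']; ring) (by rw [abs_of_neg hb']; ring)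
  · refine ⟨U * D, -1, hDdet, by norm_num, Or.inr ⟨mul_neg_of_neg_of_pos ha' hb', ?_⟩⟩
    exact hkey (-1) (-1) (by rw [abs_of_neg ha']; ring) (by rw [abs_of_pos hb']; ring)
  · refine ⟨U * D, 1, hDdet, by norm_num, Or.inr ⟨mul_neg_of_pos_of_neg ha' hb', ?_⟩⟩
    exact hkey 1 (-1) (by rw [abs_of_pos ha']; ring) (by rw [abs_of_neg hb']; ring)
  · refine ⟨U * D, 1, hDdet, by norm_num, Or.inl ⟨mul_pos ha' hb', ?_⟩⟩
    exact hkey 1 1 (by rw [abs_of_pos ha']; ring) (by rw [abs_of_pos hb']; ring)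

theorem DD_smul (e : ℝ) (M : Matrix (Fin 3) (Fin 3) ℝ) (P : MvPolynomial (Fin 3) ℝ) :
    DD (e • M) P = C e * DD M P := by
  simp only [DD, Finset.mul_sum, Matrix.smul_apply, smul_eq_mul, C_mul, mul_assoc]

/-- The equation in the new coordinates. -/
theorem DD_pull {V M : Matrix (Fin 3) (Fin 3) ℝ} {e : ℝ} (he : e ≠ 0)
    (hA : A = e • (V * M * V.transpose)) (h : DD A F = 0) : DD M (sub V F) = 0 := by
  rw [hA, DD_smul] at h
  have hC : (C e : MvPolynomial (Fin 3) ℝ) ≠ 0 := by rwa [Ne, C_eq_zero]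
  rw [DD_sub, (mul_eq_zero.1 h).resolve_left hC, map_zero]

/-- A solution in the new coordinates gives a solution. -/
theorem DD_push {V M : Matrix (Fin 3) (Fin 3) ℝ} {e : ℝ} (hV : V.det ≠ 0)
    (hA : A = e • (V * M * V.transpose)) (h : DD M F = 0) : DD A (sub V⁻¹ F) = 0 := by
  have hV1 : IsUnit V.det := isUnit_iff_ne_zero.2 hV
  have h1 : V⁻¹ * A * (V⁻¹).transpose = e • M := by
    have h2 : V.transpose * (V⁻¹).transpose = 1 := by
      rw [← Matrix.transpose_mul, Matrix.nonsing_inv_mul _ hV1, Matrix.transpose_one]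
    rw [hA, Matrix.mul_smul, Matrix.smul_mul]
    congr 1
    calc V⁻¹ * (V * M * V.transpose) * (V⁻¹).transpose
        = (V⁻¹ * V) * M * (V.transpose * (V⁻¹).transpose) := by
          simp only [Matrix.mul_assoc]
      _ = M := by rw [Matrix.nonsing_inv_mul _ hV1, h2, Matrix.one_mul, Matrix.mul_one]
  rw [DD_sub, h1, DD_smul, h, mul_zero, map_zero]

theorem det_inv {V : Matrix (Fin 3) (Fin 3) ℝ} (hV : V.det ≠ 0) : V⁻¹.det ≠ 0 := by
  rw [Matrix.det_nonsing_inv, Ring.inverse_eq_inv']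
  exact inv_ne_zero hV

/-- `F` is a smooth real form of degree `d` with the equation given by `A`. -/
structure Ap (d : ℕ) (A : Matrix (Fin 3) (Fin 3) ℝ) (F : MvPolynomial (Fin 3) ℝ) : Prop where
  hom : F.IsHomogeneous d
  smooth : ∀ v : Fin 3 → ℝ, v ≠ 0 → eval v F = 0 → ∃ i, eval v (pderiv i F) ≠ 0
  eq : DD A F = 0

theorem Ap.curve (h : Ap d A F) (hd : Even d) (hd0 : 0 < d) : Curve F d :=
  ⟨h.hom, hd, hd0, h.smooth⟩

theorem Ap.pull {V M : Matrix (Fin 3) (Fin 3) ℝ} {e : ℝ} (h : Ap d A F) (hV : V.det ≠ 0)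
    (he : e ≠ 0) (hA : A = e • (V * M * V.transpose)) : Ap d M (sub V F) :=
  ⟨sub_hom h.hom V hV, sub_ns h.smooth V hV, DD_pull he hA h.eq⟩

theorem Ap.push {V M : Matrix (Fin 3) (Fin 3) ℝ} {e : ℝ} (h : Ap d M F) (hV : V.det ≠ 0)
    (hA : A = e • (V * M * V.transpose)) : Ap d A (sub V⁻¹ F) :=
  ⟨sub_hom h.hom _ (det_inv hV), sub_ns h.smooth _ (det_inv hV), DD_push hV hA h.eq⟩

theorem DD_pm (s : ℝ) (P : MvPolynomial (Fin 3) ℝ) :
    DD (Matrix.diagonal ![1, s, 0]) P =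
      pderiv 0 (pderiv 0 P) + C s * pderiv 1 (pderiv 1 P) := by
  rw [DD_diag, C_1, one_mul]

/-- Upper bound: two real lines. -/
theorem upper_sep (h : Ap d (Matrix.diagonal ![1, -1, 0]) F) (hd : Even d) (hd4 : 4 ≤ d) :
    4 * Nat.card (ConnectedComponents (realPart F)) ≤ d ^ 2 := by
  have h1 := h.eq
  rw [DD_pm, C_neg, C_1, neg_one_mul, ← sub_eq_add_neg] at h1
  obtain ⟨S, f, g, hS, hfg⟩ := sep_of_pde h1
  have hT : Sep (sub S F) d f g := ⟨sub_hom h.hom S hS, sub_ns h.smooth S hS, hfg⟩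
  have hfin := finite_comp (⟨hT.hF, hd, by omega, hT.hns⟩ : Curve (sub S F) d)
  have : Fintype (ConnectedComponents (realPart (sub S F))) := Fintype.ofFinite _
  rw [← card_sub S hS, Nat.card_eq_fintype_card]
  exact hT.sharp hd hd4

/-- Upper bound: two conjugate lines. -/
theorem upper_har (h : Ap d (Matrix.diagonal ![1, 1, 0]) F) (hd : Even d) (hd0 : 0 < d) :
    2 * Nat.card (ConnectedComponents (realPart F)) ≤ d := by
  have h1 := h.eq
  rw [DD_pm, C_1, one_mul] at h1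
  obtain ⟨p, hp⟩ := har_of_pde h1
  exact har_sharp (h.curve hd hd0) h1 (Har.unb ⟨h.hom, h.smooth, hp⟩)

/-- The example: two real lines. -/
theorem lower_sep (k : ℕ) (hk : 0 < k) : ∃ F, Ap (2 * k) (Matrix.diagonal ![1, -1, 0]) F ∧
    k ^ 2 ≤ Nat.card (ConnectedComponents (realPart F)) := by
  have hd : Even (2 * k) := even_two_mul k
  have hd0 : 0 < 2 * k := by omega
  set W : Matrix (Fin 3) (Fin 3) ℝ := !![1, 1, 0; 1, -1, 0; 0, 0, 1] with hW
  have hWdet : W.det ≠ 0 := by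
    rw [hW, Matrix.det_fin_three]
    simp
    norm_num
  have hdg : (Matrix.diagonal ![1, -1, 0] : Matrix (Fin 3) (Fin 3) ℝ) =
      !![1, 0, 0; 0, -1, 0; 0, 0, 0] := by
    ext i j
    fin_cases i <;> fin_cases j <;> simp
  have hM : W * Matrix.diagonal ![1, -1, 0] * W.transpose = !![0, 2, 0; 2, 0, 0; 0, 0, 0] := by
    rw [hdg, hW]
    ext i j
    fin_cases i <;> fin_cases j <;>
      simp [Matrix.mul_apply, Fin.sum_univ_three, Matrix.transpose_apply] <;> norm_num
  refine ⟨sub W (Ch (2 * k)), ⟨sub_hom (Ch_hom _) W hWdet, sub_ns (Ch_ns hd hd0) W hWdet, ?_⟩, ?_⟩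
  · rw [DD_sub, hM]
    have h1 : DD !![0, 2, 0; 2, 0, 0; 0, 0, 0] (Ch (2 * k)) = 0 := by
      simp [DD, Fin.sum_univ_three, (Ch_pde (2 * k)).1, (Ch_pde (2 * k)).2]
    rw [h1, map_zero]
  · rw [card_sub W hWdet]
    exact Ch_card k hk

/-- The example: two conjugate lines. -/
theorem lower_har (k : ℕ) (hk : 0 < k) : ∃ F, Ap (2 * k) (Matrix.diagonal ![1, 1, 0]) F ∧
    k ≤ Nat.card (ConnectedComponents (realPart F)) := by
  refine ⟨Hx (2 * k), ⟨Hx_hom _, fun v hv _ => Hx_ns (by omega) v hv, ?_⟩, Hx_card k hk⟩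
  rw [DD_pm, C_1, one_mul]
  exact Hx_har _ (by omega)

/-- The maximal number for two real lines. -/
theorem max_sep {V : Matrix (Fin 3) (Fin 3) ℝ} {e : ℝ} (hV : V.det ≠ 0) (he : e ≠ 0)
    (hA : A = e • (V * Matrix.diagonal ![1, -1, 0] * V.transpose)) (hd : Even d) (hd4 : 4 ≤ d) :
    IsGreatest {n | ∃ F, Ap d A F ∧ Nat.card (ConnectedComponents (realPart F)) = n}
      (d ^ 2 / 4) := by
  have hup : ∀ F, Ap d A F → Nat.card (ConnectedComponents (realPart F)) ≤ d ^ 2 / 4 := by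
    intro F hF
    have h := upper_sep (hF.pull hV he hA) hd hd4
    rw [card_sub V hV] at h
    omega
  constructor
  · obtain ⟨k, hk⟩ := hd
    obtain rfl : d = 2 * k := by omega
    obtain ⟨F, hF, hc⟩ := lower_sep k (by omega)
    refine ⟨_, hF.push hV hA, le_antisymm (hup _ (hF.push hV hA)) ?_⟩
    rw [card_sub _ (det_inv hV)]
    have : (2 * k) ^ 2 / 4 = k ^ 2 := by
      rw [show (2 * k) ^ 2 = 4 * k ^ 2 by ring, Nat.mul_div_cancel_left _ (by norm_num)]
    rw [this]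
    exact hc
  · rintro n ⟨F, hF, rfl⟩
    exact hup F hF

/-- The maximal number for two conjugate lines. -/
theorem max_har {V : Matrix (Fin 3) (Fin 3) ℝ} {e : ℝ} (hV : V.det ≠ 0) (he : e ≠ 0)
    (hA : A = e • (V * Matrix.diagonal ![1, 1, 0] * V.transpose)) (hd : Even d) (hd0 : 0 < d) :
    IsGreatest {n | ∃ F, Ap d A F ∧ Nat.card (ConnectedComponents (realPart F)) = n}
      (d / 2) := by
  have hup : ∀ F, Ap d A F → Nat.card (ConnectedComponents (realPart F)) ≤ d / 2 := by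
    intro F hF
    have h := upper_har (hF.pull hV he hA) hd hd0
    rw [card_sub V hV] at h
    omega
  constructor
  · obtain ⟨k, hk⟩ := hd
    obtain rfl : d = 2 * k := by omega
    obtain ⟨F, hF, hc⟩ := lower_har k (by omega)
    refine ⟨_, hF.push hV hA, le_antisymm (hup _ (hF.push hV hA)) ?_⟩
    rw [card_sub _ (det_inv hV)]
    have : 2 * k / 2 = k := by omega
    rw [this]
    exact hc
  · rintro n ⟨F, hF, rfl⟩
    exact hup F hF

/-- There is no smooth curve if the conic is a double line. -/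
theorem no_double {U : Matrix (Fin 3) (Fin 3) ℝ} (hU : U.det ≠ 0) {a b : ℝ}
    (h : A = U * Matrix.diagonal ![a, b, 0] * U.transpose) (hA : A ≠ 0) (hab : a = 0 ∨ b = 0)
    (hd3 : 3 ≤ d) : ¬ Ap d A F := by
  intro hF
  have hdg : DD (Matrix.diagonal ![a, b, 0]) (sub U F) = 0 := by
    rw [DD_sub, ← h, hF.eq, map_zero]
  rw [DD_diag] at hdg
  have hsing : ∀ i : Fin 3, pderiv i (pderiv i (sub U F)) ≠ 0 := by
    intro i hi
    obtain ⟨h1, h2⟩ := sing_of_pde (sub_hom hF.hom U hU) hd3 hi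
    obtain ⟨j, hj⟩ := sub_ns hF.smooth U hU (Pi.single i 1) (by
      intro h0
      have := congrFun h0 i
      simp at this) h1
    exact hj (h2 j)
  rcases hab with rfl | rfl
  · by_cases hb : b = 0
    · subst hb
      apply hA
      have : Matrix.diagonal ![(0 : ℝ), 0, 0] = 0 := by
        ext i j
        fin_cases i <;> fin_cases j <;> simp
      rw [h, this, Matrix.mul_zero, Matrix.zero_mul]
    · rw [C_0, zero_mul, zero_add] at hdg
      have hC : (C b : MvPolynomial (Fin 3) ℝ) ≠ 0 := by rwa [Ne, C_eq_zero]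
      exact hsing 1 ((mul_eq_zero.1 hdg).resolve_left hC)
  · by_cases ha : a = 0
    · subst ha
      apply hA
      have : Matrix.diagonal ![(0 : ℝ), 0, 0] = 0 := by
        ext i j
        fin_cases i <;> fin_cases j <;> simp
      rw [h, this, Matrix.mul_zero, Matrix.zero_mul]
    · rw [C_0, zero_mul, add_zero] at hdg
      have hC : (C a : MvPolynomial (Fin 3) ℝ) ≠ 0 := by rwa [Ne, C_eq_zero]
      exact hsing 0 ((mul_eq_zero.1 hdg).resolve_left hC)

/-- The quadratic form takes values of both signs. -/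
def Indef (A : Matrix (Fin 3) (Fin 3) ℝ) : Prop :=
  ∃ v w : Fin 3 → ℝ, v ⬝ᵥ A *ᵥ v < 0 ∧ 0 < w ⬝ᵥ A *ᵥ w

theorem indef_iff {U : Matrix (Fin 3) (Fin 3) ℝ} (hU : U.det ≠ 0) {a b : ℝ}
    (h : A = U * Matrix.diagonal ![a, b, 0] * U.transpose) : Indef A ↔ a * b < 0 := by
  constructor
  · rintro ⟨v, w, hv, hw⟩
    rw [quad h] at hv hw
    have q1 := sq_nonneg ((U.transpose *ᵥ v) 0)
    have q2 := sq_nonneg ((U.transpose *ᵥ v) 1)
    have q3 := sq_nonneg ((U.transpose *ᵥ w) 0)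
    have q4 := sq_nonneg ((U.transpose *ᵥ w) 1)
    by_contra hcon
    push Not at hcon
    rcases lt_trichotomy a 0 with ha | ha | ha
    · have hb : b ≤ 0 := by nlinarith
      nlinarith
    · subst ha
      rcases le_total b 0 with hb | hb <;> nlinarith
    · have hb : 0 ≤ b := by nlinarith
      nlinarith
  · intro hab
    obtain ⟨v, hv⟩ := exists_pre hU ![1, 0, 0]
    obtain ⟨w, hw⟩ := exists_pre hU ![0, 1, 0]
    have ev : v ⬝ᵥ A *ᵥ v = a := by
      rw [quad h, hv]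
      simp
    have ew : w ⬝ᵥ A *ᵥ w = b := by
      rw [quad h, hw]
      simp
    rcases mul_neg_iff.1 hab with ⟨h1, h2⟩ | ⟨h1, h2⟩
    · exact ⟨w, v, by rw [ew]; exact h2, by rw [ev]; exact h1⟩
    · exact ⟨v, w, by rw [ev]; exact h1, by rw [ew]; exact h2⟩

/-- The main theorem. -/
theorem degenerate_max (hd : Even d) (hd4 : 4 ≤ d) (hA : A ≠ 0) (hs : A.IsSymm)
    (hdet : A.det = 0) :
    (Indef A →
      IsGreatest {n | ∃ F, Ap d A F ∧ Nat.card (ConnectedComponents (realPart F)) = n}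
        (d ^ 2 / 4)) ∧
    (¬ Indef A → A.rank = 2 →
      IsGreatest {n | ∃ F, Ap d A F ∧ Nat.card (ConnectedComponents (realPart F)) = n}
        (d / 2)) ∧
    (A.rank ≠ 2 → ∀ F, ¬ Ap d A F) := by
  obtain ⟨U, a, b, hU, hAU⟩ := exists_diag hs hdet
  rw [indef_iff hU hAU, rank_eq hU hAU]
  refine ⟨fun hab => ?_, fun hab hr => ?_, fun hr F => ?_⟩
  · have ha : a ≠ 0 := by rintro rfl; simp at hab
    have hb : b ≠ 0 := by rintro rfl; simp at hab
    obtain ⟨V, e, hV, he, ⟨h1, -⟩ | ⟨-, h1⟩⟩ := normal hU hAU ha hb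
    · linarith
    · exact max_sep hV he h1 hd hd4
  · have ha : a ≠ 0 := by
      rintro rfl
      by_cases hb : b = 0 <;> simp [hb] at hr
    have hb : b ≠ 0 := by
      rintro rfl
      by_cases ha : a = 0 <;> simp [ha] at hr
    obtain ⟨V, e, hV, he, ⟨-, h1⟩ | ⟨h1, -⟩⟩ := normal hU hAU ha hb
    · exact max_har hV he h1 hd (by omega)
    · exact absurd h1 hab
  · refine no_double hU hAU hA ?_ (by omega)
    by_contra hcon
    push Not at hcon
    simp [hcon.1, hcon.2] at hr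

end

end Pool.Agent.H83.MS
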