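import Pool.Agent.H83.MS.HarInf
import Pool.Agent.H83.MS.Cheb

/-!
# Harmonic forms: an example with `d / 2` components
-/

open MvPolynomial Pool.Agent.H83.MC Pool.Agent.H25.SO

namespace Pool.Agent.H83.MS

noncomputable section

/-- The real and the imaginary part of `(x + i y) ^ n`. -/
def PQ : ℕ → MvPolynomial (Fin 3) ℝ × MvPolynomial (Fin 3) ℝ
  | 0 => (1, 0)
  | n + 1 => (X 0 * (PQ n).1 - X 1 * (PQ n).2, X 0 * (PQ n).2 + X 1 * (PQ n).1)

theorem PQ_succ (n : ℕ) : PQ (n + 1) =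
    (X 0 * (PQ n).1 - X 1 * (PQ n).2, X 0 * (PQ n).2 + X 1 * (PQ n).1) := rfl

theorem PQ_hom (n : ℕ) : (PQ n).1.IsHomogeneous n ∧ (PQ n).2.IsHomogeneous n := by
  induction n with
  | zero => exact ⟨isHomogeneous_one _ _, isHomogeneous_zero _ _ _⟩
  | succ n ih =>
    rw [PQ_succ]
    have h : ∀ i : Fin 3, ∀ P : MvPolynomial (Fin 3) ℝ, P.IsHomogeneous n →
        (X i * P).IsHomogeneous (n + 1) := by
      intro i P hP
      have := (isHomogeneous_X ℝ i).mul hP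
      rwa [add_comm 1 n] at this
    exact ⟨(h 0 _ ih.1).sub (h 1 _ ih.2), (h 0 _ ih.2).add (h 1 _ ih.1)⟩

/-- The complex number of a vector. -/
def cx (v : Fin 3 → ℝ) : ℂ := ⟨v 0, v 1⟩

theorem eval_PQ (n : ℕ) (v : Fin 3 → ℝ) :
    eval v (PQ n).1 = (cx v ^ n).re ∧ eval v (PQ n).2 = (cx v ^ n).im := by
  induction n with
  | zero => simp [PQ]
  | succ n ih =>
    rw [PQ_succ, pow_succ', Complex.mul_re, Complex.mul_im]
    simp only [map_sub, map_add, map_mul, eval_X, ih.1, ih.2]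
    exact ⟨rfl, rfl⟩

theorem pderiv_two_PQ (n : ℕ) : pderiv 2 (PQ n).1 = 0 ∧ pderiv 2 (PQ n).2 = 0 := by
  induction n with
  | zero => exact ⟨pderiv_one, map_zero _⟩
  | succ n ih =>
    rw [PQ_succ]
    have h0 : pderiv (2 : Fin 3) (X 0 : MvPolynomial (Fin 3) ℝ) = 0 := pderiv_X_of_ne (by decide)
    have h1 : pderiv (2 : Fin 3) (X 1 : MvPolynomial (Fin 3) ℝ) = 0 := pderiv_X_of_ne (by decide)
    constructor
    · simp only [map_sub, pderiv_mul, h0, h1, ih.1, ih.2]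
      ring
    · simp only [map_add, pderiv_mul, h0, h1, ih.1, ih.2]
      ring

theorem pderiv_PQ (n : ℕ) :
    pderiv 0 (PQ (n + 1)).1 = C ((n : ℝ) + 1) * (PQ n).1 ∧
    pderiv 0 (PQ (n + 1)).2 = C ((n : ℝ) + 1) * (PQ n).2 ∧
    pderiv 1 (PQ (n + 1)).1 = -(C ((n : ℝ) + 1) * (PQ n).2) ∧
    pderiv 1 (PQ (n + 1)).2 = C ((n : ℝ) + 1) * (PQ n).1 := by
  have h00 : pderiv (0 : Fin 3) (X 0 : MvPolynomial (Fin 3) ℝ) = 1 := pderiv_X_self _
  have h01 : pderiv (0 : Fin 3) (X 1 : MvPolynomial (Fin 3) ℝ) = 0 := pderiv_X_of_ne (by decide)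
  have h10 : pderiv (1 : Fin 3) (X 0 : MvPolynomial (Fin 3) ℝ) = 0 := pderiv_X_of_ne (by decide)
  have h11 : pderiv (1 : Fin 3) (X 1 : MvPolynomial (Fin 3) ℝ) = 1 := pderiv_X_self _
  induction n with
  | zero =>
    rw [PQ_succ]
    simp [PQ, h00, h01, h10, h11]
  | succ n ih =>
    obtain ⟨a, b, c, e⟩ := ih
    have hC : (C (((n + 1 : ℕ) : ℝ) + 1) : MvPolynomial (Fin 3) ℝ) = C ((n : ℝ) + 1) + 1 := by
      rw [← C_1, ← C_add]
      push_cast
      ring_nf
    rw [PQ_succ (n + 1), hC]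
    simp only [map_sub, map_add, pderiv_mul, h00, h01, h10, h11, a, b, c, e]
    rw [PQ_succ n]
    refine ⟨?_, ?_, ?_, ?_⟩ <;> ring

/-- The form `Re (x + i y) ^ d - z ^ d`. -/
def Hx (d : ℕ) : MvPolynomial (Fin 3) ℝ := (PQ d).1 - X 2 ^ d

variable {d : ℕ}

theorem Hx_hom (d : ℕ) : (Hx d).IsHomogeneous d := by
  have h := (isHomogeneous_X ℝ (2 : Fin 3)).pow d
  rw [one_mul] at h
  exact (PQ_hom d).1.sub h

theorem eval_Hx (d : ℕ) (v : Fin 3 → ℝ) : eval v (Hx d) = (cx v ^ d).re - v 2 ^ d := by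
  rw [Hx, map_sub, (eval_PQ d v).1, map_pow, eval_X]

theorem pderiv_Hx (n : ℕ) : pderiv 0 (Hx (n + 1)) = C ((n : ℝ) + 1) * (PQ n).1 ∧
    pderiv 1 (Hx (n + 1)) = -(C ((n : ℝ) + 1) * (PQ n).2) ∧
    pderiv 2 (Hx (n + 1)) = -(C ((n : ℝ) + 1) * X 2 ^ n) := by
  obtain ⟨a, -, c, -⟩ := pderiv_PQ n
  refine ⟨?_, ?_, ?_⟩
  · rw [Hx, map_sub, a, pderiv_pow, pderiv_X_of_ne (by decide)]
    simp
  · rw [Hx, map_sub, c, pderiv_pow, pderiv_X_of_ne (by decide)]
    simp
  · rw [Hx, map_sub, (pderiv_two_PQ (n + 1)).1, pderiv_pow, pderiv_X_self]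
    simp

theorem Hx_har (d : ℕ) (hd : 2 ≤ d) :
    pderiv 0 (pderiv 0 (Hx d)) + pderiv 1 (pderiv 1 (Hx d)) = 0 := by
  obtain ⟨n, rfl⟩ : ∃ n, d = n + 1 + 1 := ⟨d - 2, by omega⟩
  rw [(pderiv_Hx (n + 1)).1, (pderiv_Hx (n + 1)).2.1, map_neg, pderiv_C_mul, pderiv_C_mul,
    (pderiv_PQ n).1, (pderiv_PQ n).2.2.2]
  ring

theorem Hx_ns (hd : 2 ≤ d) (v : Fin 3 → ℝ) (hv : v ≠ 0) :
    ∃ i, eval v (pderiv i (Hx d)) ≠ 0 := by
  obtain ⟨n, rfl⟩ : ∃ n, d = n + 1 := ⟨d - 1, by omega⟩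
  by_contra hcon
  push Not at hcon
  have h0 := hcon 0
  have h1 := hcon 1
  have h2 := hcon 2
  have hn : (n : ℝ) + 1 ≠ 0 := by positivity
  rw [(pderiv_Hx n).1, map_mul, eval_C, (eval_PQ n v).1] at h0
  rw [(pderiv_Hx n).2.1, map_neg, map_mul, eval_C, (eval_PQ n v).2, neg_eq_zero] at h1
  rw [(pderiv_Hx n).2.2, map_neg, map_mul, eval_C, map_pow, eval_X, neg_eq_zero] at h2
  have e0 := (mul_eq_zero.1 h0).resolve_left hn
  have e1 := (mul_eq_zero.1 h1).resolve_left hn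
  have e2 := eq_zero_of_pow_eq_zero ((mul_eq_zero.1 h2).resolve_left hn)
  have e3 : cx v ^ n = 0 := Complex.ext e0 e1
  have e4 : cx v = 0 := eq_zero_of_pow_eq_zero e3
  apply hv
  ext i
  fin_cases i
  · exact congrArg Complex.re e4
  · exact congrArg Complex.im e4
  · exact e2

/-- The function `(x sin a - y cos a) (x sin b - y cos b) / (x ^ 2 + y ^ 2 + z ^ 2)`. -/
def pt2 (a b : ℝ) : RP2 → ℝ := Quotient.lift
  (fun v : NZ => (v.1 0 * Real.sin a - v.1 1 * Real.cos a) *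
    (v.1 0 * Real.sin b - v.1 1 * Real.cos b) / (v.1 0 ^ 2 + v.1 1 ^ 2 + v.1 2 ^ 2)) (by
    rintro v w ⟨c, hc⟩
    have hc0 := smul_ne hc
    simp only [hc, Pi.smul_apply, smul_eq_mul]
    rw [show (c * v.1 0) ^ 2 + (c * v.1 1) ^ 2 + (c * v.1 2) ^ 2 =
      c ^ 2 * (v.1 0 ^ 2 + v.1 1 ^ 2 + v.1 2 ^ 2) by ring,
      show (c * v.1 0 * Real.sin a - c * v.1 1 * Real.cos a) *
        (c * v.1 0 * Real.sin b - c * v.1 1 * Real.cos b) =
        c ^ 2 * ((v.1 0 * Real.sin a - v.1 1 * Real.cos a) *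
        (v.1 0 * Real.sin b - v.1 1 * Real.cos b)) by ring,
      mul_div_mul_left _ _ (pow_ne_zero 2 hc0)])

theorem continuous_pt2 (a b : ℝ) : Continuous (pt2 a b) := by
  refine Continuous.quotient_lift ?_ _
  have h : ∀ i : Fin 3, Continuous fun v : NZ => v.1 i := fun i =>
    (continuous_apply i).comp continuous_subtype_val
  exact Continuous.div
    ((((h 0).mul continuous_const).sub ((h 1).mul continuous_const)).mul
      (((h 0).mul continuous_const).sub ((h 1).mul continuous_const)))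
    ((((h 0).pow 2).add ((h 1).pow 2)).add ((h 2).pow 2)) fun v => (sq_sum_pos v).ne'

theorem pt2_aff (a b θ : ℝ) : pt2 a b (aff (Real.cos θ) (Real.sin θ)) =
    Real.sin (a - θ) * Real.sin (b - θ) / 2 := by
  change (Real.cos θ * Real.sin a - Real.sin θ * Real.cos a) *
    (Real.cos θ * Real.sin b - Real.sin θ * Real.cos b) /
      (Real.cos θ ^ 2 + Real.sin θ ^ 2 + 1 ^ 2) = _
  rw [Real.cos_sq_add_sin_sq, Real.sin_sub, Real.sin_sub]
  norm_num
  ring

theorem re_pow (r θ : ℝ) (n : ℕ) :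
    (((r : ℂ) * (Real.cos θ + Real.sin θ * Complex.I)) ^ n).re = r ^ n * Real.cos (n * θ) := by
  rw [mul_pow, Complex.ofReal_cos, Complex.ofReal_sin, Complex.cos_add_sin_mul_I_pow,
    ← Complex.ofReal_pow, Complex.re_ofReal_mul]
  congr 1
  have : ((n : ℂ) * (θ : ℂ)) = ((n * θ : ℝ) : ℂ) := by push_cast; ring
  rw [this, Complex.add_re, Complex.cos_ofReal_re, Complex.mul_I_re, Complex.sin_ofReal_im,
    neg_zero, add_zero]

theorem line_ne (hd : Even d) {a : ℝ} (ha : Real.cos (d * a) = -1)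
    {v : Fin 3 → ℝ} (hv : v ≠ 0) (h : eval v (Hx d) = 0) :
    v 0 * Real.sin a - v 1 * Real.cos a ≠ 0 := by
  intro h0
  set r : ℝ := v 0 * Real.cos a + v 1 * Real.sin a with hr
  have T := Real.cos_sq_add_sin_sq a
  have e0 : v 0 = r * Real.cos a := by
    rw [hr]
    linear_combination Real.sin a * h0 - v 0 * T
  have e1 : v 1 = r * Real.sin a := by
    rw [hr]
    linear_combination -Real.cos a * h0 - v 1 * T
  have e2 : cx v = (r : ℂ) * (Real.cos a + Real.sin a * Complex.I) := by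
    apply Complex.ext
    · simp [cx, e0, -Complex.ofReal_cos, -Complex.ofReal_sin]
    · simp [cx, e1, -Complex.ofReal_cos, -Complex.ofReal_sin]
  have e3 : (cx v ^ d).re = -r ^ d := by
    rw [e2, re_pow, ha]
    ring
  rw [eval_Hx, e3] at h
  have h1 := hd.pow_nonneg r
  have h2 := hd.pow_nonneg (v 2)
  have hr0 : r = 0 := eq_zero_of_pow_eq_zero (n := d) (by linarith)
  have hv2 : v 2 = 0 := eq_zero_of_pow_eq_zero (n := d) (by linarith)
  apply hv
  ext i
  fin_cases i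
  · change v 0 = 0
    rw [e0, hr0, zero_mul]
  · change v 1 = 0
    rw [e1, hr0, zero_mul]
  · exact hv2

theorem pt2_ne (hd : Even d) (hd0 : 0 < d) {a b : ℝ} (ha : Real.cos (d * a) = -1)
    (hb : Real.cos (d * b) = -1) : ∀ p ∈ realPart (Hx d), pt2 a b p ≠ 0 := by
  intro p hp
  induction p using Quotient.inductionOn with
  | _ v =>
    have h : eval v.1 (Hx d) = 0 := (mem_realPart (Hx_hom d) v).1 hp
    exact div_ne_zero (mul_ne_zero (line_ne hd ha v.2 h) (line_ne hd hb v.2 h))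
      (sq_sum_pos v).ne'

theorem hx_mem (hd0 : 0 < d) (j : ℕ) :
    aff (Real.cos (2 * j * Real.pi / d)) (Real.sin (2 * j * Real.pi / d)) ∈
      realPart (Hx d) := by
  rw [aff_mem (Hx_hom d), eval_Hx]
  have hd' : (d : ℝ) ≠ 0 := by exact_mod_cast hd0.ne'
  set θ : ℝ := 2 * j * Real.pi / d with hθ
  have e2 : cx ![Real.cos θ, Real.sin θ, 1] =
      ((1 : ℝ) : ℂ) * (Real.cos θ + Real.sin θ * Complex.I) := by
    apply Complex.ext
    · simp [cx, -Complex.ofReal_cos, -Complex.ofReal_sin]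
    · simp [cx, -Complex.ofReal_cos, -Complex.ofReal_sin]
  have e5 : (d : ℝ) * θ = j * (2 * Real.pi) := by
    rw [hθ]
    field_simp
  rw [e2, re_pow, e5, Real.cos_nat_mul_two_pi]
  simp

/-- The points of different sectors are in different components. -/
theorem hx_inj {k : ℕ} (hk : 0 < k) {κ : ConnectedComponents (realPart (Hx (2 * k)))}
    {i j : ℕ} (hj : j < k)
    (h : InC κ (aff (Real.cos (2 * i * Real.pi / (2 * k : ℕ)))
      (Real.sin (2 * i * Real.pi / (2 * k : ℕ)))))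
    (h' : InC κ (aff (Real.cos (2 * j * Real.pi / (2 * k : ℕ)))
      (Real.sin (2 * j * Real.pi / (2 * k : ℕ))))) : j ≤ i := by
  by_contra hcon
  have h1 : (i : ℝ) + 1 ≤ j := by exact_mod_cast not_le.1 hcon
  have h2 : (j : ℝ) + 1 ≤ k := by exact_mod_cast hj
  have hi0 : (0 : ℝ) ≤ i := Nat.cast_nonneg i
  have hk' : (0 : ℝ) < k := by exact_mod_cast hk
  have hd : Even (2 * k) := even_two_mul k
  have hd0 : 0 < 2 * k := by omega
  have hπ := Real.pi_pos
  set D : ℝ := ((2 * k : ℕ) : ℝ) with hD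
  have hD0 : 0 < D := by rw [hD]; exact_mod_cast hd0
  have hDk : D = 2 * k := by rw [hD]; push_cast; ring
  set a : ℝ := (2 * i + 1) * Real.pi / D with ha
  set b : ℝ := -(Real.pi / D) with hb
  have ca : Real.cos (((2 * k : ℕ) : ℝ) * a) = -1 := by
    rw [← hD]
    have e : D * a = i * (2 * Real.pi) + Real.pi := by
      rw [ha]
      field_simp
    rw [e, Real.cos_nat_mul_two_pi_add_pi]
  have cb : Real.cos (((2 * k : ℕ) : ℝ) * b) = -1 := by
    rw [← hD]
    have e : D * b = -Real.pi := by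
      rw [hb]
      field_simp
    rw [e, Real.cos_neg, Real.cos_pi]
  have key := same_sign (continuous_pt2 a b) (pt2_ne hd hd0 ca cb) h' h
  rw [pt2_aff, pt2_aff] at key
  -- the angles
  have hu : 0 < Real.pi / D := by positivity
  have hπD : Real.pi = D * (Real.pi / D) := by field_simp
  set u : ℝ := Real.pi / D with hu'
  have ea : a = (2 * i + 1) * u := by rw [ha, hu']; ring
  have ei : 2 * (i : ℝ) * Real.pi / D = 2 * i * u := by rw [hu']; ring
  have ej : 2 * (j : ℝ) * Real.pi / D = 2 * j * u := by rw [hu']; ring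
  rw [ei, ej] at key
  have s1 : 0 < Real.sin (a - 2 * i * u) := by
    apply Real.sin_pos_of_pos_of_lt_pi
    · rw [ea]; nlinarith
    · rw [ea, hπD, hDk]; nlinarith
  have s2 : Real.sin (b - 2 * i * u) < 0 := by
    apply Real.sin_neg_of_neg_of_neg_pi_lt
    · rw [hb]; nlinarith
    · rw [hb, hπD, hDk]; nlinarith
  have s3 : Real.sin (a - 2 * j * u) < 0 := by
    apply Real.sin_neg_of_neg_of_neg_pi_lt
    · rw [ea]; nlinarith
    · rw [ea, hπD, hDk]; nlinarith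
  have s4 : Real.sin (b - 2 * j * u) < 0 := by
    apply Real.sin_neg_of_neg_of_neg_pi_lt
    · rw [hb]; nlinarith
    · rw [hb, hπD, hDk]; nlinarith
  have k1 : 0 < Real.sin (a - 2 * j * u) * Real.sin (b - 2 * j * u) / 2 := by
    have := mul_pos_of_neg_of_neg s3 s4
    linarith
  have k2 : Real.sin (a - 2 * i * u) * Real.sin (b - 2 * i * u) < 0 :=
    mul_neg_of_pos_of_neg s1 s2
  have := key k1
  linarith

theorem Hx_card (k : ℕ) (hk : 0 < k) :
    k ≤ Nat.card (ConnectedComponents (realPart (Hx (2 * k)))) := by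
  have hd : Even (2 * k) := even_two_mul k
  have hd0 : 0 < 2 * k := by omega
  have C : Curve (Hx (2 * k)) (2 * k) :=
    ⟨Hx_hom _, hd, hd0, fun v hv _ => Hx_ns (by omega) v hv⟩
  have hfin := finite_comp C
  set f : Fin k → ConnectedComponents (realPart (Hx (2 * k))) := fun v =>
    ((⟨_, hx_mem hd0 v.1⟩ : realPart (Hx (2 * k))) : ConnectedComponents _) with hf
  have hinj : Function.Injective f := by
    intro v w hvw
    have h1 : InC (f v) (aff (Real.cos (2 * (v.1 : ℕ) * Real.pi / (2 * k : ℕ)))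
      (Real.sin (2 * (v.1 : ℕ) * Real.pi / (2 * k : ℕ)))) := ⟨hx_mem hd0 v.1, rfl⟩
    have h2 : InC (f v) (aff (Real.cos (2 * (w.1 : ℕ) * Real.pi / (2 * k : ℕ)))
      (Real.sin (2 * (w.1 : ℕ) * Real.pi / (2 * k : ℕ)))) := by
      rw [hvw]
      exact ⟨hx_mem hd0 w.1, rfl⟩
    exact Fin.ext (le_antisymm (hx_inj hk v.2 h2 h1) (hx_inj hk w.2 h1 h2))
  have h := Nat.card_le_card_of_injective f hinj
  rwa [Nat.card_eq_fintype_card, Fintype.card_fin] at h

end

end Pool.Agent.H83.MS
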