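import Pool.Agent.H83.MS.Inf
import Pool.Agent.H83.MS.Har

/-!
# Harmonic forms: the points at infinity
-/

open MvPolynomial Pool.Agent.H83.MC Pool.Agent.H25.SO

namespace Pool.Agent.H83.MS

noncomputable section

variable {F : MvPolynomial (Fin 3) ℝ} {d : ℕ}

/-- The points of the circle at infinity. -/
def Vc (θ : ℝ) : Fin 3 → ℝ := ![Real.cos θ, Real.sin θ, 0]

theorem Vc_ne (θ : ℝ) : Vc θ ≠ 0 := by
  intro h
  have h0 : Real.cos θ = 0 := congrFun h 0
  have h1 : Real.sin θ = 0 := congrFun h 1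
  have := Real.cos_sq_add_sin_sq θ
  rw [h0, h1] at this
  norm_num at this

theorem hasDerivAt_Vc (G : MvPolynomial (Fin 3) ℝ) (θ : ℝ) :
    HasDerivAt (fun θ => eval (Vc θ) G)
      (Real.cos θ * eval (Vc θ) (pderiv 1 G) - Real.sin θ * eval (Vc θ) (pderiv 0 G)) θ := by
  have h := hasDerivAt_eval G Vc ![-Real.sin θ, Real.cos θ, 0] θ (by
    intro i
    fin_cases i
    · exact Real.hasDerivAt_cos θ
    · exact Real.hasDerivAt_sin θ
    · exact hasDerivAt_const θ (0 : ℝ))
  refine h.congr_deriv ?_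
  simp [Fin.sum_univ_three]
  ring

theorem euler_Vc {G : MvPolynomial (Fin 3) ℝ} {n : ℕ} (hG : G.IsHomogeneous n) (θ : ℝ) :
    Real.cos θ * eval (Vc θ) (pderiv 0 G) + Real.sin θ * eval (Vc θ) (pderiv 1 G) =
      n * eval (Vc θ) G := by
  have e2 := congrArg (eval (Vc θ)) (hG.sum_X_mul_pderiv)
  simp only [Fin.sum_univ_three, map_nsmul, map_add, map_mul, eval_X] at e2
  have c0 : Vc θ 0 = Real.cos θ := rfl
  have c1 : Vc θ 1 = Real.sin θ := rfl
  have c2 : Vc θ 2 = 0 := rfl
  rw [c0, c1, c2, zero_mul, add_zero, nsmul_eq_mul] at e2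
  exact e2

/-- The derivative on the circle. -/
def wF (F : MvPolynomial (Fin 3) ℝ) (θ : ℝ) : ℝ :=
  Real.cos θ * eval (Vc θ) (pderiv 1 F) - Real.sin θ * eval (Vc θ) (pderiv 0 F)

theorem hasDerivAt_wF (hF : F.IsHomogeneous d) (hd : 1 ≤ d)
    (h : pderiv 0 (pderiv 0 F) + pderiv 1 (pderiv 1 F) = 0) (θ : ℝ) :
    HasDerivAt (wF F) (-(d : ℝ) ^ 2 * eval (Vc θ) F) θ := by
  have h1 := (Real.hasDerivAt_cos θ).mul (hasDerivAt_Vc (pderiv 1 F) θ)
  have h0 := (Real.hasDerivAt_sin θ).mul (hasDerivAt_Vc (pderiv 0 F) θ)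
  refine (h1.sub h0).congr_deriv ?_
  have E := euler_Vc hF θ
  have E0 := euler_Vc (hF.pderiv (i := 0)) θ
  have E1 := euler_Vc (hF.pderiv (i := 1)) θ
  have L : eval (Vc θ) (pderiv 0 (pderiv 0 F)) + eval (Vc θ) (pderiv 1 (pderiv 1 F)) = 0 := by
    rw [← map_add, h, map_zero]
  have hc : ((d - 1 : ℕ) : ℝ) = d - 1 := by
    rw [Nat.cast_sub hd, Nat.cast_one]
  rw [hc] at E0 E1
  linear_combination (Real.cos θ ^ 2 + Real.sin θ ^ 2) * L - Real.cos θ * E0 -
    Real.sin θ * E1 - d * E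

/-- The energy is constant. -/
theorem energy (hF : F.IsHomogeneous d) (hd : 1 ≤ d)
    (h : pderiv 0 (pderiv 0 F) + pderiv 1 (pderiv 1 F) = 0) (θ θ' : ℝ) :
    wF F θ ^ 2 + d ^ 2 * eval (Vc θ) F ^ 2 = wF F θ' ^ 2 + d ^ 2 * eval (Vc θ') F ^ 2 := by
  have hder : ∀ θ, HasDerivAt (fun θ => wF F θ ^ 2 + d ^ 2 * eval (Vc θ) F ^ 2) 0 θ := by
    intro θ
    have h1 := (hasDerivAt_wF hF hd h θ).pow 2
    have h2 := ((hasDerivAt_Vc F θ).pow 2).const_mul ((d : ℝ) ^ 2)
    refine (h1.add h2).congr_deriv ?_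
    have e : Real.cos θ * eval (Vc θ) (pderiv 1 F) - Real.sin θ * eval (Vc θ) (pderiv 0 F) =
      wF F θ := rfl
    rw [e]
    push_cast
    ring
  exact is_const_of_deriv_eq_zero (fun θ => (hder θ).differentiableAt) (fun θ => (hder θ).deriv)
    θ θ'

/-- A form which vanishes at infinity vanishes on the whole line. -/
theorem vanish_inf (hF : F.IsHomogeneous d) (h : PI F = 0) (θ : ℝ) : eval (Vc θ) F = 0 := by
  have h1 : ∀ θ, Real.sin θ ≠ 0 → eval (Vc θ) F = 0 := by
    intro θ hs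
    have e : Vc θ = Real.sin θ • ![Real.cos θ / Real.sin θ, 1, 0] := by
      ext i
      fin_cases i
      · simp [Vc, mul_div_cancel₀ _ hs]
      · simp [Vc]
      · simp [Vc]
    rw [e, eval_smul' hF, ← eval_PI, h]
    simp
  by_cases hs : Real.sin θ = 0
  · have hc : Real.cos θ ≠ 0 := by
      intro hc
      have := Real.cos_sq_add_sin_sq θ
      rw [hc, hs] at this
      norm_num at this
    -- the derivative at this point would not vanish otherwise
    have hcont : Continuous fun θ => eval (Vc θ) F :=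
      continuous_iff_continuousAt.2 fun θ => (hasDerivAt_Vc F θ).continuousAt
    have hclosed : IsClosed {θ | eval (Vc θ) F = 0} := isClosed_eq hcont continuous_const
    have hne : ∀ᶠ x in nhdsWithin θ {θ}ᶜ, Real.sin x ≠ 0 := by
      have := (Real.hasDerivAt_sin θ).eventually_ne (c := 0) hc
      exact this
    have hev : ∀ᶠ x in nhdsWithin θ {θ}ᶜ, x ∈ {θ | eval (Vc θ) F = 0} :=
      hne.mono fun x hx => h1 x hx
    exact hclosed.mem_of_frequently_of_tendsto hev.frequently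
      (Filter.tendsto_id.mono_left nhdsWithin_le_nhds)
  · exact h1 θ hs

/-- A smooth curve of even degree does not contain the line at infinity. -/
theorem PI_ne (C : Curve F d) : PI F ≠ 0 := by
  intro h
  have h0 := vanish_inf C.hF h
  -- the tangential derivatives vanish
  have hw : ∀ θ, wF F θ = 0 := by
    intro θ
    have h1 := hasDerivAt_Vc F θ
    have : (fun θ => eval (Vc θ) F) = fun _ => (0 : ℝ) := funext h0
    rw [this] at h1
    exact h1.unique (hasDerivAt_const θ 0)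
  -- the normal derivative has a zero
  have hcont : Continuous fun θ => eval (Vc θ) (pderiv 2 F) :=
    continuous_iff_continuousAt.2 fun θ => (hasDerivAt_Vc _ θ).continuousAt
  have hodd : eval (Vc Real.pi) (pderiv 2 F) = -eval (Vc 0) (pderiv 2 F) := by
    have e : Vc Real.pi = -Vc 0 := by
      ext i
      fin_cases i <;> simp [Vc]
    rw [e]
    exact pd_neg C.hF C.hd C.hd0 2 _
  obtain ⟨θ, hθ⟩ : ∃ θ, eval (Vc θ) (pderiv 2 F) = 0 := by
    rcases le_total (eval (Vc 0) (pderiv 2 F)) 0 with h1 | h1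
    · obtain ⟨θ, -, hθ⟩ := intermediate_value_Icc (f := fun θ => eval (Vc θ) (pderiv 2 F))
        Real.pi_pos.le hcont.continuousOn (show (0 : ℝ) ∈ _ from ⟨h1, by rw [hodd]; linarith⟩)
      exact ⟨θ, hθ⟩
    · obtain ⟨θ, -, hθ⟩ := intermediate_value_Icc' (f := fun θ => eval (Vc θ) (pderiv 2 F))
        Real.pi_pos.le hcont.continuousOn (show (0 : ℝ) ∈ _ from ⟨by rw [hodd]; linarith, h1⟩)
      exact ⟨θ, hθ⟩
  obtain ⟨i, hi⟩ := C.hns (Vc θ) (Vc_ne θ) (h0 θ)
  have E := euler_Vc C.hF θ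
  rw [h0 θ, mul_zero] at E
  have W : Real.cos θ * eval (Vc θ) (pderiv 1 F) - Real.sin θ * eval (Vc θ) (pderiv 0 F) = 0 :=
    hw θ
  have T := Real.cos_sq_add_sin_sq θ
  apply hi
  fin_cases i
  · change eval (Vc θ) (pderiv 0 F) = 0
    linear_combination Real.cos θ * E - Real.sin θ * W - eval (Vc θ) (pderiv 0 F) * T
  · change eval (Vc θ) (pderiv 1 F) = 0
    linear_combination Real.sin θ * E + Real.cos θ * W - eval (Vc θ) (pderiv 1 F) * T
  · exact hθ

theorem exists_angle {a b : ℝ} (h : a ^ 2 + b ^ 2 = 1) :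
    ∃ θ, a = Real.cos θ ∧ b = Real.sin θ := by
  set z : ℂ := ⟨a, b⟩ with hz
  have hn : ‖z‖ = 1 := by
    rw [Complex.norm_eq_sqrt_sq_add_sq]
    simp only [hz]
    rw [h, Real.sqrt_one]
  have hz0 : z ≠ 0 := by
    intro h0
    rw [h0, norm_zero] at hn
    exact zero_ne_one hn
  refine ⟨z.arg, ?_, ?_⟩
  · rw [Complex.cos_arg hz0, hn, div_one]
  · rw [Complex.sin_arg, hn, div_one]

/-- The curve is transversal to the line at infinity. -/
theorem har_trans (C : Curve F d) (h : pderiv 0 (pderiv 0 F) + pderiv 1 (pderiv 1 F) = 0)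
    {v : Fin 3 → ℝ} (hv : nsq v = 1) (h2 : v 2 = 0) (h0 : eval v F = 0) : fld F v 2 ≠ 0 := by
  have hv' : v 0 ^ 2 + v 1 ^ 2 = 1 := by
    have : v 0 ^ 2 + v 1 ^ 2 + v 2 ^ 2 = 1 := hv
    rw [h2] at this
    linarith
  obtain ⟨θ, hc, hs⟩ := exists_angle hv'
  have e : v = Vc θ := by
    ext i
    fin_cases i
    · exact hc
    · exact hs
    · exact h2
  subst e
  intro hz
  have hw : wF F θ = 0 := hz
  apply PI_ne C
  have hall : ∀ θ', eval (Vc θ') F = 0 := by
    intro θ'
    have := energy C.hF C.hd0 h θ θ'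
    rw [hw, h0] at this
    have hd' : (0 : ℝ) < d := by exact_mod_cast C.hd0
    have h1 : (d : ℝ) ^ 2 * eval (Vc θ') F ^ 2 ≤ 0 := by nlinarith [sq_nonneg (wF F θ')]
    have h3 : eval (Vc θ') F ^ 2 ≤ 0 := by
      by_contra hcon
      push Not at hcon
      have : 0 < (d : ℝ) ^ 2 * eval (Vc θ') F ^ 2 := by positivity
      linarith
    exact pow_eq_zero_iff (by norm_num) |>.1 (le_antisymm h3 (sq_nonneg _))
  apply Polynomial.funext
  intro t
  rw [eval_PI, Polynomial.eval_zero]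
  set r := Real.sqrt (t ^ 2 + 1) with hr
  have hr0 : r ≠ 0 := (Real.sqrt_pos.2 (by positivity)).ne'
  have hr2 : r ^ 2 = t ^ 2 + 1 := Real.sq_sqrt (by positivity)
  obtain ⟨φ, h4, h5⟩ := exists_angle (a := t / r) (b := 1 / r) (by
    rw [div_pow, div_pow, hr2]
    field_simp)
  have e : (![t, 1, 0] : Fin 3 → ℝ) = r • Vc φ := by
    ext i
    fin_cases i
    · simp [Vc, ← h4, mul_div_cancel₀ _ hr0]
    · simp [Vc, ← h5, hr0]
    · simp [Vc]
  rw [e, eval_smul' C.hF, hall, mul_zero]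

/-- A component which meets the line at infinity transversally meets it in two points. -/
theorem two_inf_of (C : Curve F d)
    (htr : ∀ v, nsq v = 1 → v 2 = 0 → eval v F = 0 → fld F v 2 ≠ 0)
    {κ : ConnectedComponents (realPart F)} (hκ : Unb κ) :
    ∃ p q, p ≠ q ∧ InC κ p ∧ InC κ q ∧ ph p = 0 ∧ ph q = 0 := by
  obtain ⟨γ, T, P⟩ := C.exists_par κ
  obtain ⟨p, hp, hp0⟩ := hκ
  obtain ⟨t₀, rfl⟩ := (P.mem p).1 hp
  have h2 : γ t₀ 2 = 0 := (ph_pr_eq_zero (P.sol.ne t₀)).1 hp0
  have hne := htr _ (P.sol.norm t₀) h2 (P.sol.zero t₀)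
  have hder : HasDerivAt (fun t => γ t 2) (fld F (γ t₀) 2) t₀ :=
    (hasDerivAt_pi.1 (P.sol.deriv t₀)) 2
  have hcont : Continuous fun t => γ t 2 := (continuous_apply 2).comp P.sol.cont
  obtain ⟨t₁, h3, h4, h5⟩ := exists_zero' hcont hder h2 hne P.pos (fun u => by rw [P.per])
  refine ⟨pr (γ t₀), pr (γ t₁), ?_, hp, (P.mem _).2 ⟨t₁, rfl⟩, hp0,
    (ph_pr_eq_zero (P.sol.ne t₁)).2 h5⟩
  intro h
  obtain ⟨n, hn⟩ := P.pr_inj C h
  have hT := P.pos
  have h6 : (n : ℝ) < 0 := by nlinarith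
  have h7 : (-1 : ℝ) < n := by nlinarith
  have h8 : n < 0 := by exact_mod_cast h6
  have h9 : -1 < n := by exact_mod_cast h7
  omega

/-- The sharp bound for harmonic forms. -/
theorem har_sharp (C : Curve F d) (h : pderiv 0 (pderiv 0 F) + pderiv 1 (pderiv 1 F) = 0)
    (hunb : ∀ κ : ConnectedComponents (realPart F), Unb κ) :
    2 * Nat.card (ConnectedComponents (realPart F)) ≤ d := by
  classical
  have hfin := finite_comp C
  have : Fintype (ConnectedComponents (realPart F)) := Fintype.ofFinite _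
  rw [Nat.card_eq_fintype_card]
  have hPI := PI_ne C
  set Z : Finset RP2 := insert inf2 ((PI F).roots.toFinset.image inf1) with hZ
  have hZc : Z.card ≤ d + 1 := by
    refine (Finset.card_insert_le _ _).trans (Nat.add_le_add_right ?_ 1)
    exact Finset.card_image_le.trans ((Multiset.toFinset_card_le _).trans
      ((Polynomial.card_roots' (PI F)).trans (natDegree_PI C.hF)))
  have hmem : ∀ p, p ∈ realPart F → ph p = 0 → p ∈ Z := by
    intro p hp hp0
    rw [hZ, Finset.mem_insert, Finset.mem_image]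
    rcases exists_inf12 hp0 with ⟨t, rfl⟩ | rfl
    · right
      refine ⟨t, ?_, rfl⟩
      rw [Multiset.mem_toFinset, Polynomial.mem_roots hPI]
      exact (inf1_mem C.hF t).1 hp
    · exact Or.inl rfl
  have htwo : ∀ κ : ConnectedComponents (realPart F), 2 ≤ (Z.filter fun p => InC κ p).card := by
    intro κ
    obtain ⟨p, q, hpq, hp, hq, hp0, hq0⟩ := two_inf_of C (fun v => har_trans C h) (hunb κ)
    have hsub : ({p, q} : Finset RP2) ⊆ Z.filter fun p => InC κ p := by
      intro r hr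
      rw [Finset.mem_insert, Finset.mem_singleton] at hr
      rw [Finset.mem_filter]
      rcases hr with rfl | rfl
      · exact ⟨hmem _ hp.1 hp0, hp⟩
      · exact ⟨hmem _ hq.1 hq0, hq⟩
    calc 2 = ({p, q} : Finset RP2).card := (Finset.card_pair hpq).symm
      _ ≤ _ := Finset.card_le_card hsub
  have hdisj : ∀ κ ∈ (Finset.univ : Finset (ConnectedComponents (realPart F))), ∀ κ' ∈
      (Finset.univ : Finset (ConnectedComponents (realPart F))), κ ≠ κ' →
      Disjoint (Z.filter fun p => InC κ p) (Z.filter fun p => InC κ' p) := by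
    intro κ _ κ' _ hne
    rw [Finset.disjoint_left]
    intro p hp hp'
    exact hne ((Finset.mem_filter.1 hp).2.unique (Finset.mem_filter.1 hp').2)
  have hsum : ∑ κ : ConnectedComponents (realPart F), (Z.filter fun p => InC κ p).card ≤
      Z.card := by
    rw [← Finset.card_biUnion hdisj]
    refine Finset.card_le_card ?_
    intro p hp
    obtain ⟨κ, -, hκ⟩ := Finset.mem_biUnion.1 hp
    exact (Finset.mem_filter.1 hκ).1
  have hlow : 2 * Fintype.card (ConnectedComponents (realPart F)) ≤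
      ∑ κ : ConnectedComponents (realPart F), (Z.filter fun p => InC κ p).card := by
    calc 2 * Fintype.card (ConnectedComponents (realPart F))
        = ∑ _κ : ConnectedComponents (realPart F), 2 := by
          rw [Finset.sum_const, smul_eq_mul, mul_comm, Finset.card_univ]
      _ ≤ _ := Finset.sum_le_sum fun κ _ => htwo κ
  obtain ⟨k, hk⟩ := C.hd
  omega

end

end Pool.Agent.H83.MS
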