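import Pool.Agent.H83.MS.Sep

/-!
# Curves with separated variables: counting the components
-/

open MvPolynomial Pool.Agent.H83.MC

namespace Pool.Agent.H83.MS

noncomputable section

variable {F : MvPolynomial (Fin 3) ℝ} {d : ℕ} {f g : Polynomial ℝ}

theorem ev_idx {f : Polynomial ℝ} {x₁ : ℝ} (h : x₁ ∉ Rt f) :
    ∀ᶠ x in nhds x₁, x ∉ Rt f ∧ idx f x = idx f x₁ := by
  have h1 : ∀ᶠ x in nhds x₁, ∀ r ∈ Rt f, x ≠ r ∧ (r < x ↔ r < x₁) := by
    rw [Filter.eventually_all_finset]
    intro r hr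
    have hne : x₁ ≠ r := by rintro rfl; exact h hr
    rcases lt_or_gt_of_ne hne with h2 | h2
    · filter_upwards [gt_mem_nhds h2] with x hx
      exact ⟨hx.ne, iff_of_false (not_lt.2 hx.le) (not_lt.2 h2.le)⟩
    · filter_upwards [lt_mem_nhds h2] with x hx
      exact ⟨hx.ne', iff_of_true hx h2⟩
  filter_upwards [h1] with x hx
  refine ⟨fun hxR => (hx x hxR).1 rfl, ?_⟩
  rw [idx, idx]
  congr 1
  exact Finset.filter_congr fun r hr => (hx r hr).2

theorem ev_idx_left (f : Polynomial ℝ) (x₁ : ℝ) :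
    ∀ᶠ x in nhdsWithin x₁ (Set.Iio x₁), x ∉ Rt f ∧ idx f x = idx f x₁ := by
  have h1 : ∀ᶠ x in nhdsWithin x₁ (Set.Iio x₁), ∀ r ∈ Rt f, x ≠ r ∧ (r < x ↔ r < x₁) := by
    rw [Filter.eventually_all_finset]
    intro r hr
    rcases lt_or_ge r x₁ with h2 | h2
    · filter_upwards [mem_nhdsWithin_of_mem_nhds (lt_mem_nhds h2)] with x hx
      exact ⟨hx.ne', iff_of_true hx h2⟩
    · filter_upwards [self_mem_nhdsWithin] with x hx
      have hx' : x < x₁ := hx
      exact ⟨(hx'.trans_le h2).ne, iff_of_false (not_lt.2 (hx'.trans_le h2).le) (not_lt.2 h2)⟩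
  filter_upwards [h1] with x hx
  refine ⟨fun hxR => (hx x hxR).1 rfl, ?_⟩
  rw [idx, idx]
  congr 1
  exact Finset.filter_congr fun r hr => (hx r hr).2

theorem ev_idx_right {f : Polynomial ℝ} {x₁ : ℝ} (h : x₁ ∈ Rt f) :
    ∀ᶠ x in nhdsWithin x₁ (Set.Ioi x₁), x ∉ Rt f ∧ idx f x = idx f x₁ + 1 := by
  have h1 : ∀ᶠ x in nhdsWithin x₁ (Set.Ioi x₁), ∀ r ∈ Rt f, x ≠ r ∧ (r < x ↔ r ≤ x₁) := by
    rw [Filter.eventually_all_finset]
    intro r hr
    rcases le_or_gt r x₁ with h2 | h2
    · filter_upwards [self_mem_nhdsWithin] with x hx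
      have hx' : x₁ < x := hx
      exact ⟨(h2.trans_lt hx').ne', iff_of_true (h2.trans_lt hx') h2⟩
    · filter_upwards [mem_nhdsWithin_of_mem_nhds (gt_mem_nhds h2)] with x hx
      exact ⟨hx.ne, iff_of_false (not_lt.2 hx.le) (not_le.2 h2)⟩
  filter_upwards [h1] with x hx
  refine ⟨fun hxR => (hx x hxR).1 rfl, ?_⟩
  have e : ((Rt f).filter fun r => r < x) = insert x₁ ((Rt f).filter fun r => r < x₁) := by
    ext r
    rw [Finset.mem_filter, Finset.mem_insert, Finset.mem_filter]
    constructor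
    · rintro ⟨h2, h3⟩
      rcases ((hx r h2).2.1 h3).eq_or_lt with h4 | h4
      · exact Or.inl h4
      · exact Or.inr ⟨h2, h4⟩
    · rintro (h2 | ⟨h2, h3⟩)
      · subst h2
        exact ⟨h, (hx r h).2.2 le_rfl⟩
      · exact ⟨h2, (hx r h2).2.2 h3.le⟩
  rw [idx, e, Finset.card_insert_of_notMem, idx]
  intro h2
  exact lt_irrefl _ (Finset.mem_filter.1 h2).2

/-- The component contains a point in the rectangle with the given indices. -/
def Has (f g : Polynomial ℝ) {F : MvPolynomial (Fin 3) ℝ} (κ : ConnectedComponents (realPart F))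
    (i j : ℕ) : Prop :=
  ∃ x y, InC κ (aff x y) ∧ x ∉ Rt f ∧ y ∉ Rt g ∧ idx f x = i ∧ idx g y = j

theorem Sep.two (S : Sep F d f g) (hf : Polynomial.derivative f ≠ 0)
    (hg : Polynomial.derivative g ≠ 0) {κ : ConnectedComponents (realPart F)} {x₁ y₁ : ℝ}
    (h : InC κ (aff x₁ y₁)) (h0 : (Polynomial.derivative g).eval y₁ = 0) :
    Has f g κ (idx f x₁) (idx g y₁) ∧ Has f g κ (idx f x₁) (idx g y₁ + 1) := by
  have hfx : (Polynomial.derivative f).eval x₁ ≠ 0 := fun h1 =>
    S.symm_ns ((S.mem _ _).1 h.1) h1 h0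
  have hx : x₁ ∉ Rt f := fun h1 => hfx ((mem_Rt hf).1 h1)
  have hy : y₁ ∈ Rt g := (mem_Rt hg).2 h0
  obtain ⟨u, δ, hδ, hu, hu1, hm⟩ := S.graph_y h hfx
  have hnh : Set.Ioo (y₁ - δ) (y₁ + δ) ∈ nhds y₁ := Ioo_mem_nhds (by linarith) (by linarith)
  have hcont : ContinuousAt u y₁ := hu.continuousAt hnh
  have h1 : ∀ᶠ y in nhds y₁, u y ∉ Rt f ∧ idx f (u y) = idx f x₁ := by
    have := ev_idx hx
    rw [← hu1] at this ⊢
    exact hcont.eventually this
  constructor
  · have a1 : ∀ᶠ y in nhdsWithin y₁ (Set.Iio y₁), u y ∉ Rt f ∧ idx f (u y) = idx f x₁ :=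
      h1.filter_mono nhdsWithin_le_nhds
    have a2 : ∀ᶠ y in nhdsWithin y₁ (Set.Iio y₁), y ∈ Set.Ioo (y₁ - δ) (y₁ + δ) :=
      Filter.Eventually.filter_mono nhdsWithin_le_nhds hnh
    obtain ⟨y, hy1, hy2, hy3⟩ := (a1.and (a2.and (ev_idx_left g y₁))).exists
    exact ⟨u y, y, hm y hy2, hy1.1, hy3.1, hy1.2, hy3.2⟩
  · have a1 : ∀ᶠ y in nhdsWithin y₁ (Set.Ioi y₁), u y ∉ Rt f ∧ idx f (u y) = idx f x₁ :=
      h1.filter_mono nhdsWithin_le_nhds
    have a2 : ∀ᶠ y in nhdsWithin y₁ (Set.Ioi y₁), y ∈ Set.Ioo (y₁ - δ) (y₁ + δ) :=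
      Filter.Eventually.filter_mono nhdsWithin_le_nhds hnh
    obtain ⟨y, hy1, hy2, hy3⟩ := (a1.and (a2.and (ev_idx_right hy))).exists
    exact ⟨u y, y, hm y hy2, hy1.1, hy3.1, hy1.2, hy3.2⟩

open scoped Classical in
/-- The rectangles which meet the component. -/
def II (f g : Polynomial ℝ) (d : ℕ) {F : MvPolynomial (Fin 3) ℝ}
    (κ : ConnectedComponents (realPart F)) : Finset (ℕ × ℕ) :=
  (Finset.range d ×ˢ Finset.range d).filter fun v => Has f g κ v.1 v.2

theorem mem_II {f g : Polynomial ℝ} (hd : 1 ≤ d) (hf : f.natDegree ≤ d) (hg : g.natDegree ≤ d)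
    {κ : ConnectedComponents (realPart F)} {i j : ℕ} (h : Has f g κ i j) :
    (i, j) ∈ II f g d κ := by
  classical
  obtain ⟨x, y, h1, h2, h3, h4, h5⟩ := id h
  rw [II, Finset.mem_filter, Finset.mem_product, Finset.mem_range, Finset.mem_range]
  refine ⟨⟨?_, ?_⟩, h⟩
  · rw [← h4]; exact idx_lt hd hf x
  · rw [← h5]; exact idx_lt hd hg y

/-- A compact component meets at least four rectangles. -/
theorem Sep.four_le (S : Sep F d f g) (hd : 1 ≤ d) (hfd : f.natDegree ≤ d)
    (hgd : g.natDegree ≤ d) (hf : Polynomial.derivative f ≠ 0)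
    (hg : Polynomial.derivative g ≠ 0) {κ : ConnectedComponents (realPart F)}
    (hκ : ¬ Unb κ) : 4 ≤ (II f g d κ).card := by
  obtain ⟨x₀, y₀, x₁, y₁, h0, h1, hg0, hg1, hext⟩ := S.ext_x hκ
  obtain ⟨x₂, y₂, h2, hf2⟩ := S.ext_y hκ
  obtain ⟨h3, h4⟩ := hext x₂ y₂ h2
  have hne : x₂ ≠ x₁ := by
    rintro rfl
    exact S.symm_ns ((S.mem _ _).1 h1.1) hf2 hg1
  have hlt : idx f x₀ < idx f x₁ := idx_lt_idx ((mem_Rt hf).2 hf2) h3 (lt_of_le_of_ne h4 hne)
  obtain ⟨a1, a2⟩ := S.two hf hg h0 hg0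
  obtain ⟨b1, b2⟩ := S.two hf hg h1 hg1
  have hsub : ({(idx f x₀, idx g y₀), (idx f x₀, idx g y₀ + 1), (idx f x₁, idx g y₁),
      (idx f x₁, idx g y₁ + 1)} : Finset (ℕ × ℕ)) ⊆ II f g d κ := by
    intro v hv
    simp only [Finset.mem_insert, Finset.mem_singleton] at hv
    rcases hv with rfl | rfl | rfl | rfl
    · exact mem_II hd hfd hgd a1
    · exact mem_II hd hfd hgd a2
    · exact mem_II hd hfd hgd b1
    · exact mem_II hd hfd hgd b2
  refine le_trans (le_of_eq ?_) (Finset.card_le_card hsub)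
  rw [Finset.card_insert_of_notMem, Finset.card_insert_of_notMem, Finset.card_pair]
  · simp
  · simp only [Finset.mem_insert, Finset.mem_singleton, Prod.mk.injEq, not_or, not_and]
    constructor <;> intro h <;> omega
  · simp only [Finset.mem_insert, Finset.mem_singleton, Prod.mk.injEq, not_or, not_and]
    refine ⟨fun _ => by omega, ?_, ?_⟩ <;> intro h <;> omega

theorem Sep.disj (S : Sep F d f g) (hf : Polynomial.derivative f ≠ 0)
    (hg : Polynomial.derivative g ≠ 0) {κ κ' : ConnectedComponents (realPart F)}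
    (hne : κ ≠ κ') : Disjoint (II f g d κ) (II f g d κ') := by
  classical
  rw [Finset.disjoint_left]
  rintro ⟨i, j⟩ h h'
  obtain ⟨x, y, h1, h2, h3, h4, h5⟩ := (Finset.mem_filter.1 h).2
  obtain ⟨x', y', h1', h2', h3', h4', h5'⟩ := (Finset.mem_filter.1 h').2
  exact hne ((S.same hf hg h1 ((S.mem _ _).1 h1'.1) h2 h2' h3 h3' (h4.trans h4'.symm)
    (h5.trans h5'.symm)).unique h1')

open scoped Classical in
/-- The number of the compact components. -/
theorem Sep.card_bd (S : Sep F d f g) (hd : 1 ≤ d) (hfd : f.natDegree ≤ d)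
    (hgd : g.natDegree ≤ d) [Fintype (ConnectedComponents (realPart F))] :
    4 * (Finset.univ.filter fun κ : ConnectedComponents (realPart F) => ¬ Unb κ).card ≤
      d ^ 2 := by
  set Bd := Finset.univ.filter fun κ : ConnectedComponents (realPart F) => ¬ Unb κ with hBd
  rcases Bd.eq_empty_or_nonempty with h0 | ⟨κ₀, h0⟩
  · rw [h0]
    simp
  · have hκ₀ := (Finset.mem_filter.1 h0).2
    have hf : Polynomial.derivative f ≠ 0 := by
      obtain ⟨x₀, y₀, x₁, y₁, h0, h1, hg0, hg1, hext⟩ := S.ext_x hκ₀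
      intro hcon
      exact S.symm_ns ((S.mem _ _).1 h0.1) (by rw [hcon]; simp) hg0
    have hg : Polynomial.derivative g ≠ 0 := by
      obtain ⟨x₂, y₂, h2, hf2⟩ := S.ext_y hκ₀
      intro hcon
      exact S.symm_ns ((S.mem _ _).1 h2.1) hf2 (by rw [hcon]; simp)
    have h1 : ∀ κ ∈ Bd, 4 ≤ (II f g d κ).card := fun κ hκ =>
      S.four_le hd hfd hgd hf hg (Finset.mem_filter.1 hκ).2
    have h2 : (Bd.biUnion fun κ => II f g d κ).card = ∑ κ ∈ Bd, (II f g d κ).card :=
      Finset.card_biUnion fun κ _ κ' _ hne => S.disj hf hg hne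
    have h3 : (Bd.biUnion fun κ => II f g d κ).card ≤ d ^ 2 := by
      refine (Finset.card_le_card (t := Finset.range d ×ˢ Finset.range d) ?_).trans
        (le_of_eq ?_)
      · intro v hv
        obtain ⟨κ, _, hκ⟩ := Finset.mem_biUnion.1 hv
        exact (Finset.mem_filter.1 hκ).1
      · rw [Finset.card_product, Finset.card_range, pow_two]
    calc 4 * Bd.card = ∑ κ ∈ Bd, 4 := by rw [Finset.sum_const, smul_eq_mul, mul_comm]
      _ ≤ ∑ κ ∈ Bd, (II f g d κ).card := Finset.sum_le_sum h1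
      _ ≤ d ^ 2 := by rw [← h2]; exact h3

theorem Sep.natDegree_f (S : Sep F d f g) : f.natDegree ≤ d := by
  set P : Polynomial ℝ := ∑ m ∈ F.support, Polynomial.C (coeff m F * 0 ^ m 1) *
    Polynomial.X ^ m 0 with hP
  have h1 : f = P - Polynomial.C (g.eval 0) := by
    apply Polynomial.funext
    intro s
    have h2 := S.heq s 0
    rw [eval_eq_sum] at h2
    rw [Polynomial.eval_sub, Polynomial.eval_C, hP, Polynomial.eval_finsetSum]
    have h3 : ∑ m ∈ F.support, Polynomial.eval s (Polynomial.C (coeff m F * 0 ^ m 1) *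
        Polynomial.X ^ m 0) = ∑ m ∈ F.support, coeff m F * (s ^ m 0 * 0 ^ m 1 * 1 ^ m 2) := by
      refine Finset.sum_congr rfl fun m _ => ?_
      simp only [Polynomial.eval_mul, Polynomial.eval_C, Polynomial.eval_pow, Polynomial.eval_X,
        one_pow]
      ring
    rw [h3, h2]
    ring
  rw [h1, Polynomial.natDegree_sub_C]
  refine Polynomial.natDegree_sum_le_of_forall_le _ _ fun m hm => ?_
  have h1 := deg_le S.hF hm
  refine (Polynomial.natDegree_C_mul_X_pow_le _ _).trans ?_
  omega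

theorem Sep.natDegree_g (S : Sep F d f g) : g.natDegree ≤ d := by
  set P : Polynomial ℝ := ∑ m ∈ F.support, Polynomial.C (coeff m F * 0 ^ m 0) *
    Polynomial.X ^ m 1 with hP
  have h1 : g = P - Polynomial.C (f.eval 0) := by
    apply Polynomial.funext
    intro s
    have h2 := S.heq 0 s
    rw [eval_eq_sum] at h2
    rw [Polynomial.eval_sub, Polynomial.eval_C, hP, Polynomial.eval_finsetSum]
    have h3 : ∑ m ∈ F.support, Polynomial.eval s (Polynomial.C (coeff m F * 0 ^ m 0) *
        Polynomial.X ^ m 1) = ∑ m ∈ F.support, coeff m F * (0 ^ m 0 * s ^ m 1 * 1 ^ m 2) := by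
      refine Finset.sum_congr rfl fun m _ => ?_
      simp only [Polynomial.eval_mul, Polynomial.eval_C, Polynomial.eval_pow, Polynomial.eval_X,
        one_pow]
      ring
    rw [h3, h2]
    ring
  rw [h1, Polynomial.natDegree_sub_C]
  refine Polynomial.natDegree_sum_le_of_forall_le _ _ fun m hm => ?_
  have h1 := deg_le S.hF hm
  refine (Polynomial.natDegree_C_mul_X_pow_le _ _).trans ?_
  omega

theorem homog_sum {p : Polynomial ℝ} (hp : p.natDegree ≤ d) (t : ℝ) {z : ℝ} (hz : z ≠ 0) :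
    z ^ d * p.eval (t / z) = ∑ i ∈ Finset.range (d + 1), p.coeff i * t ^ i * z ^ (d - i) := by
  rw [Polynomial.eval_eq_sum_range' (Nat.lt_succ_of_le hp), Finset.mul_sum]
  refine Finset.sum_congr rfl fun i hi => ?_
  have hi' : i ≤ d := Nat.lt_succ_iff.1 (Finset.mem_range.1 hi)
  have e : z ^ d = z ^ i * z ^ (d - i) := by rw [← pow_add]; congr 1; omega
  rw [e, div_pow]
  field_simp

theorem homog_zero (p : Polynomial ℝ) (t : ℝ) :
    ∑ i ∈ Finset.range (d + 1), p.coeff i * t ^ i * (0 : ℝ) ^ (d - i) = p.coeff d * t ^ d := by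
  rw [Finset.sum_eq_single d]
  · simp
  · intro i hi hid
    have hi' : i < d + 1 := Finset.mem_range.1 hi
    rw [zero_pow (by omega), mul_zero]
  · intro h
    exact absurd (Finset.mem_range.2 (Nat.lt_succ_self d)) h

/-- The points at infinity. -/
theorem Sep.inf (S : Sep F d f g) (p q : ℝ) :
    eval ![p, q, 0] F = f.coeff d * p ^ d + g.coeff d * q ^ d := by
  set L : ℝ → ℝ := fun z => eval ![p, q, z] F with hL
  set R : ℝ → ℝ := fun z => ∑ i ∈ Finset.range (d + 1), f.coeff i * p ^ i * z ^ (d - i) +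
    ∑ i ∈ Finset.range (d + 1), g.coeff i * q ^ i * z ^ (d - i) with hR
  have hLc : Continuous L := by
    refine (MvPolynomial.continuous_eval F).comp ?_
    refine continuous_pi fun i => ?_
    fin_cases i
    · exact continuous_const
    · exact continuous_const
    · exact continuous_id
  have hRc : Continuous R := by
    refine Continuous.add ?_ ?_
    · exact continuous_finsetSum _ fun i _ => continuous_const.mul (continuous_pow _)
    · exact continuous_finsetSum _ fun i _ => continuous_const.mul (continuous_pow _)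
  have hLR : L = R := by
    refine Continuous.ext_on (dense_compl_singleton (0 : ℝ)) hLc hRc ?_
    intro z hz
    have hz' : z ≠ 0 := hz
    have e : ![p, q, z] = z • ![p / z, q / z, 1] := by
      ext i
      fin_cases i
      · simp [mul_div_cancel₀ _ hz']
      · simp [mul_div_cancel₀ _ hz']
      · simp
    simp only [hL, hR]
    rw [e, eval_smul' S.hF, S.heq, mul_add, homog_sum S.natDegree_f p hz',
      homog_sum S.natDegree_g q hz']
  have h0 := congrFun hLR 0
  simp only [hL, hR] at h0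
  rw [h0, homog_zero, homog_zero]

theorem inf2_mem (hF : F.IsHomogeneous d) (h : inf2 ∈ realPart F) : eval ![1, 0, 0] F = 0 := by
  have h0 : (![1, 0, 0] : Fin 3 → ℝ) ≠ 0 := by
    intro h
    have := congrFun h 0
    simp at this
  have h1 := mem_realPart hF ⟨![1, 0, 0], h0⟩
  exact h1.1 h

open scoped Classical in
theorem Sep.card_unb (S : Sep F d f g) (hd : Even d) (hd0 : d ≠ 0)
    [Fintype (ConnectedComponents (realPart F))] :
    (Finset.univ.filter fun κ : ConnectedComponents (realPart F) => Unb κ).card ≤ 2 := by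
  have hev : ∀ t, (PI F).eval t = f.coeff d * t ^ d + g.coeff d := fun t => by
    rw [eval_PI, S.inf, one_pow, mul_one]
  have h0 : f.coeff d = 0 → (PI F) ≠ 0 → (PI F).roots.toFinset = ∅ := by
    intro h1 h2
    rw [Finset.eq_empty_iff_forall_notMem]
    intro t ht
    rw [Multiset.mem_toFinset, Polynomial.mem_roots h2, Polynomial.IsRoot.def, hev, h1,
      zero_mul, zero_add] at ht
    apply h2
    apply Polynomial.funext
    intro s
    rw [hev, h1, ht]
    simp
  refine MS.card_unb S.hF (PI F).roots.toFinset 2 ?_ ?_ ?_ le_rfl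
  · intro h1 t ht
    rw [Multiset.mem_toFinset, Polynomial.mem_roots h1]
    exact ht
  · intro h1 h2
    have h3 : eval ![1, 0, 0] F = 0 := inf2_mem S.hF h2
    rw [S.inf, one_pow, zero_pow hd0, mul_one, mul_zero, add_zero] at h3
    rw [h0 h3 h1]
    simp
  · intro h1
    by_cases h2 : f.coeff d = 0
    · rw [h0 h2 h1]
      simp
    · rcases (PI F).roots.toFinset.eq_empty_or_nonempty with h3 | ⟨t₀, ht₀⟩
      · rw [h3]
        simp
      · have hroot : ∀ t ∈ (PI F).roots.toFinset, f.coeff d * t ^ d + g.coeff d = 0 := by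
          intro t ht
          rw [Multiset.mem_toFinset, Polynomial.mem_roots h1, Polynomial.IsRoot.def, hev] at ht
          exact ht
        have hsub : (PI F).roots.toFinset ⊆ {t₀, -t₀} := by
          intro t ht
          have h4 := hroot t ht
          have h5 := hroot t₀ ht₀
          have h6 : t ^ d = t₀ ^ d := by
            have : f.coeff d * t ^ d = f.coeff d * t₀ ^ d := by linarith
            exact mul_left_cancel₀ h2 this
          have h7 : |t| = |t₀| := by
            rw [← hd.pow_abs t, ← hd.pow_abs t₀] at h6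
            exact (pow_left_inj₀ (abs_nonneg _) (abs_nonneg _) hd0).1 h6
          rw [Finset.mem_insert, Finset.mem_singleton]
          exact abs_eq_abs.1 h7
        exact (Finset.card_le_card hsub).trans Finset.card_le_two

/-- The bound for separated variables. -/
theorem Sep.main (S : Sep F d f g) (hd : Even d) (hd0 : d ≠ 0)
    [Fintype (ConnectedComponents (realPart F))] :
    4 * Fintype.card (ConnectedComponents (realPart F)) ≤ d ^ 2 + 8 := by
  classical
  have h1 := S.card_bd (by omega) S.natDegree_f S.natDegree_g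
  have h2 := S.card_unb hd hd0
  have h3 := Finset.card_filter_add_card_filter_not
    (s := (Finset.univ : Finset (ConnectedComponents (realPart F)))) (fun κ => Unb κ)
  rw [Finset.card_univ] at h3
  omega

end

end Pool.Agent.H83.MS
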