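import Pool.Agent.H25.SO.Par
import Pool.Agent.H83.MS.SepCount

/-!
# Curves with separated variables: the components which meet the line at infinity
-/

open MvPolynomial Pool.Agent.H83.MC Pool.Agent.H25.SO

namespace Pool.Agent.H83.MS

noncomputable section

variable {F : MvPolynomial (Fin 3) ℝ} {d : ℕ} {f g : Polynomial ℝ}

/-- A real curve without singular points has finitely many components. -/
theorem finite_comp (C : Curve F d) : Finite (ConnectedComponents (realPart F)) := by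
  have hc : CompactSpace (realPart F) := isCompact_iff_compactSpace.1 (isCompact_realPart C.hF)
  have hdisc : DiscreteTopology (ConnectedComponents (realPart F)) := by
    rw [discreteTopology_iff_isOpen_singleton]
    intro κ
    rw [← ConnectedComponents.isQuotientMap_coe.isOpen_preimage]
    obtain ⟨γ, T, P⟩ := C.exists_par κ
    have e : (ConnectedComponents.mk : realPart F → ConnectedComponents (realPart F)) ⁻¹' {κ} =
        Orb F γ := by
      ext q
      constructor
      · intro h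
        exact (P.mem q.1).1 ⟨q.2, (Set.mem_singleton_iff.1 h).symm⟩
      · intro h
        obtain ⟨h1, h2⟩ := (P.mem q.1).2 h
        exact h2.symm
    rw [e]
    exact (C.isClopen_orb P.sol).isOpen
  exact finite_of_compact_of_discrete

theorem inf1_ne (q : ℝ) : (![q, 1, 0] : Fin 3 → ℝ) ≠ 0 := by
  intro h
  have := congrFun h 1
  simp at this

/-- The derivatives at infinity. -/
theorem Sep.pd_inf (S : Sep F d f g) (p q : ℝ) :
    pd F 0 ![p, q, 0] = f.coeff d * (d * p ^ (d - 1)) ∧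
      pd F 1 ![p, q, 0] = g.coeff d * (d * q ^ (d - 1)) := by
  constructor
  · have h := hasDerivAt_eval F (fun s => ![s, q, 0]) ![1, 0, 0] p (by
      intro i
      fin_cases i
      · simpa using hasDerivAt_id' p
      · simpa using hasDerivAt_const p q
      · simpa using hasDerivAt_const p (0 : ℝ))
    have e : (fun s => eval ![s, q, 0] F) = fun s => f.coeff d * s ^ d + g.coeff d * q ^ d := by
      funext s
      exact S.inf s q
    rw [e] at h
    have h2 := ((hasDerivAt_pow d p).const_mul (f.coeff d)).add_const (g.coeff d * q ^ d)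
    have h3 := h.unique h2
    simpa [pd, Fin.sum_univ_three] using h3
  · have h := hasDerivAt_eval F (fun s => ![p, s, 0]) ![0, 1, 0] q (by
      intro i
      fin_cases i
      · simpa using hasDerivAt_const q p
      · simpa using hasDerivAt_id' q
      · simpa using hasDerivAt_const q (0 : ℝ))
    have e : (fun s => eval ![p, s, 0] F) = fun s => f.coeff d * p ^ d + g.coeff d * s ^ d := by
      funext s
      exact S.inf p s
    rw [e] at h
    have h2 := ((hasDerivAt_pow d q).const_mul (g.coeff d)).const_add (f.coeff d * p ^ d)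
    have h3 := h.unique h2
    simpa [pd, Fin.sum_univ_three] using h3

/-- The curve is transversal to the line at infinity. -/
theorem Sep.fld_ne (S : Sep F d f g) (hd0 : 0 < d) (ha : f.coeff d ≠ 0) (hb : g.coeff d ≠ 0)
    {v : Fin 3 → ℝ} (hv : v ≠ 0) (h2 : v 2 = 0) (h : eval v F = 0) : fld F v 2 ≠ 0 := by
  have hvv : v = ![v 0, v 1, 0] := by
    ext i
    fin_cases i
    · rfl
    · rfl
    · exact h2
  obtain ⟨e0, e1⟩ := S.pd_inf (v 0) (v 1)
  rw [← hvv] at e0 e1
  have h0 : f.coeff d * v 0 ^ d + g.coeff d * v 1 ^ d = 0 := by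
    rw [← S.inf, ← hvv]
    exact h
  have hfld : fld F v 2 = v 0 * pd F 1 v - v 1 * pd F 0 v := rfl
  rw [hfld, e0, e1]
  intro hz
  have hd' : (d : ℝ) ≠ 0 := by exact_mod_cast hd0.ne'
  have hz' : v 0 * (g.coeff d * v 1 ^ (d - 1)) = v 1 * (f.coeff d * v 0 ^ (d - 1)) := by
    have : (d : ℝ) * (v 0 * (g.coeff d * v 1 ^ (d - 1)) -
        v 1 * (f.coeff d * v 0 ^ (d - 1))) = 0 := by linear_combination hz
    exact sub_eq_zero.1 ((mul_eq_zero.1 this).resolve_left hd')
  have p0 : v 0 ^ d = v 0 * v 0 ^ (d - 1) := by rw [← pow_succ']; congr 1; omega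
  have p1 : v 1 ^ d = v 1 * v 1 ^ (d - 1) := by rw [← pow_succ']; congr 1; omega
  have hkey : g.coeff d * v 1 ^ d * (v 0 ^ 2 + v 1 ^ 2) = 0 := by
    have e2 : v 0 ^ 2 * (g.coeff d * v 1 ^ d) = v 1 ^ 2 * (f.coeff d * v 0 ^ d) := by
      rw [p0, p1]
      linear_combination (v 0 * v 1) * hz'
    linear_combination e2 + v 1 ^ 2 * h0
  have h1 : v 1 = 0 := by
    rcases mul_eq_zero.1 hkey with h3 | h3
    · exact eq_zero_of_pow_eq_zero ((mul_eq_zero.1 h3).resolve_left hb)
    · nlinarith [sq_nonneg (v 0), sq_nonneg (v 1)]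
  rw [h1, zero_pow hd0.ne', mul_zero, add_zero] at h0
  have h3 : v 0 = 0 := eq_zero_of_pow_eq_zero ((mul_eq_zero.1 h0).resolve_left ha)
  apply hv
  ext i
  fin_cases i
  · exact h3
  · exact h1
  · exact h2

/-- A zero with a change of sign of a periodic function is followed by another zero. -/
theorem exists_zero' {h : ℝ → ℝ} {c t₀ L : ℝ} (hc : Continuous h) (hd : HasDerivAt h c t₀)
    (h0 : h t₀ = 0) (hne : c ≠ 0) (hL : 0 < L) (hper : ∀ u, h (u + L) = h u) :
    ∃ t₁, t₀ < t₁ ∧ t₁ < t₀ + L ∧ h t₁ = 0 := by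
  -- the case of a positive derivative
  have key : ∀ (h : ℝ → ℝ) (c : ℝ), Continuous h → HasDerivAt h c t₀ → h t₀ = 0 → 0 < c →
      (∀ u, h (u + L) = h u) → ∃ t₁, t₀ < t₁ ∧ t₁ < t₀ + L ∧ h t₁ = 0 := by
    intro h c hc hd h0 hpos hper
    have hsl : ∀ᶠ t in nhdsWithin t₀ {t₀}ᶜ, 0 < slope h t₀ t :=
      (hasDerivAt_iff_tendsto_slope.1 hd).eventually (lt_mem_nhds hpos)
    rw [eventually_nhdsWithin_iff] at hsl
    obtain ⟨η, hη, hb⟩ := Metric.eventually_nhds_iff_ball.1 hsl
    set r := min (η / 2) (L / 3) with hr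
    have hr0 : 0 < r := lt_min (by linarith) (by linarith)
    have hrη : r < η := lt_of_le_of_lt (min_le_left _ _) (by linarith)
    have hrL : r ≤ L / 3 := min_le_right _ _
    have b1 := hb (t₀ - r) (by rw [Metric.mem_ball, Real.dist_eq]; simpa [abs_of_pos hr0] using hrη)
      (by simpa using hr0.ne')
    have b2 := hb (t₀ + r) (by rw [Metric.mem_ball, Real.dist_eq]; simpa [abs_of_pos hr0] using hrη)
      (by simpa using hr0.ne')
    have c1 : h (t₀ - r) < 0 := by
      rw [slope_def_field, h0, sub_zero] at b1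
      have e : t₀ - r - t₀ = -r := by ring
      rw [e, div_pos_iff] at b1
      rcases b1 with b | b
      · linarith [b.2]
      · linarith [b.1]
    have c2 : 0 < h (t₀ + r) := by
      rw [slope_def_field, h0, sub_zero] at b2
      have e : t₀ + r - t₀ = r := by ring
      rw [e, div_pos_iff] at b2
      rcases b2 with b | b
      · linarith [b.1]
      · linarith [b.2]
    have c3 : h (t₀ - r + L) < 0 := by rw [hper]; exact c1
    obtain ⟨t, ht, ht0⟩ := intermediate_value_Icc' (show t₀ + r ≤ t₀ - r + L by linarith)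
      hc.continuousOn (show (0 : ℝ) ∈ _ from ⟨c3.le, c2.le⟩)
    exact ⟨t, by linarith [ht.1], by linarith [ht.2], ht0⟩
  rcases lt_or_gt_of_ne hne with hn | hp
  · obtain ⟨t, h1, h2, h3⟩ := key (fun x => -h x) (-c) hc.neg hd.neg (by simp [h0]) (by linarith)
      (fun u => by simp [hper])
    exact ⟨t, h1, h2, by simpa using h3⟩
  · exact key h c hc hd h0 hp hper

theorem ph_pr {v : Fin 3 → ℝ} (hv : v ≠ 0) : ph (pr v) = v 2 ^ 2 / (v 0 ^ 2 + v 1 ^ 2 + v 2 ^ 2) := by
  rw [pr_of hv]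
  rfl

theorem ph_pr_eq_zero {v : Fin 3 → ℝ} (hv : v ≠ 0) : ph (pr v) = 0 ↔ v 2 = 0 := by
  rw [ph_pr hv, div_eq_zero_iff]
  have := (sq_sum_pos ⟨v, hv⟩).ne'
  constructor
  · rintro (h | h)
    · exact pow_eq_zero_iff (by norm_num) |>.1 h
    · exact absurd h this
  · intro h
    left
    rw [h]
    norm_num

/-- A component which meets the line at infinity meets it in two points, and it contains a point of
the chart. -/
theorem Sep.two_inf (S : Sep F d f g) (hd : Even d) (hd0 : 0 < d) (ha : f.coeff d ≠ 0)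
    (hb : g.coeff d ≠ 0) {κ : ConnectedComponents (realPart F)} (hκ : Unb κ) :
    (∃ p q, p ≠ q ∧ InC κ p ∧ InC κ q ∧ ph p = 0 ∧ ph q = 0) ∧ ∃ x y, InC κ (aff x y) := by
  have C : Curve F d := ⟨S.hF, hd, hd0, S.hns⟩
  obtain ⟨γ, T, P⟩ := C.exists_par κ
  obtain ⟨p, hp, hp0⟩ := hκ
  obtain ⟨t₀, rfl⟩ := (P.mem p).1 hp
  have h2 : γ t₀ 2 = 0 := (ph_pr_eq_zero (P.sol.ne t₀)).1 hp0
  have hne := S.fld_ne hd0 ha hb (P.sol.ne t₀) h2 (P.sol.zero t₀)
  have hder : HasDerivAt (fun t => γ t 2) (fld F (γ t₀) 2) t₀ :=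
    (hasDerivAt_pi.1 (P.sol.deriv t₀)) 2
  have hcont : Continuous fun t => γ t 2 := (continuous_apply 2).comp P.sol.cont
  obtain ⟨t₁, h3, h4, h5⟩ := exists_zero' hcont hder h2 hne P.pos (fun u => by rw [P.per])
  refine ⟨⟨pr (γ t₀), pr (γ t₁), ?_, hp, (P.mem _).2 ⟨t₁, rfl⟩, hp0,
    (ph_pr_eq_zero (P.sol.ne t₁)).2 h5⟩, ?_⟩
  · intro h
    obtain ⟨n, hn⟩ := P.pr_inj C h
    have hT := P.pos
    have h6 : (n : ℝ) < 0 := by nlinarith
    have h7 : (-1 : ℝ) < n := by nlinarith
    have h8 : n < 0 := by exact_mod_cast h6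
    have h9 : -1 < n := by exact_mod_cast h7
    omega
  · by_contra hcon
    push Not at hcon
    have h6 : ∀ t, γ t 2 = 0 := by
      intro t
      by_contra ht
      obtain ⟨a, b, hab⟩ := exists_aff (p := pr (γ t))
        (fun h => ht ((ph_pr_eq_zero (P.sol.ne t)).1 h))
      exact hcon a b (by rw [← hab]; exact (P.mem _).2 ⟨t, rfl⟩)
    have h7 : HasDerivAt (fun t => γ t 2) 0 t₀ := by
      have : (fun t => γ t 2) = fun _ => (0 : ℝ) := funext h6
      rw [this]
      exact hasDerivAt_const _ _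
    exact hne (hder.unique h7)

theorem Sep.inf_form (S : Sep F d f g) (hd0 : 0 < d) (ha : f.coeff d ≠ 0) {p : RP2}
    (hp : p ∈ realPart F) (h0 : ph p = 0) :
    ∃ t, p = inf1 t ∧ f.coeff d * t ^ d + g.coeff d = 0 := by
  rcases exists_inf12 h0 with ⟨t, rfl⟩ | rfl
  · refine ⟨t, rfl, ?_⟩
    have := (inf1_mem S.hF t).1 hp
    rwa [eval_PI, S.inf, one_pow, mul_one] at this
  · exfalso
    have h3 : eval ![1, 0, 0] F = 0 := inf2_mem S.hF hp
    rw [S.inf, one_pow, zero_pow hd0.ne', mul_one, mul_zero, add_zero] at h3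
    exact ha h3

/-- At most one component meets the line at infinity. -/
theorem Sep.unb_unique (S : Sep F d f g) (hd : Even d) (hd0 : 0 < d) (ha : f.coeff d ≠ 0)
    (hb : g.coeff d ≠ 0) {κ κ' : ConnectedComponents (realPart F)} (hκ : Unb κ) (hκ' : Unb κ') :
    κ = κ' := by
  obtain ⟨⟨p, q, hpq, hp, hq, hp0, hq0⟩, -⟩ := S.two_inf hd hd0 ha hb hκ
  obtain ⟨r, hr, hr0⟩ := hκ'
  obtain ⟨t₁, rfl, e1⟩ := S.inf_form hd0 ha hp.1 hp0
  obtain ⟨t₂, rfl, e2⟩ := S.inf_form hd0 ha hq.1 hq0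
  obtain ⟨t₃, rfl, e3⟩ := S.inf_form hd0 ha hr.1 hr0
  have habs : ∀ s t : ℝ, f.coeff d * s ^ d + g.coeff d = 0 → f.coeff d * t ^ d + g.coeff d = 0 →
      |s| = |t| := by
    intro s t h4 h5
    have h6 : s ^ d = t ^ d := by
      have : f.coeff d * s ^ d = f.coeff d * t ^ d := by linarith
      exact mul_left_cancel₀ ha this
    rw [← hd.pow_abs s, ← hd.pow_abs t] at h6
    exact (pow_left_inj₀ (abs_nonneg _) (abs_nonneg _) hd0.ne').1 h6
  rcases abs_eq_abs.1 (habs _ _ e3 e1) with h | h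
  · rw [h] at hr
    exact hp.unique hr
  · rcases abs_eq_abs.1 (habs _ _ e3 e2) with h' | h'
    · rw [h'] at hr
      exact hq.unique hr
    · exfalso
      apply hpq
      have : t₁ = t₂ := by linarith
      rw [this]

theorem Sep.has_of_aff (S : Sep F d f g) (hf : Polynomial.derivative f ≠ 0)
    (hg : Polynomial.derivative g ≠ 0) {κ : ConnectedComponents (realPart F)} {x₁ y₁ : ℝ}
    (h : InC κ (aff x₁ y₁)) : ∃ i j, Has f g κ i j := by
  by_cases hy : y₁ ∈ Rt g
  · exact ⟨_, _, (S.two hf hg h ((mem_Rt hg).1 hy)).1⟩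
  by_cases hx : x₁ ∈ Rt f
  · have hgy : (Polynomial.derivative g).eval y₁ ≠ 0 := fun h1 => hy ((mem_Rt hg).2 h1)
    obtain ⟨u, δ, hδ, hu, hu1, hm⟩ := S.graph_x h hgy
    have hnh : Set.Ioo (x₁ - δ) (x₁ + δ) ∈ nhds x₁ := Ioo_mem_nhds (by linarith) (by linarith)
    have hcont : ContinuousAt u x₁ := hu.continuousAt hnh
    have h1 : ∀ᶠ x in nhds x₁, u x ∉ Rt g ∧ idx g (u x) = idx g y₁ := by
      have := ev_idx hy
      rw [← hu1] at this ⊢
      exact hcont.eventually this
    have a1 : ∀ᶠ x in nhdsWithin x₁ (Set.Iio x₁), u x ∉ Rt g ∧ idx g (u x) = idx g y₁ :=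
      h1.filter_mono nhdsWithin_le_nhds
    have a2 : ∀ᶠ x in nhdsWithin x₁ (Set.Iio x₁), x ∈ Set.Ioo (x₁ - δ) (x₁ + δ) :=
      Filter.Eventually.filter_mono nhdsWithin_le_nhds hnh
    obtain ⟨x, hx1, hx2, hx3⟩ := (a1.and (a2.and (ev_idx_left f x₁))).exists
    exact ⟨_, _, x, u x, hm x hx2, hx3.1, hx1.1, rfl, rfl⟩
  · exact ⟨_, _, x₁, y₁, h, hx, hy, rfl, rfl⟩

/-- The number of the rectangles which meet the components. -/
theorem Sep.cells (S : Sep F d f g) (hf : Polynomial.derivative f ≠ 0)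
    (hg : Polynomial.derivative g ≠ 0) {m n : ℕ} (hm : 1 ≤ m) (hn : 1 ≤ n)
    (hfm : f.natDegree ≤ m) (hgn : g.natDegree ≤ n)
    (T : Finset (ConnectedComponents (realPart F))) :
    ∑ κ ∈ T, (II f g d κ).card ≤ m * n := by
  classical
  have h2 : (T.biUnion fun κ => II f g d κ).card = ∑ κ ∈ T, (II f g d κ).card :=
    Finset.card_biUnion fun κ _ κ' _ hne => S.disj hf hg hne
  rw [← h2]
  refine (Finset.card_le_card (t := Finset.range m ×ˢ Finset.range n) ?_).trans (le_of_eq ?_)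
  · intro v hv
    obtain ⟨κ, _, hκ⟩ := Finset.mem_biUnion.1 hv
    obtain ⟨x, y, h1, h2, h3, h4, h5⟩ := (Finset.mem_filter.1 hκ).2
    rw [Finset.mem_product, Finset.mem_range, Finset.mem_range, ← h4, ← h5]
    exact ⟨idx_lt hm hfm x, idx_lt hn hgn y⟩
  · rw [Finset.card_product, Finset.card_range, Finset.card_range]

theorem le_pred_of {p : Polynomial ℝ} (h : p.natDegree ≤ d) (h0 : p.coeff d = 0) (hd : 1 ≤ d) :
    p.natDegree ≤ d - 1 := by
  rcases h.lt_or_eq with h1 | h1
  · omega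
  · have : p.leadingCoeff = 0 := by rw [Polynomial.leadingCoeff, h1, h0]
    rw [Polynomial.leadingCoeff_eq_zero] at this
    rw [this]
    simp

end

end Pool.Agent.H83.MS
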