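import Pool.Agent.H83.MS.Chart

/-!
# Curves with separated variables: local structure
-/

open MvPolynomial Pool.Agent.H83.MC

namespace Pool.Agent.H83.MS

noncomputable section

/-- The affine equation of the curve is `f (x) + g (y) = 0`. -/
structure Sep (F : MvPolynomial (Fin 3) ℝ) (d : ℕ) (f g : Polynomial ℝ) : Prop where
  hF : F.IsHomogeneous d
  hns : ∀ v : Fin 3 → ℝ, v ≠ 0 → eval v F = 0 → ∃ i, eval v (pderiv i F) ≠ 0
  heq : ∀ x y : ℝ, eval ![x, y, 1] F = f.eval x + g.eval y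

variable {F : MvPolynomial (Fin 3) ℝ} {d : ℕ} {f g : Polynomial ℝ}

theorem vec3_ne (x y : ℝ) : ![x, y, 1] ≠ 0 := by
  intro h
  have := congrFun h 2
  simp at this

theorem hasDerivAt_x (F : MvPolynomial (Fin 3) ℝ) (x y : ℝ) :
    HasDerivAt (fun s => eval ![s, y, 1] F) (eval ![x, y, 1] (pderiv 0 F)) x := by
  have h := hasDerivAt_eval F (fun s => ![s, y, 1]) ![1, 0, 0] x (by
      intro i
      fin_cases i
      · simpa using hasDerivAt_id' x
      · simpa using hasDerivAt_const x y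
      · simpa using hasDerivAt_const x (1 : ℝ))
  simpa [Fin.sum_univ_three] using h

theorem hasDerivAt_y (F : MvPolynomial (Fin 3) ℝ) (x y : ℝ) :
    HasDerivAt (fun s => eval ![x, s, 1] F) (eval ![x, y, 1] (pderiv 1 F)) y := by
  have h := hasDerivAt_eval F (fun s => ![x, s, 1]) ![0, 1, 0] y (by
      intro i
      fin_cases i
      · simpa using hasDerivAt_const y x
      · simpa using hasDerivAt_id' y
      · simpa using hasDerivAt_const y (1 : ℝ))
  simpa [Fin.sum_univ_three] using h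

/-- A singular point of the affine equation is a singular point. -/
theorem ns_aff (hF : F.IsHomogeneous d)
    (hns : ∀ v : Fin 3 → ℝ, v ≠ 0 → eval v F = 0 → ∃ i, eval v (pderiv i F) ≠ 0) {x y : ℝ}
    (h : eval ![x, y, 1] F = 0) (h0 : eval ![x, y, 1] (pderiv 0 F) = 0) :
    eval ![x, y, 1] (pderiv 1 F) ≠ 0 := by
  intro h1
  obtain ⟨i, hi⟩ := hns _ (vec3_ne x y) h
  have e2 := congrArg (eval ![x, y, 1]) (hF.sum_X_mul_pderiv)
  simp only [Fin.sum_univ_three, map_nsmul, map_add, map_mul, eval_X] at e2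
  rw [h, h0, h1] at e2
  simp only [smul_zero, Matrix.cons_val] at e2
  fin_cases i
  · exact hi h0
  · exact hi h1
  · apply hi
    change eval ![x, y, 1] (pderiv 2 F) = 0
    linarith

theorem Sep.symm_ns (S : Sep F d f g) {x y : ℝ} (h : f.eval x + g.eval y = 0)
    (h0 : (Polynomial.derivative f).eval x = 0) : (Polynomial.derivative g).eval y ≠ 0 := by
  have h' : eval ![x, y, 1] F = 0 := by rw [S.heq, h]
  have e0 : eval ![x, y, 1] (pderiv 0 F) = (Polynomial.derivative f).eval x := by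
    have h1 := hasDerivAt_x F x y
    have : (fun s => eval ![s, y, 1] F) = fun s => f.eval s + g.eval y := by
      funext s
      exact S.heq s y
    rw [this] at h1
    exact h1.unique ((f.hasDerivAt x).add_const _)
  have e1 : eval ![x, y, 1] (pderiv 1 F) = (Polynomial.derivative g).eval y := by
    have h1 := hasDerivAt_y F x y
    have : (fun s => eval ![x, s, 1] F) = fun s => f.eval x + g.eval s := by
      funext s
      exact S.heq x s
    rw [this] at h1
    exact h1.unique ((g.hasDerivAt y).const_add _)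
  rw [← e1]
  exact ns_aff S.hF S.hns h' (by rw [e0, h0])

theorem Sep.mem (S : Sep F d f g) (x y : ℝ) :
    aff x y ∈ realPart F ↔ f.eval x + g.eval y = 0 := by
  rw [aff_mem S.hF, S.heq]

theorem contDiff_fg (f g : Polynomial ℝ) :
    ContDiff ℝ 1 fun v : ℝ × ℝ => f.eval v.1 + g.eval v.2 :=
  ((contDiff_poly f).comp contDiff_fst).add ((contDiff_poly g).comp contDiff_snd)

/-- If the derivative of `g` is not zero, the component is locally a graph over the first
coordinate. -/
theorem Sep.graph_x (S : Sep F d f g) {κ : ConnectedComponents (realPart F)} {a b : ℝ}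
    (h : InC κ (aff a b)) (hg : (Polynomial.derivative g).eval b ≠ 0) :
    ∃ (u : ℝ → ℝ) (δ : ℝ), 0 < δ ∧ ContinuousOn u (Set.Ioo (a - δ) (a + δ)) ∧ u a = b ∧
      ∀ x ∈ Set.Ioo (a - δ) (a + δ), InC κ (aff x (u x)) := by
  have h0 : f.eval a + g.eval b = 0 := (S.mem a b).1 h.1
  have hder : HasDerivAt (fun y => f.eval a + g.eval y) ((Polynomial.derivative g).eval b) b :=
    (g.hasDerivAt b).const_add _
  obtain ⟨u, δ, hδ, hu, hua, hz⟩ := exists_implicit (contDiff_fg f g) (a := a) (b := b) h0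
    hder hg
  refine ⟨u, δ, hδ, hu, hua, fun x hx => ?_⟩
  have ha : a ∈ Set.Ioo (a - δ) (a + δ) := ⟨by linarith, by linarith⟩
  have hc : ContinuousOn (fun x : ℝ => aff x (u x)) (Set.Ioo (a - δ) (a + δ)) :=
    continuous_aff.comp_continuousOn (continuousOn_id.prodMk hu)
  have h' : InC κ (aff a (u a)) := by rw [hua]; exact h
  exact InC.path isPreconnected_Ioo hc (fun x hx => (S.mem _ _).2 (hz x hx)) ha hx h'

theorem exists_implicit2 {F : ℝ → ℝ → ℝ} (hf : ContDiff ℝ 1 fun x : ℝ × ℝ => F x.2 x.1)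
    {a b c : ℝ} (h0 : F b a = 0) (hc : HasDerivAt (fun y => F y a) c b) (hc0 : c ≠ 0) :
    ∃ (g : ℝ → ℝ) (δ : ℝ), 0 < δ ∧ ContinuousOn g (Set.Ioo (a - δ) (a + δ)) ∧ g a = b ∧
      ∀ x ∈ Set.Ioo (a - δ) (a + δ), F (g x) x = 0 :=
  exists_implicit' hf h0 hc hc0

/-- If the derivative of `f` is not zero, the component is locally a graph over the second
coordinate. -/
theorem Sep.graph_y (S : Sep F d f g) {κ : ConnectedComponents (realPart F)} {a b : ℝ}
    (h : InC κ (aff b a)) (hf : (Polynomial.derivative f).eval b ≠ 0) :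
    ∃ (u : ℝ → ℝ) (δ : ℝ), 0 < δ ∧ ContinuousOn u (Set.Ioo (a - δ) (a + δ)) ∧ u a = b ∧
      ∀ y ∈ Set.Ioo (a - δ) (a + δ), InC κ (aff (u y) y) := by
  have h0 : f.eval b + g.eval a = 0 := (S.mem b a).1 h.1
  have hcd : ContDiff ℝ 1 fun v : ℝ × ℝ => f.eval v.2 + g.eval v.1 :=
    ((contDiff_poly f).comp contDiff_snd).add ((contDiff_poly g).comp contDiff_fst)
  obtain ⟨u, δ, hδ, hu, hua, hz⟩ := exists_implicit2 (F := fun x y => f.eval x + g.eval y)
    hcd (a := a) (b := b) h0 ((f.hasDerivAt b).add_const _) hf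
  refine ⟨u, δ, hδ, hu, hua, fun x hx => ?_⟩
  have ha : a ∈ Set.Ioo (a - δ) (a + δ) := ⟨by linarith, by linarith⟩
  have hc : ContinuousOn (fun x : ℝ => aff (u x) x) (Set.Ioo (a - δ) (a + δ)) :=
    continuous_aff.comp_continuousOn (hu.prodMk continuousOn_id)
  have h' : InC κ (aff (u a) a) := by rw [hua]; exact h
  exact InC.path isPreconnected_Ioo hc (fun x hx => (S.mem _ _).2 (hz x hx)) ha hx h'

/-- The extreme values of the first coordinate on a compact component are at the critical points of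
`g`. -/
theorem Sep.ext_x (S : Sep F d f g) {κ : ConnectedComponents (realPart F)} (hκ : ¬ Unb κ) :
    ∃ x₀ y₀ x₁ y₁, InC κ (aff x₀ y₀) ∧ InC κ (aff x₁ y₁) ∧
      (Polynomial.derivative g).eval y₀ = 0 ∧ (Polynomial.derivative g).eval y₁ = 0 ∧
      ∀ x y, InC κ (aff x y) → x₀ ≤ x ∧ x ≤ x₁ := by
  have hK := isCompact_SK S.hF hκ
  have hne := SK_nonempty hκ
  obtain ⟨v, hv, hmin⟩ := hK.exists_isMinOn hne (f := Prod.fst) continuous_fst.continuousOn
  obtain ⟨w, hw, hmax⟩ := hK.exists_isMaxOn hne (f := Prod.fst) continuous_fst.continuousOn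
  refine ⟨v.1, v.2, w.1, w.2, hv, hw, ?_, ?_, fun x y h =>
    ⟨hmin (a := (x, y)) h, hmax (a := (x, y)) h⟩⟩
  · by_contra hg
    obtain ⟨u, δ, hδ, _, _, hm⟩ := S.graph_x hv hg
    have h1 := hm (v.1 - δ / 2) ⟨by linarith, by linarith⟩
    have h2 : v.1 ≤ v.1 - δ / 2 := hmin (a := (v.1 - δ / 2, u (v.1 - δ / 2))) h1
    linarith
  · by_contra hg
    obtain ⟨u, δ, hδ, _, _, hm⟩ := S.graph_x hw hg
    have h1 := hm (w.1 + δ / 2) ⟨by linarith, by linarith⟩
    have h2 : w.1 + δ / 2 ≤ w.1 := hmax (a := (w.1 + δ / 2, u (w.1 + δ / 2))) h1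
    linarith

/-- The second coordinate has a maximum on a compact component, at a critical point of `f`. -/
theorem Sep.ext_y (S : Sep F d f g) {κ : ConnectedComponents (realPart F)} (hκ : ¬ Unb κ) :
    ∃ x y, InC κ (aff x y) ∧ (Polynomial.derivative f).eval x = 0 := by
  have hK := isCompact_SK S.hF hκ
  have hne := SK_nonempty hκ
  obtain ⟨w, hw, hmax⟩ := hK.exists_isMaxOn hne (f := Prod.snd) continuous_snd.continuousOn
  refine ⟨w.1, w.2, hw, ?_⟩
  by_contra hf
  obtain ⟨u, δ, hδ, _, _, hm⟩ := S.graph_y hw hf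
  have h1 := hm (w.2 + δ / 2) ⟨by linarith, by linarith⟩
  have h2 : w.2 + δ / 2 ≤ w.2 := hmax (a := (u (w.2 + δ / 2), w.2 + δ / 2)) h1
  linarith

/-- The critical points of a polynomial. -/
def Rt (f : Polynomial ℝ) : Finset ℝ := (Polynomial.derivative f).roots.toFinset

theorem mem_Rt {f : Polynomial ℝ} (hf : Polynomial.derivative f ≠ 0) {x : ℝ} :
    x ∈ Rt f ↔ (Polynomial.derivative f).eval x = 0 := by
  rw [Rt, Multiset.mem_toFinset, Polynomial.mem_roots hf, Polynomial.IsRoot.def]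

theorem card_Rt {f : Polynomial ℝ} {d : ℕ} (hf : f.natDegree ≤ d) : (Rt f).card ≤ d - 1 := by
  refine (Multiset.toFinset_card_le _).trans ((Polynomial.card_roots' _).trans ?_)
  have := Polynomial.natDegree_derivative_le f
  omega

/-- The number of the critical points on the left of `x`. -/
def idx (f : Polynomial ℝ) (x : ℝ) : ℕ := ((Rt f).filter fun r => r < x).card

theorem idx_lt {f : Polynomial ℝ} {d : ℕ} (hd : 1 ≤ d) (hf : f.natDegree ≤ d) (x : ℝ) :
    idx f x < d := by
  have h1 := card_Rt hf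
  have h2 := Finset.card_filter_le (Rt f) fun r => r < x
  rw [idx]
  omega

theorem idx_mono (f : Polynomial ℝ) {x y : ℝ} (h : x ≤ y) : idx f x ≤ idx f y :=
  Finset.card_le_card fun r hr => by
    rw [Finset.mem_filter] at hr ⊢
    exact ⟨hr.1, lt_of_lt_of_le hr.2 h⟩

theorem idx_lt_idx {f : Polynomial ℝ} {x y r : ℝ} (hr : r ∈ Rt f) (h1 : x ≤ r) (h2 : r < y) :
    idx f x < idx f y := by
  apply Finset.card_lt_card
  rw [Finset.ssubset_iff_of_subset]
  · exact ⟨r, Finset.mem_filter.2 ⟨hr, h2⟩, fun h => absurd (Finset.mem_filter.1 h).2 (not_lt.2 h1)⟩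
  · intro s hs
    rw [Finset.mem_filter] at hs ⊢
    exact ⟨hs.1, hs.2.trans (lt_of_le_of_lt h1 h2)⟩

theorem no_root {f : Polynomial ℝ} {x y : ℝ} (hx : x ∉ Rt f) (hy : y ∉ Rt f)
    (h : idx f x = idx f y) : ∀ r ∈ Set.uIcc x y, r ∉ Rt f := by
  intro r hr hrR
  rcases le_total x y with hxy | hxy
  · rw [Set.uIcc_of_le hxy] at hr
    have h2 : r < y := lt_of_le_of_ne hr.2 (by rintro rfl; exact hy hrR)
    exact absurd h (idx_lt_idx hrR hr.1 h2).ne
  · rw [Set.uIcc_of_ge hxy] at hr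
    have h2 : r < x := lt_of_le_of_ne hr.2 (by rintro rfl; exact hx hrR)
    exact absurd h (idx_lt_idx hrR hr.1 h2).ne'

/-- A polynomial is injective between two consecutive critical points. -/
theorem inj_of_no_root {f : Polynomial ℝ} (hf : Polynomial.derivative f ≠ 0) {x y : ℝ}
    (h : ∀ r ∈ Set.uIcc x y, r ∉ Rt f) : Set.InjOn (fun t => f.eval t) (Set.uIcc x y) := by
  have key : ∀ a ∈ Set.uIcc x y, ∀ b ∈ Set.uIcc x y, a < b → f.eval a ≠ f.eval b := by
    intro a ha b hb hab heq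
    obtain ⟨c, hc, hc0⟩ := exists_hasDerivAt_eq_zero (f := fun t => f.eval t)
      (f' := fun t => (Polynomial.derivative f).eval t) hab f.continuous.continuousOn heq
      (fun t _ => f.hasDerivAt t)
    exact h c (Set.ordConnected_uIcc.out ha hb (Set.Ioo_subset_Icc_self hc)) ((mem_Rt hf).2 hc0)
  intro a ha b hb hab
  rcases lt_trichotomy a b with h1 | h1 | h1
  · exact absurd hab (key a ha b hb h1)
  · exact h1
  · exact absurd hab.symm (key b hb a ha h1)

theorem eval_mem_uIcc {f : Polynomial ℝ} {x y : ℝ}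
    (h : Set.InjOn (fun t => f.eval t) (Set.uIcc x y)) {t : ℝ} (ht : t ∈ Set.uIcc x y) :
    f.eval t ∈ Set.uIcc (f.eval x) (f.eval y) := by
  wlog hxy : x ≤ y generalizing x y
  · rw [Set.uIcc_comm] at h ht ⊢
    exact this h ht (le_of_not_ge hxy)
  rw [Set.uIcc_of_le hxy] at h ht
  rcases ContinuousOn.strictMonoOn_of_injOn_Icc' hxy f.continuous.continuousOn h with h1 | h1
  · exact Set.mem_uIcc.2 (Or.inl ⟨h1.monotoneOn (Set.left_mem_Icc.2 hxy) ht ht.1,
      h1.monotoneOn ht (Set.right_mem_Icc.2 hxy) ht.2⟩)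
  · exact Set.mem_uIcc.2 (Or.inr ⟨h1.antitoneOn ht (Set.right_mem_Icc.2 hxy) ht.2,
      h1.antitoneOn (Set.left_mem_Icc.2 hxy) ht ht.1⟩)

/-- Two points of the curve in one rectangle between critical points are in the same component. -/
theorem Sep.same (S : Sep F d f g) (hf : Polynomial.derivative f ≠ 0)
    (hg : Polynomial.derivative g ≠ 0) {κ : ConnectedComponents (realPart F)}
    {x y x' y' : ℝ} (h : InC κ (aff x y)) (h' : f.eval x' + g.eval y' = 0)
    (hx : x ∉ Rt f) (hx' : x' ∉ Rt f) (hy : y ∉ Rt g) (hy' : y' ∉ Rt g)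
    (h1 : idx f x = idx f x') (h2 : idx g y = idx g y') : InC κ (aff x' y') := by
  have h0 : f.eval x + g.eval y = 0 := (S.mem x y).1 h.1
  have if' := inj_of_no_root hf (no_root hx hx' h1)
  have ig' := inj_of_no_root hg (no_root hy hy' h2)
  set K : Set (ℝ × ℝ) := {v | v.1 ∈ Set.uIcc x x' ∧ v.2 ∈ Set.uIcc y y' ∧
    f.eval v.1 + g.eval v.2 = 0} with hK
  have hKc : IsCompact K := by
    have e : K = (Set.uIcc x x' ×ˢ Set.uIcc y y') ∩ {v | f.eval v.1 + g.eval v.2 = 0} := by
      ext v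
      simp only [hK, Set.mem_ofPred_eq, Set.mem_inter_iff, Set.mem_prod, and_assoc]
    rw [e]
    exact (isCompact_uIcc.prod isCompact_uIcc).inter_right
      (isClosed_eq (contDiff_fg f g).continuous continuous_const)
  have : CompactSpace K := isCompact_iff_compactSpace.1 hKc
  set φ : K → ℝ := fun v => v.1.1 with hφ
  have hφc : Continuous φ := continuous_fst.comp continuous_subtype_val
  have hinj : Function.Injective φ := by
    rintro ⟨⟨a, b⟩, ha, hb, hab⟩ ⟨⟨a', b'⟩, ha', hb', hab'⟩ hh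
    simp only [hφ] at hh
    subst hh
    have hbb : b = b' := ig' hb hb' (by
      simp only at hab hab' ⊢
      linarith)
    subst hbb
    rfl
  have hclosed : IsClosedMap φ := hφc.isClosedMap
  have hrange : Set.uIcc x x' ⊆ Set.range φ := by
    intro a ha
    have h3 := eval_mem_uIcc if' ha
    have h4 : -f.eval a ∈ Set.uIcc (g.eval y) (g.eval y') := by
      have e1 : g.eval y = -f.eval x := by linarith
      have e2 : g.eval y' = -f.eval x' := by linarith
      rw [e1, e2]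
      rw [Set.mem_uIcc] at h3 ⊢
      rcases h3 with ⟨h5, h6⟩ | ⟨h5, h6⟩
      · exact Or.inr ⟨by linarith, by linarith⟩
      · exact Or.inl ⟨by linarith, by linarith⟩
    obtain ⟨b, hb, hb0⟩ := intermediate_value_uIcc (f := fun t => g.eval t)
      g.continuous.continuousOn h4
    simp only at hb0
    exact ⟨⟨(a, b), ha, hb, by simp only; linarith⟩, rfl⟩
  have hpre : IsPreconnected (φ ⁻¹' Set.uIcc x x') :=
    isPreconnected_uIcc.preimage_of_isClosedMap hinj hclosed hrange
  have hm : ∀ v ∈ φ ⁻¹' Set.uIcc x x', aff v.1.1 v.1.2 ∈ realPart F := fun v _ =>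
    (S.mem _ _).2 v.2.2.2
  have hcont : ContinuousOn (fun v : K => aff v.1.1 v.1.2) (φ ⁻¹' Set.uIcc x x') :=
    (continuous_aff.comp continuous_subtype_val).continuousOn
  have m1 : (⟨(x, y), Set.left_mem_uIcc, Set.left_mem_uIcc, h0⟩ : K) ∈ φ ⁻¹' Set.uIcc x x' :=
    Set.left_mem_uIcc
  have m2 : (⟨(x', y'), Set.right_mem_uIcc, Set.right_mem_uIcc, h'⟩ : K) ∈
      φ ⁻¹' Set.uIcc x x' := Set.right_mem_uIcc
  exact InC.path hpre hcont hm m1 m2 h

end

end Pool.Agent.H83.MS
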